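import Pool.Agent.Lib.MP_18a3c4_co.Tools

/-!
Linear pure pairs in a hereditary class give the Erdős–Hajnal property.
-/

namespace Pool.Agent.Lib.MP_18a3c4_co

theorem exists_exponent (γ : ℝ) (hγ : 0 < γ) : ∃ c : ℝ, 0 < c ∧ 1 ≤ 2 * γ ^ c := by
  rcases le_or_gt 1 γ with h | h
  · refine ⟨1, one_pos, ?_⟩
    rw [Real.rpow_one]; linarith
  · have hl : 0 < -Real.log γ := by
      have := Real.log_neg hγ h
      linarith
    have hl2 : 0 < Real.log 2 := Real.log_pos (by norm_num)
    refine ⟨Real.log 2 / (-Real.log γ), div_pos hl2 hl, ?_⟩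
    rw [Real.rpow_def_of_pos hγ]
    have h1 : Real.log γ * (Real.log 2 / (-Real.log γ)) = - Real.log 2 := by
      have hne : Real.log γ ≠ 0 := by
        intro h0; rw [h0] at hl; simp at hl
      field_simp
    rw [h1, Real.exp_neg, Real.exp_log (by norm_num)]
    norm_num

/-- Product form: every nonempty set `S` of vertices contains a clique `a` and an independent set `b`
with `|S| ^ c ≤ |a| |b|`. -/
theorem prod_of_pure_pairs (F : HereditaryClass) (γ : ℝ) (hγ : 0 < γ)
    (h : ∀ (n : ℕ) (G : SimpleGraph (Fin n)), 2 ≤ n → F.mem n G →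
      ∃ A B : Finset (Fin n), Disjoint A B ∧ A.Nonempty ∧ B.Nonempty ∧
        γ * n ≤ A.card ∧ γ * n ≤ B.card ∧
        ((∀ a ∈ A, ∀ b ∈ B, G.Adj a b) ∨ (∀ a ∈ A, ∀ b ∈ B, ¬ G.Adj a b)))
    (c : ℝ) (hc : 0 < c) (hc2 : 1 ≤ 2 * γ ^ c) (n : ℕ) (G : SimpleGraph (Fin n))
    (hG : F.mem n G) (k : ℕ) :
    ∀ S : Finset (Fin n), S.card = k → S.Nonempty → ∃ a b : Finset (Fin n), a ⊆ S ∧ b ⊆ S ∧
      G.IsClique a ∧ G.IsIndepSet b ∧ (S.card : ℝ) ^ c ≤ (a.card : ℝ) * b.card := by
  classical
  induction k using Nat.strong_induction_on with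
  | _ k ih =>
    intro S hSk hS
    rcases Nat.lt_or_ge k 2 with hk | hk
    · have hk1 : S.card = 1 := by
        have := hS.card_pos
        omega
      obtain ⟨x, rfl⟩ := Finset.card_eq_one.1 hk1
      refine ⟨{x}, {x}, le_refl _, le_refl _, ?_, ?_, ?_⟩
      · simp
      · simp [SimpleGraph.IsIndepSet]
      · simp
    · subst hSk
      let f : Fin S.card ↪o Fin n := S.orderEmbOfFin rfl
      let H : SimpleGraph (Fin S.card) := G.comap f
      have hH : F.mem S.card H :=
        F.closed _ _ H G hG ⟨SimpleGraph.Embedding.comap f.toEmbedding G⟩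
      obtain ⟨A, B, hAB, hA, hB, hAc, hBc, hpure⟩ := h S.card H hk hH
      let A' : Finset (Fin n) := A.map f.toEmbedding
      let B' : Finset (Fin n) := B.map f.toEmbedding
      have hmemS : ∀ x, f x ∈ S := fun x => Finset.orderEmbOfFin_mem S rfl x
      have hA'S : A' ⊆ S := by
        intro x hx
        obtain ⟨y, _, rfl⟩ := Finset.mem_map.1 hx
        exact hmemS y
      have hB'S : B' ⊆ S := by
        intro x hx
        obtain ⟨y, _, rfl⟩ := Finset.mem_map.1 hx
        exact hmemS y
      have hdisj : Disjoint A' B' := (Finset.disjoint_map f.toEmbedding).2 hAB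
      have hA'c : A'.card = A.card := Finset.card_map _
      have hB'c : B'.card = B.card := Finset.card_map _
      have hA'n : A'.Nonempty := by simpa [A'] using hA
      have hB'n : B'.Nonempty := by simpa [B'] using hB
      have hsum : A'.card + B'.card ≤ S.card := by
        rw [← Finset.card_union_of_disjoint hdisj]
        exact Finset.card_le_card (Finset.union_subset hA'S hB'S)
      have hAlt : A'.card < S.card := by
        have := hB'n.card_pos; omega
      have hBlt : B'.card < S.card := by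
        have := hA'n.card_pos; omega
      obtain ⟨a1, b1, ha1, hb1, hca1, hib1, hp1⟩ := ih _ hAlt A' rfl hA'n
      obtain ⟨a2, b2, ha2, hb2, hca2, hib2, hp2⟩ := ih _ hBlt B' rfl hB'n
      have hSpos : (0 : ℝ) ≤ (S.card : ℝ) := Nat.cast_nonneg _
      have hge1 : γ ^ c * (S.card : ℝ) ^ c ≤ (a1.card : ℝ) * b1.card := by
        rw [← Real.mul_rpow hγ.le hSpos]
        refine le_trans (Real.rpow_le_rpow (by positivity) ?_ hc.le) hp1
        rw [hA'c]; exact hAc
      have hge2 : γ ^ c * (S.card : ℝ) ^ c ≤ (a2.card : ℝ) * b2.card := by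
        rw [← Real.mul_rpow hγ.le hSpos]
        refine le_trans (Real.rpow_le_rpow (by positivity) ?_ hc.le) hp2
        rw [hB'c]; exact hBc
      have hScpos : 0 ≤ (S.card : ℝ) ^ c := Real.rpow_nonneg hSpos _
      have hmain : (S.card : ℝ) ^ c ≤ (a1.card : ℝ) * b1.card + (a2.card : ℝ) * b2.card := by
        nlinarith
      rcases hpure with hcomp | hanti
      · -- complete: union of cliques
        have hcomp' : ∀ x ∈ A', ∀ y ∈ B', G.Adj x y := by
          intro x hx y hy
          obtain ⟨x', hx', rfl⟩ := Finset.mem_map.1 hx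
          obtain ⟨y', hy', rfl⟩ := Finset.mem_map.1 hy
          exact hcomp x' hx' y' hy'
        have hclq : G.IsClique ((a1 ∪ a2 : Finset (Fin n)) : Set (Fin n)) := by
          rw [SimpleGraph.isClique_iff]
          intro x hx y hy hxy
          simp only [Finset.coe_union, Set.mem_union, Finset.mem_coe] at hx hy
          rcases hx with hx | hx <;> rcases hy with hy | hy
          · exact hca1 hx hy hxy
          · exact hcomp' x (ha1 hx) y (ha2 hy)
          · exact (hcomp' y (ha1 hy) x (ha2 hx)).symm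
          · exact hca2 hx hy hxy
        have hcard : (a1 ∪ a2).card = a1.card + a2.card :=
          Finset.card_union_of_disjoint
            (Finset.disjoint_of_subset_left ha1 (Finset.disjoint_of_subset_right ha2 hdisj))
        rcases le_total b1.card b2.card with hb | hb
        · refine ⟨a1 ∪ a2, b2, Finset.union_subset (ha1.trans hA'S) (ha2.trans hB'S),
            hb2.trans hB'S, hclq, hib2, ?_⟩
          rw [hcard]; push_cast
          have : (a1.card : ℝ) * b1.card ≤ (a1.card : ℝ) * b2.card :=
            mul_le_mul_of_nonneg_left (by exact_mod_cast hb) (Nat.cast_nonneg _)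
          nlinarith
        · refine ⟨a1 ∪ a2, b1, Finset.union_subset (ha1.trans hA'S) (ha2.trans hB'S),
            hb1.trans hA'S, hclq, hib1, ?_⟩
          rw [hcard]; push_cast
          have : (a2.card : ℝ) * b2.card ≤ (a2.card : ℝ) * b1.card :=
            mul_le_mul_of_nonneg_left (by exact_mod_cast hb) (Nat.cast_nonneg _)
          nlinarith
      · have hanti' : ∀ x ∈ A', ∀ y ∈ B', ¬ G.Adj x y := by
          intro x hx y hy
          obtain ⟨x', hx', rfl⟩ := Finset.mem_map.1 hx
          obtain ⟨y', hy', rfl⟩ := Finset.mem_map.1 hy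
          exact hanti x' hx' y' hy'
        have hind : G.IsIndepSet ((b1 ∪ b2 : Finset (Fin n)) : Set (Fin n)) := by
          intro x hx y hy hxy
          simp only [Finset.coe_union, Set.mem_union, Finset.mem_coe] at hx hy
          rcases hx with hx | hx <;> rcases hy with hy | hy
          · exact hib1 hx hy hxy
          · exact hanti' x (hb1 hx) y (hb2 hy)
          · exact fun hadj => hanti' y (hb1 hy) x (hb2 hx) hadj.symm
          · exact hib2 hx hy hxy
        have hcard : (b1 ∪ b2).card = b1.card + b2.card :=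
          Finset.card_union_of_disjoint
            (Finset.disjoint_of_subset_left hb1 (Finset.disjoint_of_subset_right hb2 hdisj))
        rcases le_total a1.card a2.card with ha | ha
        · refine ⟨a2, b1 ∪ b2, ha2.trans hB'S,
            Finset.union_subset (hb1.trans hA'S) (hb2.trans hB'S), hca2, hind, ?_⟩
          rw [hcard]; push_cast
          have : (a1.card : ℝ) * b1.card ≤ (a2.card : ℝ) * b1.card :=
            mul_le_mul_of_nonneg_right (by exact_mod_cast ha) (Nat.cast_nonneg _)
          nlinarith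
        · refine ⟨a1, b1 ∪ b2, ha1.trans hA'S,
            Finset.union_subset (hb1.trans hA'S) (hb2.trans hB'S), hca1, hind, ?_⟩
          rw [hcard]; push_cast
          have : (a2.card : ℝ) * b2.card ≤ (a1.card : ℝ) * b2.card :=
            mul_le_mul_of_nonneg_right (by exact_mod_cast ha) (Nat.cast_nonneg _)
          nlinarith

/-- B4: linear pure pairs give EHP. -/
theorem ehp_of_pure_pairs (F : HereditaryClass) (γ : ℝ) (hγ : 0 < γ)
    (h : ∀ (n : ℕ) (G : SimpleGraph (Fin n)), 2 ≤ n → F.mem n G →
      ∃ A B : Finset (Fin n), Disjoint A B ∧ A.Nonempty ∧ B.Nonempty ∧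
        γ * n ≤ A.card ∧ γ * n ≤ B.card ∧
        ((∀ a ∈ A, ∀ b ∈ B, G.Adj a b) ∨ (∀ a ∈ A, ∀ b ∈ B, ¬ G.Adj a b))) :
    EHP F := by
  classical
  obtain ⟨c, hc, hc2⟩ := exists_exponent γ hγ
  refine ⟨c / 2, by positivity, ?_⟩
  intro n G hG
  rcases Nat.eq_zero_or_pos n with hn | hn
  · subst hn
    refine ⟨∅, Or.inl (by simp), ?_⟩
    have : (c / 2) ≠ 0 := by positivity
    simp [Real.zero_rpow this]
  · have hne : (Finset.univ : Finset (Fin n)).Nonempty := ⟨⟨0, hn⟩, Finset.mem_univ _⟩
    obtain ⟨a, b, -, -, ha, hb, hab⟩ :=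
      prod_of_pure_pairs F γ hγ h c hc hc2 n G hG n Finset.univ (by simp) hne
    rw [Finset.card_univ, Fintype.card_fin] at hab
    have hsq : ((n : ℝ) ^ (c / 2)) ^ 2 = (n : ℝ) ^ c := by
      rw [← Real.rpow_natCast, ← Real.rpow_mul (Nat.cast_nonneg _)]
      congr 1
      push_cast; ring
    have hpos : 0 ≤ (n : ℝ) ^ (c / 2) := Real.rpow_nonneg (Nat.cast_nonneg _) _
    rcases le_total a.card b.card with hle | hle
    · refine ⟨b, Or.inr hb, ?_⟩
      have h1 : (a.card : ℝ) * b.card ≤ (b.card : ℝ) ^ 2 := by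
        rw [sq]
        exact mul_le_mul_of_nonneg_right (by exact_mod_cast hle) (Nat.cast_nonneg _)
      exact le_of_sq_le_sq (by rw [hsq]; exact hab.trans h1) (Nat.cast_nonneg _)
    · refine ⟨a, Or.inl ha, ?_⟩
      have h1 : (a.card : ℝ) * b.card ≤ (a.card : ℝ) ^ 2 := by
        rw [sq]
        exact mul_le_mul_of_nonneg_left (by exact_mod_cast hle) (Nat.cast_nonneg _)
      exact le_of_sq_le_sq (by rw [hsq]; exact hab.trans h1) (Nat.cast_nonneg _)

end Pool.Agent.Lib.MP_18a3c4_co
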