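import Pool.Agent.Lib.MP_18a3c4_co.GraphonDens

/-!
Part C of the proof for MP_18a3c4_co: iterated substitution of an antichain of primes gives a
graphon without weakly random subgraphon.
-/

namespace Pool.Agent.Lib.MP_18a3c4_co

open MeasureTheory Filter Set GraphonPart

namespace GraphonPart

section Main

variable {h : ℕ → ℕ} (hpos : ∀ i, 0 < h i) (H : ∀ i, SimpleGraph (Fin (h i)))

/-- The graph on the unit interval. -/
noncomputable def RG : SimpleGraph unitInterval := (strGraph H).comap (fun x i => dig h hpos x i)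

theorem measurableSet_RG : MeasurableSet {p : unitInterval × unitInterval |
    (RG hpos H).Adj p.1 p.2} := by
  have h0 : {p : unitInterval × unitInterval | (RG hpos H).Adj p.1 p.2} =
      ⋃ m, ((⋂ j, ⋂ (_ : j < m), {p : unitInterval × unitInterval |
        dig h hpos p.1 j = dig h hpos p.2 j}) ∩
        {p : unitInterval × unitInterval | (H m).Adj (dig h hpos p.1 m) (dig h hpos p.2 m)}) := by
    ext p
    simp only [Set.mem_iUnion, Set.mem_inter_iff, Set.mem_iInter]
    rfl
  rw [h0]
  have hp : ∀ m, Measurable fun p : unitInterval × unitInterval =>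
      (dig h hpos p.1 m, dig h hpos p.2 m) := by
    intro m
    exact ((measurable_dig h hpos m).comp measurable_fst).prodMk
      ((measurable_dig h hpos m).comp measurable_snd)
  refine MeasurableSet.iUnion fun m => MeasurableSet.inter
    (MeasurableSet.iInter fun j => MeasurableSet.iInter fun _ => ?_) ?_
  · exact hp j (MeasurableSet.of_discrete (s := {q : Fin (h j) × Fin (h j) | q.1 = q.2}))
  · exact hp m (MeasurableSet.of_discrete (s := {q : Fin (h m) × Fin (h m) | (H m).Adj q.1 q.2}))

/-- The graph on the cells of level `m`. -/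
noncomputable def GG (m : ℕ) : SimpleGraph (Fin (Nn h m)) := (RG hpos H).comap (grid h hpos m)

/-- Adjacency of points in different cells is that of the cells. -/
theorem RG_adj_iff (m : ℕ) (x y : unitInterval) (hxy : cel h hpos m x ≠ cel h hpos m y) :
    (RG hpos H).Adj x y ↔ (GG hpos H m).Adj (cel h hpos m x) (cel h hpos m y) := by
  have hex : ∃ j, j < m ∧ dig h hpos x j ≠ dig h hpos y j := by
    by_contra hcon
    push Not at hcon
    exact hxy ((cel_eq_iff h hpos m x y).mpr hcon)
  classical
  let j := Nat.find hex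
  have hj : j < m ∧ dig h hpos x j ≠ dig h hpos y j := Nat.find_spec hex
  have hlt : ∀ l < j, dig h hpos x l = dig h hpos y l := by
    intro l hl
    have := Nat.find_min hex hl
    push Not at this
    exact this (hl.trans hj.1)
  have hx := (cel_eq_iff h hpos m x (grid h hpos m (cel h hpos m x))).mp
    (cel_grid h hpos m _).symm
  have hy := (cel_eq_iff h hpos m y (grid h hpos m (cel h hpos m y))).mp
    (cel_grid h hpos m _).symm
  simp only [GG, RG, SimpleGraph.comap_adj]
  rw [strGraph_adj_iff H (m := j) hlt hj.2, strGraph_adj_iff H (m := j), hx j hj.1, hy j hj.1]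
  · intro l hl
    rw [← hx l (hl.trans hj.1), ← hy l (hl.trans hj.1)]
    exact hlt l hl
  · rw [← hx j hj.1, ← hy j hj.1]
    exact hj.2

theorem mem_GG (𝓐 : HereditaryClass) (hmod : ModuleClosed 𝓐) (hH : ∀ i, 𝓐.mem (h i) (H i))
    (m : ℕ) : 𝓐.mem (Nn h m) (GG hpos H m) := by
  rw [← inCls_iff]
  have h1 : GG hpos H m = (strGraph H).comap (fun a i => dig h hpos (grid h hpos m a) i) := rfl
  rw [h1]
  refine inCls_strGraph H 𝓐 hmod hpos hH _ (Fin (Nn h m)) _ ?_ le_rfl
  intro a b hab
  have h2 : cel h hpos m (grid h hpos m a) = cel h hpos m (grid h hpos m b) :=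
    (cel_eq_iff h hpos m _ _).mpr fun j _ => congrFun hab j
  rwa [cel_grid, cel_grid] at h2

theorem tendsto_Nn (h2 : ∀ i, 2 ≤ h i) : Tendsto (Nn h) atTop atTop := by
  have h1 : ∀ m, m ≤ Nn h m := by
    intro m
    have h3 : 2 ^ m ≤ Nn h m := by
      induction m with
      | zero => simp [Nn_zero]
      | succ m ih => rw [Nn_succ, pow_succ]; exact Nat.mul_le_mul ih (h2 m)
    exact (Nat.lt_two_pow_self).le.trans h3
  exact tendsto_atTop_mono h1 tendsto_id

/-- Embeddings as a set of functions. -/
def embSet {k n : ℕ} (K : SimpleGraph (Fin k)) (G : SimpleGraph (Fin n)) : Set (Fin k → Fin n) :=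
  {f | Function.Injective f ∧ ∀ i j, K.Adj i j ↔ G.Adj (f i) (f j)}

theorem card_embSet {k n : ℕ} (K : SimpleGraph (Fin k)) (G : SimpleGraph (Fin n)) :
    Nat.card (embSet K G) = Nat.card (K ↪g G) := by
  refine Nat.card_congr ⟨fun f => ⟨⟨f.1, f.2.1⟩, fun {a b} => (f.2.2 a b).symm⟩,
    fun g => ⟨g, g.injective, fun i j => (g.map_rel_iff).symm⟩, ?_, ?_⟩
  · intro f
    rfl
  · intro g
    rfl

theorem card_injSet (k n : ℕ) :
    Nat.card {f : Fin k → Fin n | Function.Injective f} = n.descFactorial k := by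
  have h1 : Nat.card {f : Fin k → Fin n | Function.Injective f} = Nat.card (Fin k ↪ Fin n) :=
    Nat.card_congr (Equiv.subtypeInjectiveEquivEmbedding _ _)
  rw [h1, Nat.card_eq_fintype_card, Fintype.card_embedding_eq]
  simp

theorem abs_diff_le (m k : ℕ) (K : SimpleGraph (Fin k)) :
    |(Nat.card (K ↪g GG hpos H m) : ℝ) / (Nn h m : ℝ) ^ k -
      indDensity K (indGraphon (RG hpos H) (measurableSet_RG hpos H)) volume| ≤
      1 - ((Nn h m).descFactorial k : ℝ) / (Nn h m : ℝ) ^ k := by
  rw [indDensity_eq]
  let μ : Measure (Fin k → unitInterval) := Measure.pi fun _ : Fin k => volume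
  let c := cel h hpos m
  have hc : Measurable c := measurable_cel h hpos m
  have hv : ∀ a, volume (c ⁻¹' {a}) = ((Nn h m : ℕ) : ENNReal)⁻¹ := volume_cel h hpos m
  have h1 := pi_cell c hc hv k (embSet K (GG hpos H m))
  have h2 := pi_cell c hc hv k {f | Function.Injective f}
  rw [card_embSet] at h1
  rw [card_injSet] at h2
  have hmeasure : Measurable fun x : Fin k → unitInterval => fun i => c (x i) := by fun_prop
  have hm1 : MeasurableSet {x : Fin k → unitInterval | (fun i => c (x i)) ∈
      embSet K (GG hpos H m)} := hmeasure (MeasurableSet.of_discrete)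
  have hm2 : MeasurableSet {x : Fin k → unitInterval | (fun i => c (x i)) ∈
      {f : Fin k → Fin (Nn h m) | Function.Injective f}} := hmeasure (MeasurableSet.of_discrete)
  have hsub1 : {x : Fin k → unitInterval | (fun i => c (x i)) ∈ embSet K (GG hpos H m)} ⊆
      indSet (RG hpos H) K := by
    intro x hx i j
    obtain ⟨hx1, hx2⟩ := hx
    by_cases hij : i = j
    · subst hij
      simp
    · rw [hx2 i j, RG_adj_iff hpos H m (x i) (x j) (fun h => hij (hx1 h))]
  have hsub2 : indSet (RG hpos H) K ⊆
      {x : Fin k → unitInterval | (fun i => c (x i)) ∈ embSet K (GG hpos H m)} ∪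
      {x : Fin k → unitInterval | (fun i => c (x i)) ∈
        {f : Fin k → Fin (Nn h m) | Function.Injective f}}ᶜ := by
    intro x hx
    by_cases hinj : Function.Injective fun i => c (x i)
    · left
      refine ⟨hinj, fun i j => ?_⟩
      by_cases hij : i = j
      · subst hij
        simp
      · rw [hx i j, RG_adj_iff hpos H m (x i) (x j) (fun h => hij (hinj h))]
    · right
      exact hinj
  have h3 : μ.real {x : Fin k → unitInterval | (fun i => c (x i)) ∈ embSet K (GG hpos H m)} ≤
      μ.real (indSet (RG hpos H) K) := measureReal_mono hsub1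
  have h4 : μ.real (indSet (RG hpos H) K) ≤
      μ.real {x : Fin k → unitInterval | (fun i => c (x i)) ∈ embSet K (GG hpos H m)} +
      μ.real {x : Fin k → unitInterval | (fun i => c (x i)) ∈
        {f : Fin k → Fin (Nn h m) | Function.Injective f}}ᶜ :=
    (measureReal_mono hsub2).trans (measureReal_union_le _ _)
  rw [probReal_compl_eq_one_sub hm2] at h4
  change μ.real _ = _ at h1
  change μ.real _ = _ at h2
  rw [h1] at h3 h4
  rw [h2] at h4
  change |_ - μ.real (indSet (RG hpos H) K)| ≤ _
  rw [abs_le]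
  constructor <;> linarith

theorem tendsto_desc (h2 : ∀ i, 2 ≤ h i) (k : ℕ) :
    Tendsto (fun m => ((Nn h m).descFactorial k : ℝ) / (Nn h m : ℝ) ^ k) atTop (nhds 1) := by
  have h1 := isEquivalent_descFactorial k
  have hz : ∀ᶠ (x : ℕ) in atTop, ((x : ℝ) ^ k) ≠ 0 :=
    eventually_atTop.mpr ⟨1, fun n hn ↦ by positivity⟩
  rw [Asymptotics.isEquivalent_iff_tendsto_one hz] at h1
  exact h1.comp (tendsto_Nn h2)

theorem isGraphonOf (F 𝓐 : HereditaryClass) (hsub : ∀ n G, 𝓐.mem n G → F.mem n G)
    (hmod : ModuleClosed 𝓐) (hH : ∀ i, 𝓐.mem (h i) (H i)) (h2 : ∀ i, 2 ≤ h i) :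
    IsGraphonOf F (indGraphon (RG hpos H) (measurableSet_RG hpos H)) := by
  refine ⟨Nn h, GG hpos H, tendsto_Nn h2, fun i => hsub _ _ (mem_GG hpos H 𝓐 hmod hH i), ?_⟩
  intro k K
  have h1 := tendsto_desc h2 k
  have h3 : Tendsto (fun m => (Nat.card (K ↪g GG hpos H m) : ℝ) / (Nn h m : ℝ) ^ k) atTop
      (nhds (indDensity K (indGraphon (RG hpos H) (measurableSet_RG hpos H)) volume)) := by
    rw [tendsto_iff_norm_sub_tendsto_zero]
    refine squeeze_zero (fun _ => norm_nonneg _) (fun m => abs_diff_le hpos H m k K) ?_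
    have := (tendsto_const_nhds (x := (1 : ℝ))).sub h1
    simpa using this
  have h4 := h3.div h1 one_ne_zero
  rw [div_one] at h4
  refine h4.congr fun m => ?_
  have hN : (0 : ℝ) < Nn h m := by exact_mod_cast Nn_pos h hpos m
  simp only [Pi.div_apply, graphDensity]
  rw [div_div_div_cancel_right₀]
  positivity

/-- A set of positive measure meets all children of some cell in positive measure. -/
theorem exists_split (hprod : Tendsto (fun m => ∏ i ∈ Finset.range m, (1 - 1 / (h i : ℝ))) atTop
    (nhds 0)) (A : Set unitInterval) (hA0 : volume A ≠ 0) :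
    ∃ (m : ℕ) (a : Fin (Nn h m)), ∀ d : Fin (h m),
      volume (A ∩ {x | cel h hpos m x = a ∧ dig h hpos x m = d}) ≠ 0 := by
  classical
  by_contra hcon
  push Not at hcon
  let S : ∀ m, Finset (Fin (Nn h m)) := fun m =>
    Finset.univ.filter fun a => volume (A ∩ cel h hpos m ⁻¹' {a}) ≠ 0
  have hSmem : ∀ m a, a ∈ S m ↔ volume (A ∩ cel h hpos m ⁻¹' {a}) ≠ 0 := by
    intro m a
    simp [S]
  -- the number of cells that meet `A`
  have hstep : ∀ m, (S (m + 1)).card ≤ (h m - 1) * (S m).card := by
    intro m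
    have hp : ∀ a' : Fin (Nn h (m + 1)), (a' : ℕ) / h m < Nn h m := by
      intro a'
      exact Nat.div_lt_of_lt_mul (a'.2.trans_eq ((Nn_succ h m).trans (mul_comm _ _)))
    let par : Fin (Nn h (m + 1)) → Fin (Nn h m) := fun a' => ⟨a' / h m, hp a'⟩
    let dg : Fin (Nn h (m + 1)) → Fin (h m) := fun a' => ⟨a' % h m, Nat.mod_lt _ (hpos m)⟩
    have hpar : ∀ x, par (cel h hpos (m + 1) x) = cel h hpos m x := by
      intro x
      rw [Fin.ext_iff]
      simp only [par]
      rw [cel_succ_val, Nat.add_mul_div_left _ _ (hpos m),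
        Nat.div_eq_of_lt (dig h hpos x m).2, Nat.zero_add]
    have hdg : ∀ x, dg (cel h hpos (m + 1) x) = dig h hpos x m := by
      intro x
      rw [Fin.ext_iff]
      simp only [dg]
      rw [cel_succ_val, Nat.add_mul_mod_self_left, Nat.mod_eq_of_lt (dig h hpos x m).2]
    have hinj : ∀ a' b', par a' = par b' → dg a' = dg b' → a' = b' := by
      intro a' b' h1 h2
      rw [Fin.ext_iff] at h1 h2 ⊢
      simp only [par, dg] at h1 h2
      rw [← Nat.div_add_mod (a' : ℕ) (h m), ← Nat.div_add_mod (b' : ℕ) (h m), h1, h2]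
    refine Finset.card_le_mul_card_image_of_maps_to (f := par) ?_ _ ?_
    · intro a' ha'
      rw [hSmem] at ha' ⊢
      intro h0
      apply ha'
      refine measure_mono_null ?_ h0
      rintro x ⟨hx1, hx2⟩
      refine ⟨hx1, ?_⟩
      rw [Set.mem_preimage, Set.mem_singleton_iff] at hx2 ⊢
      rw [← hx2, hpar]
    · intro a ha
      obtain ⟨d, hd⟩ := hcon m a
      have h1 : (Finset.univ.erase d).card = h m - 1 := by
        rw [Finset.card_erase_of_mem (Finset.mem_univ _)]
        simp
      rw [← h1]
      refine Finset.card_le_card_of_injOn dg ?_ ?_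
      · intro a' ha'
        rw [Finset.mem_coe, Finset.mem_filter, hSmem] at ha'
        rw [Finset.mem_coe, Finset.mem_erase]
        refine ⟨?_, Finset.mem_univ _⟩
        intro hdd
        apply ha'.1
        refine measure_mono_null ?_ hd
        rintro x ⟨hx1, hx2⟩
        rw [Set.mem_preimage, Set.mem_singleton_iff] at hx2
        refine ⟨hx1, ?_, ?_⟩
        · rw [← hpar, hx2, ha'.2]
        · rw [← hdg, hx2, hdd]
      · intro a' ha' b' hb' hab
        rw [Finset.mem_coe, Finset.mem_filter] at ha' hb'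
        exact hinj a' b' (ha'.2.trans hb'.2.symm) hab
  have hcard : ∀ m, ((S m).card : ℝ) / (Nn h m : ℝ) ≤ ∏ i ∈ Finset.range m, (1 - 1 / (h i : ℝ)) := by
    intro m
    induction m with
    | zero =>
      have h1 : (S 0).card ≤ 1 := by
        have := Finset.card_le_univ (S 0)
        simpa [Nn_zero] using this
      have hN0 : (Nn h 0 : ℝ) = 1 := by rw [Nn_zero]; simp
      rw [hN0]
      simpa using h1
    | succ m ih =>
      have hNs : (Nn h (m + 1) : ℝ) = (Nn h m : ℝ) * h m := by rw [Nn_succ]; push_cast; ring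
      rw [Finset.prod_range_succ, hNs]
      have hhm : (0 : ℝ) < h m := by exact_mod_cast hpos m
      have hN : (0 : ℝ) < Nn h m := by exact_mod_cast Nn_pos h hpos m
      have h1 : ((S (m + 1)).card : ℝ) ≤ ((h m : ℝ) - 1) * (S m).card := by
        have := hstep m
        have h3 : ((S (m + 1)).card : ℝ) ≤ (((h m - 1 : ℕ) : ℝ)) * (S m).card := by
          exact_mod_cast this
        rwa [Nat.cast_sub (hpos m), Nat.cast_one] at h3
      have h4 : (0 : ℝ) ≤ 1 - 1 / (h m : ℝ) := by
        have : 1 / (h m : ℝ) ≤ 1 := by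
          rw [div_le_one hhm]
          exact_mod_cast hpos m
        linarith
      calc ((S (m + 1)).card : ℝ) / ((Nn h m : ℝ) * h m)
          ≤ (((h m : ℝ) - 1) * (S m).card) / ((Nn h m : ℝ) * h m) := by
            gcongr
        _ = ((S m).card : ℝ) / (Nn h m : ℝ) * (1 - 1 / (h m : ℝ)) := by
            field_simp
        _ ≤ _ := mul_le_mul_of_nonneg_right ih h4
  have hvol : ∀ m, volume.real A ≤ ((S m).card : ℝ) / (Nn h m : ℝ) := by
    intro m
    have h1 : A ⊆ (⋃ a ∈ (Finset.univ : Finset (Fin (Nn h m))), A ∩ cel h hpos m ⁻¹' {a}) := by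
      intro x hx
      simp only [Set.mem_iUnion]
      exact ⟨cel h hpos m x, Finset.mem_univ _, hx, rfl⟩
    calc volume.real A
        ≤ volume.real (⋃ a ∈ (Finset.univ : Finset (Fin (Nn h m))), A ∩ cel h hpos m ⁻¹' {a}) :=
          measureReal_mono h1 (measure_ne_top _ _)
      _ ≤ ∑ a : Fin (Nn h m), volume.real (A ∩ cel h hpos m ⁻¹' {a}) :=
          measureReal_biUnion_finset_le _ _
      _ = ∑ a ∈ S m, volume.real (A ∩ cel h hpos m ⁻¹' {a}) := by
          symm
          refine Finset.sum_subset (Finset.subset_univ _) fun a _ ha => ?_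
          rw [hSmem, not_not] at ha
          rw [measureReal_def, ha, ENNReal.toReal_zero]
      _ ≤ ∑ a ∈ S m, ((Nn h m : ℝ))⁻¹ := by
          refine Finset.sum_le_sum fun a _ => ?_
          calc volume.real (A ∩ cel h hpos m ⁻¹' {a}) ≤ volume.real (cel h hpos m ⁻¹' {a}) :=
                measureReal_mono Set.inter_subset_right
            _ = ((Nn h m : ℝ))⁻¹ := by
                rw [measureReal_def, volume_cel]
                simp
      _ = _ := by
          rw [Finset.sum_const, nsmul_eq_mul, div_eq_mul_inv]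
  have h5 : volume.real A ≤ 0 :=
    ge_of_tendsto' hprod fun m => (hvol m).trans (hcard m)
  have h6 : volume.real A = 0 := le_antisymm h5 measureReal_nonneg
  rw [measureReal_eq_zero_iff] at h6
  exact hA0 h6

theorem normRestrict_apply (A B : Set unitInterval) (hB : MeasurableSet B) :
    normRestrict A B = (volume A)⁻¹ * volume (A ∩ B) := by
  unfold normRestrict
  rw [Measure.smul_apply, Measure.restrict_apply hB, Set.inter_comm, smul_eq_mul]

instance (A : Set unitInterval) : IsFiniteMeasure (normRestrict A) := by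
  by_cases hA : volume A = 0
  · have : normRestrict A = 0 := by
      unfold normRestrict
      rw [Measure.restrict_zero_set hA, smul_zero]
    rw [this]
    infer_instance
  · refine ⟨?_⟩
    rw [normRestrict_apply A _ MeasurableSet.univ]
    exact ENNReal.mul_lt_top (ENNReal.inv_lt_top.mpr (pos_iff_ne_zero.mpr hA))
      (measure_lt_top _ _)

theorem not_weaklyRandom (hprod : Tendsto (fun m => ∏ i ∈ Finset.range m, (1 - 1 / (h i : ℝ)))
    atTop (nhds 0)) (h3 : ∀ i, 3 ≤ h i) (hprime : ∀ i, IsPrimeGraph (H i))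
    (hfar : ∀ i, ∃ L, ∀ j, L ≤ j → ¬ Nonempty (H i ↪g H j))
    (A : Set unitInterval) (hA : MeasurableSet A) (hA0 : volume A ≠ 0) :
    ¬ IsWeaklyRandomOn (indGraphon (RG hpos H) (measurableSet_RG hpos H)) A := by
  classical
  intro hW
  obtain ⟨m, a, hsplit⟩ := exists_split hpos hprod A hA0
  obtain ⟨L, hL⟩ := hfar m
  -- a cell of level L that meets A
  obtain ⟨a', ha'⟩ : ∃ a' : Fin (Nn h L), volume (A ∩ cel h hpos L ⁻¹' {a'}) ≠ 0 := by
    by_contra hcon
    push Not at hcon
    apply hA0
    have h1 : A ⊆ ⋃ a' : Fin (Nn h L), A ∩ cel h hpos L ⁻¹' {a'} := by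
      intro x hx
      simp only [Set.mem_iUnion]
      exact ⟨cel h hpos L x, hx, rfl⟩
    exact measure_mono_null h1 (measure_iUnion_null hcon)
  have hcelm : MeasurableSet (cel h hpos L ⁻¹' {a'}) :=
    measurable_cel h hpos L (measurableSet_singleton _)
  have hBm : MeasurableSet (A ∩ cel h hpos L ⁻¹' {a'}) := hA.inter hcelm
  have key := hW _ Set.inter_subset_left hBm ha' (h m) (H m)
  -- positive density on A
  have hpositive : 0 < subDensity (H m) (indGraphon (RG hpos H) (measurableSet_RG hpos H)) A := by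
    unfold subDensity
    rw [indDensity_eq, measureReal_def, ENNReal.toReal_pos_iff]
    refine ⟨?_, measure_lt_top _ _⟩
    have hbox : Set.univ.pi (fun d : Fin (h m) =>
        {x | cel h hpos m x = a ∧ dig h hpos x m = d}) ⊆ indSet (RG hpos H) (H m) := by
      intro x hx i j
      have hi := hx i (Set.mem_univ i)
      have hj := hx j (Set.mem_univ j)
      by_cases hij : i = j
      · subst hij
        simp
      · have hlt := (cel_eq_iff h hpos m (x i) (x j)).mp (hi.1.trans hj.1.symm)
        have hne : dig h hpos (x i) m ≠ dig h hpos (x j) m := by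
          rw [hi.2, hj.2]
          exact hij
        have h5 := strGraph_adj_iff H (m := m) (d := dig h hpos (x i)) (d' := dig h hpos (x j))
          hlt hne
        rw [hi.2, hj.2] at h5
        exact h5.symm
    refine lt_of_lt_of_le ?_ (measure_mono hbox)
    rw [Measure.pi_pi, pos_iff_ne_zero, Finset.prod_ne_zero_iff]
    intro d _
    have hm1 : MeasurableSet {x | cel h hpos m x = a ∧ dig h hpos x m = d} :=
      (measurable_cel h hpos m (measurableSet_singleton a)).inter
        (measurable_dig h hpos m (measurableSet_singleton d))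
    rw [normRestrict_apply A _ hm1]
    exact mul_ne_zero (ENNReal.inv_ne_zero.mpr (measure_ne_top _ _)) (hsplit d)
  -- zero density on the part
  have hzero : ¬ 0 < subDensity (H m) (indGraphon (RG hpos H) (measurableSet_RG hpos H))
      (A ∩ cel h hpos L ⁻¹' {a'}) := by
    unfold subDensity
    rw [indDensity_eq, measureReal_def]
    have hnull : (Measure.pi fun _ : Fin (h m) => normRestrict (A ∩ cel h hpos L ⁻¹' {a'}))
        (indSet (RG hpos H) (H m)) = 0 := by
      have hae : ∀ i : Fin (h m), ∀ᵐ x ∂(Measure.pi fun _ : Fin (h m) =>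
          normRestrict (A ∩ cel h hpos L ⁻¹' {a'})), cel h hpos L (x i) = a' := by
        intro i
        have h6 : ∀ᵐ t ∂(normRestrict (A ∩ cel h hpos L ⁻¹' {a'})), cel h hpos L t = a' := by
          rw [ae_iff]
          have h7 : {t | ¬ cel h hpos L t = a'} = (cel h hpos L ⁻¹' {a'})ᶜ := rfl
          rw [h7, normRestrict_apply _ _ hcelm.compl]
          have h8 : A ∩ cel h hpos L ⁻¹' {a'} ∩ (cel h hpos L ⁻¹' {a'})ᶜ = ∅ := by
            rw [Set.inter_assoc, Set.inter_compl_self, Set.inter_empty]
          rw [h8, measure_empty, mul_zero]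
        exact (Measure.tendsto_eval_ae_ae
          (μ := fun _ : Fin (h m) => normRestrict (A ∩ cel h hpos L ⁻¹' {a'}))
          (i := i)).eventually h6
      have hall := ae_all_iff.mpr hae
      rw [ae_iff] at hall
      refine measure_mono_null ?_ hall
      intro x hx hcon
      obtain ⟨j, hj1, hj2⟩ := embeds_of_prime H (H m) (hprime m) (h3 m)
        (fun v i => dig h hpos (x v) i) (by
          ext u v
          exact hx u v) L (by
          intro u v
          exact (cel_eq_iff h hpos L (x u) (x v)).mp ((hcon u).trans (hcon v).symm))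
      exact hL j hj1 hj2
    rw [hnull]
    simp
  exact hzero (key.mpr hpositive)

end Main

end GraphonPart

/-- Part C: iterated substitution of an antichain of primes gives a graphon without weakly random
subgraphon. -/
theorem not_WR_of_antichain (F 𝓐 : HereditaryClass) (hsub : ∀ n G, 𝓐.mem n G → F.mem n G)
    (hmod : ModuleClosed 𝓐) (s : ℕ → ℕ) (hs : ∀ b, 3 ≤ s b) (X : ∀ b, SimpleGraph (Fin (s b)))
    (hX : ∀ b, 𝓐.mem (s b) (X b)) (hprime : ∀ b, IsPrimeGraph (X b))
    (hanti : ∀ b b', b < b' → ¬ Nonempty (X b ↪g X b')) : ¬ WR F := by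
  obtain ⟨b, hb1, hb2⟩ := exists_seq s (fun i => le_trans (by norm_num) (hs i))
  intro hWR
  have hpos : ∀ i, 0 < s (b i) := fun i => lt_of_lt_of_le (by norm_num) (hs (b i))
  obtain ⟨A, hA, hA0, hAW⟩ := hWR _ (isGraphonOf (h := fun i => s (b i)) hpos (fun i => X (b i))
    F 𝓐 hsub hmod (fun i => hX (b i)) (fun i => le_trans (by norm_num) (hs (b i))))
  refine not_weaklyRandom (h := fun i => s (b i)) hpos (fun i => X (b i)) hb2 (fun i => hs (b i))
    (fun i => hprime (b i)) ?_ A hA hA0 hAW
  intro i
  obtain ⟨L, hL⟩ := hb1 i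
  exact ⟨L, fun j hj => hanti _ _ (hL j hj)⟩

end Pool.Agent.Lib.MP_18a3c4_co
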