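import Pool.Agent.Lib.MP_18a3c4_co.Tools

/-!
The pattern graphs: cycles and the graphs `T(k, α, β)`. They are prime, and each family is an
antichain.
-/

namespace Pool.Agent.Lib.MP_18a3c4_co

/-! ### Modules and complements -/

theorem isModule_compl_iff {V : Type} (G : SimpleGraph V) (M : Set V) :
    IsModule Gᶜ M ↔ IsModule G M := by
  unfold IsModule
  constructor
  · intro h x hx a ha b hb
    have := h x hx a ha b hb
    have hxa : x ≠ a := fun e => hx (e ▸ ha)
    have hxb : x ≠ b := fun e => hx (e ▸ hb)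
    simp only [SimpleGraph.compl_adj, hxa, hxb, ne_eq, not_false_eq_true, true_and] at this
    tauto
  · intro h x hx a ha b hb
    have := h x hx a ha b hb
    have hxa : x ≠ a := fun e => hx (e ▸ ha)
    have hxb : x ≠ b := fun e => hx (e ▸ hb)
    simp only [SimpleGraph.compl_adj, hxa, hxb, ne_eq, not_false_eq_true, true_and]
    tauto

theorem IsPrimeGraph.compl {V : Type} {G : SimpleGraph V} (h : IsPrimeGraph G) :
    IsPrimeGraph Gᶜ := fun M hM hn => h M ((isModule_compl_iff G M).1 hM) hn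

/-! ### Cycles -/

/-- adjacency in the cycle on `0, …, j-1` -/
def cycRel (j a b : ℕ) : Prop :=
  a ≠ b ∧ (b = a + 1 ∨ a = b + 1 ∨ (a = 0 ∧ b + 1 = j) ∨ (b = 0 ∧ a + 1 = j))

/-- the cycle with `j` vertices -/
def cyc (j : ℕ) : SimpleGraph (Fin j) where
  Adj a b := cycRel j a b
  symm := ⟨fun a b h => by unfold cycRel at *; omega⟩
  loopless := ⟨fun a h => by unfold cycRel at h; omega⟩

theorem cyc_adj (j : ℕ) (a b : Fin j) : (cyc j).Adj a b ↔ cycRel j a b := Iff.rfl

theorem cyc_closed {j : ℕ} (hj : 5 ≤ j) (S : Set (Fin j)) (hne : S.Nonempty)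
    (h : ∀ a ∈ S, ∀ b : Fin j, (b.val = a.val + 1 ∨ (b.val = 0 ∧ a.val + 1 = j)) → b ∈ S) :
    S = Set.univ := by
  obtain ⟨a, ha⟩ := hne
  -- go up to `j - 1`
  have hup : ∀ n, ∀ hn : a.val + n < j, (⟨a.val + n, hn⟩ : Fin j) ∈ S := by
    intro n
    induction n with
    | zero => intro hn; exact ha
    | succ n ih =>
      intro hn
      exact h _ (ih (by omega)) _ (Or.inl (by simp; omega))
  have htop : (⟨j - 1, by omega⟩ : Fin j) ∈ S := by
    have := hup (j - 1 - a.val) (by omega)
    convert this using 2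
    omega
  have hzero : (⟨0, by omega⟩ : Fin j) ∈ S :=
    h _ htop _ (Or.inr ⟨rfl, by simp; omega⟩)
  have hall : ∀ n, ∀ hn : n < j, (⟨n, hn⟩ : Fin j) ∈ S := by
    intro n
    induction n with
    | zero => intro hn; exact hzero
    | succ n ih =>
      intro hn
      exact h _ (ih (by omega)) _ (Or.inl (by simp))
  ext x
  simp only [Set.mem_univ, iff_true]
  exact hall x.val x.isLt

theorem cyc_prime {j : ℕ} (hj : 5 ≤ j) : IsPrimeGraph (cyc j) := by
  intro M hM hnt
  refine cyc_closed hj M hnt.nonempty ?_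
  intro a ha x hx
  by_contra hxM
  obtain ⟨b, hb, hba⟩ := hnt.exists_ne a
  have hne : b.val ≠ a.val := fun e => hba (Fin.ext e)
  have hxa : (cyc j).Adj x a := by
    rw [cyc_adj]; unfold cycRel; omega
  have hxb : (cyc j).Adj x b := (hM x hxM a ha b hb).1 hxa
  -- the predecessor of `a`
  obtain ⟨y, hy⟩ : ∃ y : Fin j, (a.val = y.val + 1 ∨ (a.val = 0 ∧ y.val + 1 = j)) := by
    rcases Nat.eq_zero_or_pos a.val with h0 | h0
    · exact ⟨⟨j - 1, by omega⟩, Or.inr ⟨h0, by simp; omega⟩⟩
    · exact ⟨⟨a.val - 1, by omega⟩, Or.inl (by simp; omega)⟩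
  have hya : (cyc j).Adj y a := by
    rw [cyc_adj]; unfold cycRel; omega
  have hyb : ¬ (cyc j).Adj y b := by
    rw [cyc_adj] at hxb ⊢; unfold cycRel at hxb ⊢; omega
  have hyM : y ∈ M := by
    by_contra hyM
    exact hyb ((hM y hyM a ha b hb).1 hya)
  have hxy : (cyc j).Adj x y := (hM x hxM a ha y hyM).1 hxa
  rw [cyc_adj] at hxy hxb hya
  unfold cycRel at hxy hxb hya
  omega

theorem cyc_antichain {j j' : ℕ} (hj : 5 ≤ j) (hjj : j < j') :
    ¬ Nonempty (cyc j ↪g cyc j') := by
  rintro ⟨f⟩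
  have hsurj : Set.range f = Set.univ := by
    refine cyc_closed (by omega) _ ⟨f ⟨0, by omega⟩, ⟨_, rfl⟩⟩ ?_
    rintro _ ⟨a, rfl⟩ x hx
    obtain ⟨y, hy⟩ : ∃ y : Fin j, (a.val = y.val + 1 ∨ (a.val = 0 ∧ y.val + 1 = j)) := by
      rcases Nat.eq_zero_or_pos a.val with h0 | h0
      · exact ⟨⟨j - 1, by omega⟩, Or.inr ⟨h0, by simp; omega⟩⟩
      · exact ⟨⟨a.val - 1, by omega⟩, Or.inl (by simp; omega)⟩
    obtain ⟨z, hz⟩ : ∃ z : Fin j, (z.val = a.val + 1 ∨ (z.val = 0 ∧ a.val + 1 = j)) := by
      rcases Nat.lt_or_ge (a.val + 1) j with h0 | h0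
      · exact ⟨⟨a.val + 1, h0⟩, Or.inl rfl⟩
      · exact ⟨⟨0, by omega⟩, Or.inr ⟨rfl, by omega⟩⟩
    have hya : (cyc j).Adj a y := by
      rw [cyc_adj]; unfold cycRel; omega
    have hza : (cyc j).Adj a z := by
      rw [cyc_adj]; unfold cycRel; omega
    have hyz : y ≠ z := by
      intro e; rw [e] at hy; omega
    have hfyz : (f y).val ≠ (f z).val := fun e => hyz (f.injective (Fin.ext e))
    have hfy := f.map_adj_iff.2 hya
    have hfz := f.map_adj_iff.2 hza
    rw [cyc_adj] at hfy hfz
    unfold cycRel at hfy hfz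
    have : x.val = (f y).val ∨ x.val = (f z).val := by omega
    rcases this with h | h
    · exact ⟨y, (Fin.ext h).symm⟩
    · exact ⟨z, (Fin.ext h).symm⟩
  have hs : Function.Surjective f := Set.range_eq_univ.1 hsurj
  have := Fintype.card_le_of_surjective f hs
  simp at this
  omega

/-! ### The graphs `T(k, α, β)` -/

/-- half of the adjacency relation of `T(k, α, β)`: the vertices `0, …, k` form the path, `k + 1` is
`u` and `k + 2` is `u'` -/
def tHalf (α β : Bool) (k x y : ℕ) : Prop :=
  (y ≤ k ∧ y = x + 1) ∨ (x = k + 1 ∧ y ≤ k ∧ (y = 2 ∨ (α = true ∧ y = 3))) ∨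
    (x = k + 2 ∧ y ≤ k ∧ (y + 2 = k ∨ (β = true ∧ y + 3 = k)))

/-- adjacency of `T(k, α, β)` -/
def tRel (α β : Bool) (k x y : ℕ) : Prop := tHalf α β k x y ∨ tHalf α β k y x

/-- the graph `T(k, α, β)` -/
def tGraph (α β : Bool) (k : ℕ) : SimpleGraph (Fin (k + 3)) where
  Adj a b := tRel α β k a b
  symm := ⟨fun a b h => by unfold tRel at *; tauto⟩
  loopless := ⟨fun a h => by unfold tRel tHalf at h; omega⟩

theorem tGraph_adj (α β : Bool) (k : ℕ) (a b : Fin (k + 3)) :
    (tGraph α β k).Adj a b ↔ tRel α β k a b := Iff.rfl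

theorem tRel_comm (α β : Bool) (k x y : ℕ) : tRel α β k x y ↔ tRel α β k y x := by
  unfold tRel; tauto


theorem tRel_pp (α β : Bool) {k x y : ℕ} (hx : x ≤ k) (hy : y ≤ k) :
    tRel α β k x y ↔ (y = x + 1 ∨ x = y + 1) := by
  unfold tRel tHalf
  omega

theorem tRel_pu (α β : Bool) {k x : ℕ} (hx : x ≤ k) :
    tRel α β k x (k + 1) ↔ (x = 2 ∨ (α = true ∧ x = 3)) := by
  unfold tRel tHalf
  cases α <;> simp <;> omega

theorem tRel_pu' (α β : Bool) {k x : ℕ} (hx : x ≤ k) :
    tRel α β k x (k + 2) ↔ (x + 2 = k ∨ (β = true ∧ x + 3 = k)) := by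
  unfold tRel tHalf
  cases β <;> simp <;> omega

theorem tRel_uu' (α β : Bool) {k : ℕ} : ¬ tRel α β k (k + 1) (k + 2) := by
  unfold tRel tHalf
  omega

theorem tRel_uu (α β : Bool) {k : ℕ} : ¬ tRel α β k (k + 1) (k + 1) := by
  unfold tRel tHalf
  omega

theorem tRel_u'u' (α β : Bool) {k : ℕ} : ¬ tRel α β k (k + 2) (k + 2) := by
  unfold tRel tHalf
  omega

/-- two vertices with a common neighbour `x` are distinguished by a non-neighbour of `x` -/
theorem t_key (α β : Bool) {k a b x : ℕ} (hk : 12 ≤ k) (hb : b < k + 3)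
    (hx : x < k + 3) (hab : a < b) (hxa : tRel α β k x a) (hxb : tRel α β k x b) :
    ∃ y < k + 3, ¬ (tRel α β k y a ↔ tRel α β k y b) ∧ ¬ tRel α β k x y := by
  rcases (by omega : b ≤ k ∨ b = k + 1 ∨ b = k + 2) with hbk | rfl | rfl
  · have hak : a ≤ k := by omega
    rcases (by omega : x ≤ k ∨ x = k + 1 ∨ x = k + 2) with hxk | rfl | rfl
    · rw [tRel_pp α β hxk hak] at hxa
      rw [tRel_pp α β hxk hbk] at hxb
      rcases (by omega : 1 ≤ a ∨ b + 1 ≤ k) with h | h
      · refine ⟨a - 1, by omega, ?_, ?_⟩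
        · rw [tRel_pp α β (by omega) hak, tRel_pp α β (by omega) hbk]; omega
        · rw [tRel_pp α β hxk (by omega)]; omega
      · refine ⟨b + 1, by omega, ?_, ?_⟩
        · rw [tRel_pp α β (by omega) hak, tRel_pp α β (by omega) hbk]; omega
        · rw [tRel_pp α β hxk (by omega)]; omega
    · rw [tRel_comm, tRel_pu α β (by omega)] at hxa hxb
      refine ⟨1, by omega, ?_, ?_⟩
      · rw [tRel_pp α β (by omega) hak, tRel_pp α β (by omega) hbk]; omega
      · rw [tRel_comm, tRel_pu α β (by omega)]; omega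
    · rw [tRel_comm, tRel_pu' α β (by omega)] at hxa hxb
      refine ⟨k - 1, by omega, ?_, ?_⟩
      · rw [tRel_pp α β (by omega) hak, tRel_pp α β (by omega) hbk]; omega
      · rw [tRel_comm, tRel_pu' α β (by omega)]; omega
  · have hak : a ≤ k := by omega
    rcases (by omega : x ≤ k ∨ x = k + 1 ∨ x = k + 2) with hxk | rfl | rfl
    · rw [tRel_pp α β hxk hak] at hxa
      rw [tRel_pu α β hxk] at hxb
      rcases hxa with h | h
      · refine ⟨x + 2, by omega, ?_, ?_⟩
        · rw [tRel_pp α β (by omega) hak, tRel_pu α β (by omega)]; omega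
        · rw [tRel_pp α β hxk (by omega)]; omega
      · refine ⟨x - 2, by omega, ?_, ?_⟩
        · rw [tRel_pp α β (by omega) hak, tRel_pu α β (by omega)]; omega
        · rw [tRel_pp α β hxk (by omega)]; omega
    · exact absurd hxb (tRel_uu α β)
    · rw [tRel_comm] at hxb
      exact absurd hxb (tRel_uu' α β)
  · rcases (by omega : a ≤ k ∨ a = k + 1) with hak | rfl
    · rcases (by omega : x ≤ k ∨ x = k + 1 ∨ x = k + 2) with hxk | rfl | rfl
      · rw [tRel_pp α β hxk hak] at hxa
        rw [tRel_pu' α β hxk] at hxb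
        rcases hxa with h | h
        · refine ⟨x + 2, by omega, ?_, ?_⟩
          · rw [tRel_pp α β (by omega) hak, tRel_pu' α β (by omega)]; omega
          · rw [tRel_pp α β hxk (by omega)]; omega
        · refine ⟨x - 2, by omega, ?_, ?_⟩
          · rw [tRel_pp α β (by omega) hak, tRel_pu' α β (by omega)]; omega
          · rw [tRel_pp α β hxk (by omega)]; omega
      · exact absurd hxb (tRel_uu' α β)
      · exact absurd hxb (tRel_u'u' α β)
    · rcases (by omega : x ≤ k ∨ x = k + 1 ∨ x = k + 2) with hxk | rfl | rfl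
      · rw [tRel_pu α β hxk] at hxa
        rw [tRel_pu' α β hxk] at hxb
        omega
      · exact absurd hxb (tRel_uu' α β)
      · exact absurd hxb (tRel_u'u' α β)

theorem t_closed (α β : Bool) {k : ℕ} (hk : 12 ≤ k) (S : Set (Fin (k + 3))) (hne : S.Nonempty)
    (h : ∀ a ∈ S, ∀ b, (tGraph α β k).Adj b a → b ∈ S) : S = Set.univ := by
  -- a path vertex in `S`
  have hpath : ∃ m, ∃ hm : m ≤ k, (⟨m, by omega⟩ : Fin (k + 3)) ∈ S := by
    obtain ⟨⟨m, hm⟩, hmS⟩ := hne
    rcases (by omega : m ≤ k ∨ m = k + 1 ∨ m = k + 2) with h1 | rfl | rfl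
    · exact ⟨m, h1, hmS⟩
    · refine ⟨2, by omega, h _ hmS _ ?_⟩
      rw [tGraph_adj, tRel_pu α β (by simp; omega)]
      exact Or.inl rfl
    · refine ⟨k - 2, by omega, h _ hmS _ ?_⟩
      rw [tGraph_adj, tRel_pu' α β (by simp)]
      simp only
      omega
  obtain ⟨m, hm, hmS⟩ := hpath
  have hdown : ∀ n, n ≤ m → (⟨m - n, by omega⟩ : Fin (k + 3)) ∈ S := by
    intro n
    induction n with
    | zero => intro _; exact hmS
    | succ n ih =>
      intro hn
      refine h _ (ih (by omega)) _ ?_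
      rw [tGraph_adj, tRel_pp α β (by simp only; omega) (by simp only; omega)]
      simp only
      omega
  have hup : ∀ n, ∀ hn : m + n ≤ k, (⟨m + n, by omega⟩ : Fin (k + 3)) ∈ S := by
    intro n
    induction n with
    | zero => intro _; exact hmS
    | succ n ih =>
      intro hn
      refine h _ (ih (by omega)) _ ?_
      rw [tGraph_adj, tRel_pp α β (by simp only; omega) (by simp only; omega)]
      simp only
      omega
  have hall : ∀ n, ∀ hn : n ≤ k, (⟨n, by omega⟩ : Fin (k + 3)) ∈ S := by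
    intro n hn
    rcases le_total n m with h1 | h1
    · have := hdown (m - n) (by omega)
      convert this using 2
      omega
    · have := hup (n - m) (by omega)
      convert this using 2
      omega
  ext ⟨x, hx⟩
  simp only [Set.mem_univ, iff_true]
  rcases (by omega : x ≤ k ∨ x = k + 1 ∨ x = k + 2) with h1 | rfl | rfl
  · exact hall x h1
  · refine h _ (hall 2 (by omega)) _ ?_
    rw [tGraph_adj, tRel_comm, tRel_pu α β (by simp; omega)]
    exact Or.inl rfl
  · refine h _ (hall (k - 2) (by omega)) _ ?_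
    rw [tGraph_adj, tRel_comm, tRel_pu' α β (by simp)]
    simp only
    omega

theorem t_prime (α β : Bool) {k : ℕ} (hk : 12 ≤ k) : IsPrimeGraph (tGraph α β k) := by
  intro M hM hnt
  refine t_closed α β hk M hnt.nonempty ?_
  intro a ha x hxa
  by_contra hxM
  obtain ⟨b, hb, hba⟩ := hnt.exists_ne a
  have hxb : (tGraph α β k).Adj x b := (hM x hxM a ha b hb).1 hxa
  have hne : b.val ≠ a.val := fun e => hba (Fin.ext e)
  have key : ∃ y < k + 3, ¬ (tRel α β k y a ↔ tRel α β k y b) ∧ ¬ tRel α β k x y := by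
    rcases Nat.lt_or_gt_of_ne hne with h1 | h1
    · obtain ⟨y, hy, h2, h3⟩ := t_key α β hk a.isLt x.isLt h1 hxb hxa
      exact ⟨y, hy, fun h => h2 h.symm, h3⟩
    · exact t_key α β hk b.isLt x.isLt h1 hxa hxb
  obtain ⟨y, hy, h2, h3⟩ := key
  have hyM : (⟨y, hy⟩ : Fin (k + 3)) ∈ M := by
    by_contra hyM
    exact h2 (hM _ hyM a ha b hb)
  exact h3 ((hM x hxM a ha _ hyM).1 hxa)

/-! ### The antichain property of `T` -/

theorem nbr_mid (α β : Bool) {k m y : ℕ} (hm : m ≤ k) (h2 : m ≠ 2) (h3 : m ≠ 3)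
    (h2' : m + 2 ≠ k) (h3' : m + 3 ≠ k) (h : tRel α β k m y) : y = m + 1 ∨ m = y + 1 := by
  unfold tRel tHalf at h
  omega

theorem nbr_u (α β : Bool) {k y : ℕ} (h : tRel α β k (k + 1) y) :
    y = 2 ∨ (α = true ∧ y = 3) := by
  unfold tRel tHalf at h
  cases α <;> simp at * <;> omega

theorem nbr_u' (α β : Bool) {k y : ℕ} (h : tRel α β k (k + 2) y) :
    y + 2 = k ∨ (β = true ∧ y + 3 = k) := by
  unfold tRel tHalf at h
  cases β <;> simp at * <;> omega

theorem nbr_two (α β : Bool) {k y : ℕ} (hk : 12 ≤ k) (h : tRel α β k 2 y) :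
    y = 1 ∨ y = 3 ∨ y = k + 1 := by
  unfold tRel tHalf at h
  omega

theorem nbr_three (α β : Bool) {k y : ℕ} (hk : 12 ≤ k) (h : tRel α β k 3 y) :
    y = 2 ∨ y = 4 ∨ y = k + 1 := by
  unfold tRel tHalf at h
  omega

theorem nbr_right (α β : Bool) {k y : ℕ} (hk : 12 ≤ k) (h : tRel α β k (k - 3) y) :
    y + 4 = k ∨ y + 2 = k ∨ y = k + 2 := by
  unfold tRel tHalf at h
  omega

/-- the tracing argument: `g` describes an embedding `T(k, α, β) → T(k', α', β')` mapping the vertex
`2` to the left end of the target -/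
theorem t_trace (α β α' β' : Bool) {k k' : ℕ} (hk : 12 ≤ k) (hkk : k < k') (g : ℕ → ℕ)
    (hinj : ∀ i < k + 3, ∀ j < k + 3, g i = g j → i = j)
    (hadj : ∀ i < k + 3, ∀ j < k + 3, (tRel α β k i j ↔ tRel α' β' k' (g i) (g j)))
    (h2 : g 2 = 2 ∨ g 2 = 3) : False := by
  -- basic adjacencies
  have pp : ∀ i j, i ≤ k → j ≤ k → j = i + 1 ∨ i = j + 1 → tRel α' β' k' (g i) (g j) := by
    intro i j hi hj hij
    exact (hadj i (by omega) j (by omega)).1 ((tRel_pp α β hi hj).2 hij)
  have a21 := pp 2 1 (by omega) (by omega) (by omega)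
  have a23 := pp 2 3 (by omega) (by omega) (by omega)
  have a2u : tRel α' β' k' (g 2) (g (k + 1)) :=
    (hadj 2 (by omega) (k + 1) (by omega)).1 ((tRel_pu α β (by omega)).2 (Or.inl rfl))
  have a34 := pp 3 4 (by omega) (by omega) (by omega)
  have a45 := pp 4 5 (by omega) (by omega) (by omega)
  have a56 := pp 5 6 (by omega) (by omega) (by omega)
  have n13 : ¬ tRel α' β' k' (g 1) (g 3) := by
    rw [← hadj 1 (by omega) 3 (by omega), tRel_pp α β (by omega) (by omega)]
    omega
  have n1u : ¬ tRel α' β' k' (g 1) (g (k + 1)) := by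
    rw [← hadj 1 (by omega) (k + 1) (by omega), tRel_pu α β (by omega)]
    omega
  have d13 : g 1 ≠ g 3 := fun e => by have := hinj _ (by omega) _ (by omega) e; omega
  have d1u : g 1 ≠ g (k + 1) := fun e => by have := hinj _ (by omega) _ (by omega) e; omega
  have d3u : g 3 ≠ g (k + 1) := fun e => by have := hinj _ (by omega) _ (by omega) e; omega
  have d24 : g 2 ≠ g 4 := fun e => by have := hinj _ (by omega) _ (by omega) e; omega
  have d14 : g 1 ≠ g 4 := fun e => by have := hinj _ (by omega) _ (by omega) e; omega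
  have d4u : g 4 ≠ g (k + 1) := fun e => by have := hinj _ (by omega) _ (by omega) e; omega
  have d35 : g 3 ≠ g 5 := fun e => by have := hinj _ (by omega) _ (by omega) e; omega
  have d46 : g 4 ≠ g 6 := fun e => by have := hinj _ (by omega) _ (by omega) e; omega
  have hstart : g 3 = 3 ∧ g 4 = 4 := by
    rcases h2 with h2 | h2
    · rw [h2] at a21 a23 a2u d24
      have b1 := nbr_two α' β' (by omega) a21
      have b3 := nbr_two α' β' (by omega) a23
      have bu := nbr_two α' β' (by omega) a2u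
      rcases b3 with b3 | b3 | b3
      · exfalso
        rw [b3] at a34
        have b4 := nbr_mid α' β' (by omega) (by omega) (by omega) (by omega) (by omega) a34
        have h4 : g 4 = 0 := by omega
        rw [h4] at a45
        have b5 := nbr_mid α' β' (by omega) (by omega) (by omega) (by omega) (by omega) a45
        omega
      · refine ⟨b3, ?_⟩
        rw [b3] at a34
        have b4 := nbr_three α' β' (by omega) a34
        omega
      · exfalso
        rw [b3] at a34
        have b4 := nbr_u α' β' a34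
        omega
    · exfalso
      rw [h2] at a21 a23 a2u d24
      have b1 := nbr_three α' β' (by omega) a21
      have b3 := nbr_three α' β' (by omega) a23
      have bu := nbr_three α' β' (by omega) a2u
      have t2u : tRel α' β' k' 2 (k' + 1) := (tRel_pu α' β' (by omega)).2 (Or.inl rfl)
      have g1 : g 1 = 4 := by
        rcases b1 with b1 | b1 | b1
        · exfalso
          rcases b3 with b3 | b3 | b3
          · omega
          · have : g (k + 1) = k' + 1 := by omega
            rw [b1, this] at n1u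
            exact n1u t2u
          · rw [b1, b3] at n13
            exact n13 t2u
        · exact b1
        · exfalso
          rcases b3 with b3 | b3 | b3
          · rw [b1, b3, tRel_comm] at n13
            exact n13 t2u
          · have : g (k + 1) = 2 := by omega
            rw [b1, this, tRel_comm] at n1u
            exact n1u t2u
          · omega
      rcases b3 with b3 | b3 | b3
      · rw [b3] at a34
        have b4 := nbr_two α' β' (by omega) a34
        have h4 : g 4 = 1 := by omega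
        rw [h4] at a45
        have b5 := nbr_mid α' β' (by omega) (by omega) (by omega) (by omega) (by omega) a45
        have h5 : g 5 = 0 := by omega
        rw [h5] at a56
        have b6 := nbr_mid α' β' (by omega) (by omega) (by omega) (by omega) (by omega) a56
        omega
      · omega
      · rw [b3] at a34
        have b4 := nbr_u α' β' a34
        omega
  -- trace along the path
  have htrace : ∀ i, i + 4 ≤ k → i + 4 + 3 ≤ k' → g (i + 3) = i + 3 ∧ g (i + 4) = i + 4 := by
    intro i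
    induction i with
    | zero => intro _ _; exact hstart
    | succ i ih =>
      intro h1 h3
      obtain ⟨e1, e2⟩ := ih (by omega) (by omega)
      refine ⟨by rw [show i + 1 + 3 = i + 4 by ring]; exact e2, ?_⟩
      have a := pp (i + 4) (i + 1 + 4) (by omega) (by omega) (by omega)
      rw [e2] at a
      have b := nbr_mid α' β' (by omega) (by omega) (by omega) (by omega) (by omega) a
      have d : g (i + 3) ≠ g (i + 1 + 4) := fun e => by
        have := hinj _ (by omega) _ (by omega) e; omega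
      omega
  obtain ⟨e1, e2⟩ := htrace (k - 2 - 4) (by omega) (by omega)
  rw [show k - 2 - 4 + 3 = k - 3 by omega] at e1
  rw [show k - 2 - 4 + 4 = k - 2 by omega] at e2
  have c1 := pp (k - 2) (k - 3) (by omega) (by omega) (by omega)
  have c2 := pp (k - 2) (k - 1) (by omega) (by omega) (by omega)
  have c3 : tRel α' β' k' (g (k - 2)) (g (k + 2)) :=
    (hadj (k - 2) (by omega) (k + 2) (by omega)).1
      ((tRel_pu' α β (by omega)).2 (Or.inl (by omega)))
  have n : ¬ tRel α' β' k' (g (k - 1)) (g (k + 2)) := by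
    rw [← hadj (k - 1) (by omega) (k + 2) (by omega), tRel_pu' α β (by omega)]
    omega
  have f1 : g (k - 3) ≠ g (k - 1) := fun e => by have := hinj _ (by omega) _ (by omega) e; omega
  have f2 : g (k - 3) ≠ g (k + 2) := fun e => by have := hinj _ (by omega) _ (by omega) e; omega
  have f3 : g (k - 1) ≠ g (k + 2) := fun e => by have := hinj _ (by omega) _ (by omega) e; omega
  rw [e2] at c1 c2 c3
  rcases (by omega : k + 1 < k' ∨ k + 1 = k') with hc | hc
  · have m2 := nbr_mid α' β' (by omega) (by omega) (by omega) (by omega) (by omega) c2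
    have m3 := nbr_mid α' β' (by omega) (by omega) (by omega) (by omega) (by omega) c3
    omega
  · rw [show k - 2 = k' - 3 by omega] at c2 c3
    have m2 := nbr_right α' β' (by omega) c2
    have m3 := nbr_right α' β' (by omega) c3
    have t2u : tRel α' β' k' (k' - 2) (k' + 2) :=
      (tRel_pu' α' β' (by omega)).2 (Or.inl (by omega))
    rcases m2 with m2 | m2 | m2
    · omega
    · have e3 : g (k + 2) = k' + 2 := by omega
      rw [show g (k - 1) = k' - 2 by omega, e3] at n
      exact n t2u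
    · have e3 : g (k + 2) = k' - 2 := by omega
      rw [m2, e3, tRel_comm] at n
      exact n t2u

/-- reversal of `T(k, α, β)` -/
def tRev (k y : ℕ) : ℕ := if y ≤ k then k - y else if y = k + 1 then k + 2 else k + 1

theorem tRev_inj {k x y : ℕ} (hx : x < k + 3) (hy : y < k + 3) (h : tRev k x = tRev k y) :
    x = y := by
  unfold tRev at h
  split_ifs at h <;> omega

theorem tRev_rel (α β : Bool) {k x y : ℕ} (hx : x < k + 3) (hy : y < k + 3) :
    tRel β α k (tRev k x) (tRev k y) ↔ tRel α β k x y := by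
  rcases (by omega : x ≤ k ∨ x = k + 1 ∨ x = k + 2) with h1 | h1 | h1 <;>
  rcases (by omega : y ≤ k ∨ y = k + 1 ∨ y = k + 2) with h2 | h2 | h2
  · rw [tRel_pp α β h1 h2]
    have e1 : tRev k x = k - x := by unfold tRev; rw [if_pos h1]
    have e2 : tRev k y = k - y := by unfold tRev; rw [if_pos h2]
    rw [e1, e2, tRel_pp β α (by omega) (by omega)]
    omega
  · subst h2
    rw [tRel_pu α β h1]
    have e1 : tRev k x = k - x := by unfold tRev; rw [if_pos h1]
    have e2 : tRev k (k + 1) = k + 2 := by unfold tRev; simp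
    rw [e1, e2, tRel_pu' β α (by omega)]
    cases α <;> simp <;> omega
  · subst h2
    rw [tRel_pu' α β h1]
    have e1 : tRev k x = k - x := by unfold tRev; rw [if_pos h1]
    have e2 : tRev k (k + 2) = k + 1 := by unfold tRev; simp
    rw [e1, e2, tRel_pu β α (by omega)]
    cases β <;> simp <;> omega
  · subst h1
    rw [tRel_comm, tRel_comm α β, tRel_pu α β h2]
    have e1 : tRev k y = k - y := by unfold tRev; rw [if_pos h2]
    have e2 : tRev k (k + 1) = k + 2 := by unfold tRev; simp
    rw [e1, e2, tRel_pu' β α (by omega)]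
    cases α <;> simp <;> omega
  · subst h1 h2
    have e2 : tRev k (k + 1) = k + 2 := by unfold tRev; simp
    rw [e2]
    exact iff_of_false (tRel_u'u' β α) (tRel_uu α β)
  · subst h1 h2
    have e1 : tRev k (k + 1) = k + 2 := by unfold tRev; simp
    have e2 : tRev k (k + 2) = k + 1 := by unfold tRev; simp
    rw [e1, e2, tRel_comm]
    exact iff_of_false (tRel_uu' β α) (tRel_uu' α β)
  · subst h1
    rw [tRel_comm, tRel_comm α β, tRel_pu' α β h2]
    have e1 : tRev k y = k - y := by unfold tRev; rw [if_pos h2]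
    have e2 : tRev k (k + 2) = k + 1 := by unfold tRev; simp
    rw [e1, e2, tRel_pu β α (by omega)]
    cases β <;> simp <;> omega
  · subst h1 h2
    have e1 : tRev k (k + 1) = k + 2 := by unfold tRev; simp
    have e2 : tRev k (k + 2) = k + 1 := by unfold tRev; simp
    rw [e1, e2, tRel_comm α β]
    exact iff_of_false (tRel_uu' β α) (tRel_uu' α β)
  · subst h1 h2
    have e2 : tRev k (k + 2) = k + 1 := by unfold tRev; simp
    rw [e2]
    exact iff_of_false (tRel_uu β α) (tRel_u'u' α β)

theorem t_antichain (α β : Bool) {k k' : ℕ} (hk : 12 ≤ k) (hkk : k < k') :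
    ¬ Nonempty (tGraph α β k ↪g tGraph α β k') := by
  rintro ⟨f⟩
  let g : ℕ → ℕ := fun i => if h : i < k + 3 then (f ⟨i, h⟩).val else 0
  have hg : ∀ i, ∀ h : i < k + 3, g i = (f ⟨i, h⟩).val := fun i h => by simp only [g, dif_pos h]
  have hlt : ∀ i < k + 3, g i < k' + 3 := fun i h => by rw [hg i h]; exact (f _).isLt
  have hinj : ∀ i < k + 3, ∀ j < k + 3, g i = g j → i = j := by
    intro i hi j hj e
    rw [hg i hi, hg j hj] at e
    exact congrArg Fin.val (f.injective (Fin.ext e))
  have hadj : ∀ i < k + 3, ∀ j < k + 3, (tRel α β k i j ↔ tRel α β k' (g i) (g j)) := by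
    intro i hi j hj
    rw [hg i hi, hg j hj]
    exact (f.map_adj_iff (v := ⟨i, hi⟩) (w := ⟨j, hj⟩)).symm
  -- position of `g 2`
  have a21 : tRel α β k' (g 2) (g 1) :=
    (hadj 2 (by omega) 1 (by omega)).1 ((tRel_pp α β (by omega) (by omega)).2 (by omega))
  have a23 : tRel α β k' (g 2) (g 3) :=
    (hadj 2 (by omega) 3 (by omega)).1 ((tRel_pp α β (by omega) (by omega)).2 (by omega))
  have a2u : tRel α β k' (g 2) (g (k + 1)) :=
    (hadj 2 (by omega) (k + 1) (by omega)).1 ((tRel_pu α β (by omega)).2 (Or.inl rfl))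
  have d13 : g 1 ≠ g 3 := fun e => by have := hinj _ (by omega) _ (by omega) e; omega
  have d1u : g 1 ≠ g (k + 1) := fun e => by have := hinj _ (by omega) _ (by omega) e; omega
  have d3u : g 3 ≠ g (k + 1) := fun e => by have := hinj _ (by omega) _ (by omega) e; omega
  have hl2 := hlt 2 (by omega)
  have hpos : g 2 = 2 ∨ g 2 = 3 ∨ g 2 + 2 = k' ∨ g 2 + 3 = k' := by
    by_contra hcon
    push Not at hcon
    obtain ⟨c1, c2, c3, c4⟩ := hcon
    rcases (by omega : g 2 ≤ k' ∨ g 2 = k' + 1 ∨ g 2 = k' + 2) with h | h | h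
    · have b1 := nbr_mid α β h c1 c2 c3 c4 a21
      have b2 := nbr_mid α β h c1 c2 c3 c4 a23
      have b3 := nbr_mid α β h c1 c2 c3 c4 a2u
      omega
    · rw [h] at a21 a23 a2u
      have b1 := nbr_u α β a21
      have b2 := nbr_u α β a23
      have b3 := nbr_u α β a2u
      omega
    · rw [h] at a21 a23 a2u
      have b1 := nbr_u' α β a21
      have b2 := nbr_u' α β a23
      have b3 := nbr_u' α β a2u
      omega
  rcases (by omega : (g 2 = 2 ∨ g 2 = 3) ∨ (g 2 ≤ k' ∧ (g 2 + 2 = k' ∨ g 2 + 3 = k'))) with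
    h | ⟨hle, h⟩
  · exact t_trace α β α β hk hkk g hinj hadj h
  · refine t_trace α β β α hk hkk (fun i => tRev k' (g i)) ?_ ?_ ?_
    · intro i hi j hj e
      exact hinj i hi j hj (tRev_inj (hlt i hi) (hlt j hj) e)
    · intro i hi j hj
      rw [hadj i hi j hj]
      exact (tRev_rel α β (hlt i hi) (hlt j hj)).symm
    · have : tRev k' (g 2) = k' - g 2 := by unfold tRev; rw [if_pos hle]
      simp only [this]
      omega

/-! ### Patterns inside graphs -/

theorem cyc_embeds {V : Type} (G : SimpleGraph V) {j : ℕ} (hj : 5 ≤ j) (h : HasHole G j) :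
    Nonempty (cyc j ↪g G) := by
  obtain ⟨c, hc⟩ := h
  refine ⟨⟨⟨fun i => c i.val, ?_⟩, ?_⟩⟩
  · intro a b e
    exact Fin.ext ((hc a a.isLt b b.isLt).1 e)
  · intro a b
    change G.Adj (c a) (c b) ↔ cycRel j a b
    rw [(hc a a.isLt b b.isLt).2]
    unfold cycRel
    have := a.isLt
    have := b.isLt
    omega

theorem t_embeds {V : Type} (G : SimpleGraph V) {k : ℕ} (α β : Bool)
    (h : HasT G k α β) : Nonempty (tGraph α β k ↪g G) := by
  obtain ⟨p, u, u', hp, huu, hnadj, hne, hu, hu'⟩ := h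
  let F : ℕ → V := fun i => if i ≤ k then p i else if i = k + 1 then u else u'
  have F1 : ∀ i ≤ k, F i = p i := fun i hi => by simp only [F, if_pos hi]
  have F2 : F (k + 1) = u := by simp [F]
  have F3 : F (k + 2) = u' := by simp [F]
  have hinj : ∀ x y, x < k + 3 → y < k + 3 → F x = F y → x = y := by
    intro x y hx hy e
    rcases (by omega : x ≤ k ∨ x = k + 1 ∨ x = k + 2) with h1 | rfl | rfl <;>
    rcases (by omega : y ≤ k ∨ y = k + 1 ∨ y = k + 2) with h2 | rfl | rfl
    · rw [F1 x h1, F1 y h2] at e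
      exact (hp x h1 y h2).1 e
    · rw [F1 x h1, F2] at e
      exact absurd e (hne x h1).1
    · rw [F1 x h1, F3] at e
      exact absurd e (hne x h1).2
    · rw [F1 y h2, F2] at e
      exact absurd e.symm (hne y h2).1
    · rfl
    · rw [F2, F3] at e
      exact absurd e huu
    · rw [F1 y h2, F3] at e
      exact absurd e.symm (hne y h2).2
    · rw [F2, F3] at e
      exact absurd e.symm huu
    · rfl
  have hadj : ∀ x y, x < k + 3 → y < k + 3 → (G.Adj (F x) (F y) ↔ tRel α β k x y) := by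
    intro x y hx hy
    rcases (by omega : x ≤ k ∨ x = k + 1 ∨ x = k + 2) with h1 | rfl | rfl <;>
    rcases (by omega : y ≤ k ∨ y = k + 1 ∨ y = k + 2) with h2 | rfl | rfl
    · rw [F1 x h1, F1 y h2, (hp x h1 y h2).2, tRel_pp α β h1 h2]
    · rw [F1 x h1, F2, tRel_pu α β h1, G.adj_comm, hu x h1]
    · rw [F1 x h1, F3, tRel_pu' α β h1, G.adj_comm, hu' x h1]
    · rw [F1 y h2, F2, tRel_comm, tRel_pu α β h2, hu y h2]
    · exact iff_of_false (by rw [F2]; exact G.irrefl) (tRel_uu α β)
    · rw [F2, F3]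
      exact iff_of_false hnadj (tRel_uu' α β)
    · rw [F1 y h2, F3, tRel_comm, tRel_pu' α β h2, hu' y h2]
    · rw [F2, F3, G.adj_comm, tRel_comm]
      exact iff_of_false hnadj (tRel_uu' α β)
    · exact iff_of_false (by rw [F3]; exact G.irrefl) (tRel_u'u' α β)
  refine ⟨⟨⟨fun i => F i.val, ?_⟩, ?_⟩⟩
  · intro a b e
    exact Fin.ext (hinj a b a.isLt b.isLt e)
  · intro a b
    exact hadj a b a.isLt b.isLt

/-- The cycle with `j` vertices and the graphs `T(k, α, β)` as graphs on `Fin n`. -/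
theorem patterns_exist :
    ∃ (cyc : ∀ j : ℕ, SimpleGraph (Fin j)) (T : ∀ (_α _β : Bool) (k : ℕ), SimpleGraph (Fin (k + 3))),
      (∀ j, 5 ≤ j → IsPrimeGraph (cyc j) ∧ IsPrimeGraph (cyc j)ᶜ) ∧
      (∀ j j', 5 ≤ j → j < j' → ¬ Nonempty (cyc j ↪g cyc j')) ∧
      (∀ α β k, 12 ≤ k → IsPrimeGraph (T α β k) ∧ IsPrimeGraph (T α β k)ᶜ) ∧
      (∀ α β k k', 12 ≤ k → k < k' → ¬ Nonempty (T α β k ↪g T α β k')) ∧
      (∀ (V : Type) (G : SimpleGraph V) (j : ℕ), 5 ≤ j → HasHole G j → Nonempty (cyc j ↪g G)) ∧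
      (∀ (V : Type) (G : SimpleGraph V) (k : ℕ) (α β : Bool), 12 ≤ k → HasT G k α β →
        Nonempty (T α β k ↪g G)) := by
  refine ⟨cyc, tGraph, ?_, ?_, ?_, ?_, ?_, ?_⟩
  · exact fun j hj => ⟨cyc_prime hj, (cyc_prime hj).compl⟩
  · exact fun j j' hj hjj => cyc_antichain hj hjj
  · exact fun α β k hk => ⟨t_prime α β hk, (t_prime α β hk).compl⟩
  · exact fun α β k k' hk hkk => t_antichain α β hk hkk
  · exact fun V G j hj h => cyc_embeds G hj h
  · exact fun V G k α β _ h => t_embeds G α β h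

end Pool.Agent.Lib.MP_18a3c4_co
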