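import Pool.Agent.Lib.MP_18a3c4_co.Tools

/-!
JOB R: Rödl's theorem in measure form, by the Fox–Sudakov doubling argument.
-/

namespace Pool.Agent.Lib.MP_18a3c4_co

open Finset

namespace Rodl

open Classical in
/-- Weighted number of ordered edges. -/
noncomputable def eSum {V : Type} [Fintype V] (G : SimpleGraph V) (μ : V → ℝ) : ℝ :=
  ∑ x, ∑ y, (if G.Adj x y then μ x * μ y else 0)

open Classical in
/-- Embedding one vertex at a time, or a sparse/dense pair. -/
theorem embed_or_pair (η : ℝ) (hη : 0 < η) (hη1 : η ≤ 1) (k : ℕ) (X : SimpleGraph (Fin k)) :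
    ∃ δ : ℝ, 0 < δ ∧ δ ≤ 1 ∧ ∀ (V : Type) [Fintype V] (G : SimpleGraph V) (C : Fin k → Finset V),
      (∀ i, (C i).Nonempty) → (∀ i j, i ≠ j → Disjoint (C i) (C j)) →
      (∃ f : Fin k → V, (∀ i, f i ∈ C i) ∧ ∀ i j, i ≠ j → (G.Adj (f i) (f j) ↔ X.Adj i j)) ∨
      (∃ i j, i ≠ j ∧ ∃ A B : Finset V, A ⊆ C i ∧ B ⊆ C j ∧ A.Nonempty ∧ B.Nonempty ∧
        δ * (C i).card ≤ A.card ∧ δ * (C j).card ≤ B.card ∧
        ((∀ a ∈ A, ((B.filter (fun b => G.Adj a b)).card : ℝ) ≤ η * B.card) ∨
         (∀ a ∈ A, ((B.filter (fun b => ¬ G.Adj a b)).card : ℝ) ≤ η * B.card))) := by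
  induction k with
  | zero =>
    exact ⟨1, one_pos, le_refl _, fun V _ G C _ _ =>
      Or.inl ⟨fun i => i.elim0, fun i => i.elim0, fun i => i.elim0⟩⟩
  | succ k ih =>
    obtain ⟨δ, hδ, hδ1, h⟩ := ih (X.comap Fin.succ)
    have hk1 : (0 : ℝ) < (k : ℝ) + 1 := by positivity
    refine ⟨min (δ * η) (1 / (k + 1)), ?_, ?_, ?_⟩
    · exact lt_min (mul_pos hδ hη) (by positivity)
    · exact (min_le_left _ _).trans (by nlinarith)
    intro V _ G C hne hdisj
    by_cases hgood : ∃ x ∈ C 0, ∀ j : Fin k, η * (C j.succ).card <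
        (((C j.succ).filter (fun y => (G.Adj x y ↔ X.Adj 0 j.succ))).card : ℝ)
    · obtain ⟨x, hx, hxg⟩ := hgood
      set C' : Fin k → Finset V :=
        fun j => (C j.succ).filter (fun y => (G.Adj x y ↔ X.Adj 0 j.succ)) with hC'
      have hC'ne : ∀ i, (C' i).Nonempty := by
        intro i
        have h1 := hxg i
        have h2 : (0 : ℝ) < ((C' i).card : ℝ) :=
          lt_of_le_of_lt (by positivity) h1
        exact Finset.card_pos.1 (by exact_mod_cast h2)
      have hC'sub : ∀ i, C' i ⊆ C i.succ := fun i => Finset.filter_subset _ _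
      have hC'disj : ∀ i j, i ≠ j → Disjoint (C' i) (C' j) := by
        intro i j hij
        exact Finset.disjoint_of_subset_left (hC'sub i)
          (Finset.disjoint_of_subset_right (hC'sub j)
            (hdisj _ _ (fun h => hij (Fin.succ_injective _ h))))
      rcases h V G C' hC'ne hC'disj with ⟨f, hf, hfa⟩ | ⟨i, j, hij, A, B, hA, hB, hAn, hBn, hAc, hBc, hs⟩
      · left
        refine ⟨Fin.cons x f, ?_, ?_⟩
        · intro i
          refine Fin.cases ?_ ?_ i
          · simpa using hx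
          · intro i
            simpa using hC'sub i (hf i)
        · intro i j
          refine Fin.cases ?_ ?_ i
          · refine Fin.cases ?_ ?_ j
            · intro h; exact absurd rfl h
            · intro j _
              have := (Finset.mem_filter.1 (hf j)).2
              simpa using this
          · intro i
            refine Fin.cases ?_ ?_ j
            · intro _
              have := (Finset.mem_filter.1 (hf i)).2
              simp only [Fin.cons_succ, Fin.cons_zero]
              rw [G.adj_comm, X.adj_comm]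
              exact this
            · intro j hij
              have := hfa i j (fun h => hij (by rw [h]))
              simpa using this
      · right
        refine ⟨i.succ, j.succ, fun h => hij (Fin.succ_injective _ h), A, B,
          hA.trans (hC'sub i), hB.trans (hC'sub j), hAn, hBn, ?_, ?_, hs⟩
        · calc min (δ * η) (1 / (k + 1)) * ((C i.succ).card : ℝ)
              ≤ δ * η * ((C i.succ).card : ℝ) :=
                mul_le_mul_of_nonneg_right (min_le_left _ _) (by positivity)
            _ = δ * (η * ((C i.succ).card : ℝ)) := by ring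
            _ ≤ δ * ((C' i).card : ℝ) := mul_le_mul_of_nonneg_left (hxg i).le hδ.le
            _ ≤ A.card := hAc
        · calc min (δ * η) (1 / (k + 1)) * ((C j.succ).card : ℝ)
              ≤ δ * η * ((C j.succ).card : ℝ) :=
                mul_le_mul_of_nonneg_right (min_le_left _ _) (by positivity)
            _ = δ * (η * ((C j.succ).card : ℝ)) := by ring
            _ ≤ δ * ((C' j).card : ℝ) := mul_le_mul_of_nonneg_left (hxg j).le hδ.le
            _ ≤ B.card := hBc
    · right
      push Not at hgood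
      obtain ⟨x₀, hx₀⟩ := hne 0
      obtain ⟨j₀, -⟩ := hgood x₀ hx₀
      have hkpos : 0 < k := lt_of_le_of_lt (Nat.zero_le _) j₀.2
      have hkR : (0 : ℝ) < k := by exact_mod_cast hkpos
      have : Nonempty (Fin k) := ⟨j₀⟩
      choose! J hJ using hgood
      have hcard : (Finset.univ : Finset (Fin k)).card • (((C 0).card : ℝ) / k) ≤
          ((C 0).card : ℝ) := by
        rw [Finset.card_fin, nsmul_eq_mul]
        rw [mul_div_cancel₀ _ hkR.ne']
      obtain ⟨j, -, hj⟩ := Finset.exists_le_card_fiber_of_nsmul_le_card_of_maps_to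
        (s := C 0) (t := (Finset.univ : Finset (Fin k))) (f := J)
        (fun a _ => Finset.mem_univ _) ⟨j₀, Finset.mem_univ _⟩ hcard
      set A := (C 0).filter (fun x => J x = j) with hA
      have hC0 : (0 : ℝ) < ((C 0).card : ℝ) := by
        exact_mod_cast Finset.card_pos.2 ⟨x₀, hx₀⟩
      have hApos : (0 : ℝ) < (A.card : ℝ) := lt_of_lt_of_le (by positivity) hj
      refine ⟨0, j.succ, (Fin.succ_ne_zero j).symm, A, C j.succ, Finset.filter_subset _ _,
        subset_rfl, Finset.card_pos.1 (by exact_mod_cast hApos), hne _, ?_, ?_, ?_⟩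
      · calc min (δ * η) (1 / (k + 1)) * ((C 0).card : ℝ)
            ≤ 1 / (k + 1) * ((C 0).card : ℝ) :=
              mul_le_mul_of_nonneg_right (min_le_right _ _) (by positivity)
          _ = ((C 0).card : ℝ) / (k + 1) := by ring
          _ ≤ ((C 0).card : ℝ) / k := by
              apply div_le_div_of_nonneg_left hC0.le hkR (by linarith)
          _ ≤ A.card := hj
      · have : min (δ * η) (1 / ((k : ℝ) + 1)) ≤ 1 := (min_le_left _ _).trans (by nlinarith)
        calc min (δ * η) (1 / ((k : ℝ) + 1)) * ((C j.succ).card : ℝ)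
            ≤ 1 * ((C j.succ).card : ℝ) := mul_le_mul_of_nonneg_right this (by positivity)
          _ = _ := one_mul _
      · by_cases hX : X.Adj 0 j.succ
        · left
          intro a ha
          have h1 := hJ a (Finset.mem_filter.1 ha).1
          rw [(Finset.mem_filter.1 ha).2] at h1
          simpa [hX] using h1
        · right
          intro a ha
          have h1 := hJ a (Finset.mem_filter.1 ha).1
          rw [(Finset.mem_filter.1 ha).2] at h1
          simpa [hX] using h1

theorem exists_split {V : Type} [DecidableEq V] (m : ℕ) : ∀ (k : ℕ) (W : Finset V),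
    k * m ≤ W.card → ∃ C : Fin k → Finset V, (∀ i, C i ⊆ W) ∧ (∀ i, (C i).card = m) ∧
      ∀ i j, i ≠ j → Disjoint (C i) (C j) := by
  intro k
  induction k with
  | zero => exact fun W _ => ⟨fun i => i.elim0, fun i => i.elim0, fun i => i.elim0, fun i => i.elim0⟩
  | succ k ih =>
    intro W hW
    have h1 : m ≤ W.card := le_trans (by nlinarith) hW
    obtain ⟨S, hS, hSc⟩ := Finset.exists_subset_card_eq h1
    have h2 : k * m ≤ (W \ S).card := by
      rw [Finset.card_sdiff_of_subset hS, hSc]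
      have : (k + 1) * m = k * m + m := by ring
      omega
    obtain ⟨C, hC, hCc, hCd⟩ := ih (W \ S) h2
    refine ⟨Fin.cons S C, ?_, ?_, ?_⟩
    · intro i
      refine Fin.cases ?_ ?_ i
      · simpa using hS
      · intro i
        simpa using (hC i).trans Finset.sdiff_subset
    · intro i
      refine Fin.cases ?_ ?_ i
      · simpa using hSc
      · intro i
        simpa using hCc i
    · have hSd : ∀ i, Disjoint S (C i) := fun i =>
        Finset.disjoint_of_subset_right (hC i) Finset.disjoint_sdiff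
      intro i j
      refine Fin.cases ?_ ?_ i
      · refine Fin.cases ?_ ?_ j
        · intro h; exact absurd rfl h
        · intro j _
          simpa using hSd j
      · intro i
        refine Fin.cases ?_ ?_ j
        · intro _
          simpa using (hSd i).symm
        · intro j hij
          simpa using hCd i j (fun h => hij (by rw [h]))

open Classical in
theorem exists_pair {k : ℕ} (X : SimpleGraph (Fin k)) (η : ℝ) (hη : 0 < η) (hη1 : η ≤ 1) :
    ∃ δ : ℝ, 0 < δ ∧ δ ≤ 1 ∧ ∀ (V : Type) [Fintype V] (G : SimpleGraph V),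
      ¬ Nonempty (X ↪g G) → ∀ W : Finset V, 2 ≤ W.card →
      ∃ A B : Finset V, A ⊆ W ∧ B ⊆ W ∧ A.Nonempty ∧ B.Nonempty ∧
        δ * W.card ≤ A.card ∧ δ * W.card ≤ B.card ∧
        ((∀ a ∈ A, ((B.filter (fun b => G.Adj a b)).card : ℝ) ≤ η * B.card) ∨
         (∀ a ∈ A, ((B.filter (fun b => Gᶜ.Adj a b)).card : ℝ) ≤ η * B.card)) := by
  obtain ⟨δ, hδ, hδ1, h⟩ := embed_or_pair η hη hη1 k X
  rcases Nat.eq_zero_or_pos k with hk | hk
  · subst hk
    refine ⟨1, one_pos, le_refl _, ?_⟩
    intro V _ G hX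
    exact absurd ⟨⟨⟨fun i => i.elim0, fun i => i.elim0⟩, fun {i} => i.elim0⟩⟩ hX
  have hkR : (0 : ℝ) < k := by exact_mod_cast hk
  have hk1 : (1 : ℝ) ≤ k := by exact_mod_cast hk
  refine ⟨δ / (2 * k), by positivity, ?_, ?_⟩
  · rw [div_le_one (by positivity)]
    linarith
  intro V _ G hX W hW2
  by_cases hWk : k ≤ W.card
  · -- split
    set m := W.card / k with hm
    have hm1 : 1 ≤ m := (Nat.one_le_div_iff hk).2 hWk
    have hkm : k * m ≤ W.card := Nat.mul_div_le _ _
    have hWm : W.card < k * (m + 1) := by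
      have := Nat.lt_mul_div_succ W.card hk
      simpa using this
    have hWmR : (W.card : ℝ) ≤ 2 * k * m := by
      have h1 : (W.card : ℝ) < k * (m + 1) := by exact_mod_cast hWm
      have h2 : (1 : ℝ) ≤ m := by exact_mod_cast hm1
      nlinarith
    obtain ⟨C, hC, hCc, hCd⟩ := exists_split m k W hkm
    have hCne : ∀ i, (C i).Nonempty := fun i => Finset.card_pos.1 (by rw [hCc i]; omega)
    have key : δ / (2 * k) * (W.card : ℝ) ≤ δ * m := by
      calc δ / (2 * k) * (W.card : ℝ) ≤ δ / (2 * k) * (2 * k * m) :=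
            mul_le_mul_of_nonneg_left hWmR (by positivity)
        _ = δ * m := by field_simp
    rcases h V G C hCne hCd with ⟨f, hf, hfa⟩ | ⟨i, j, hij, A, B, hA, hB, hAn, hBn, hAc, hBc, hs⟩
    · exfalso
      apply hX
      have hinj : Function.Injective f := by
        intro i j hfij
        by_contra hne
        exact Finset.disjoint_left.1 (hCd i j hne) (hf i) (hfij ▸ hf j)
      refine ⟨⟨⟨f, hinj⟩, ?_⟩⟩
      intro i j
      rcases eq_or_ne i j with rfl | hne
      · simp
      · exact hfa i j hne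
    · refine ⟨A, B, hA.trans (hC i), hB.trans (hC j), hAn, hBn, ?_, ?_, ?_⟩
      · rw [hCc i] at hAc; exact key.trans hAc
      · rw [hCc j] at hBc; exact key.trans hBc
      · rcases hs with hs | hs
        · exact Or.inl hs
        · right
          intro a ha
          refine le_trans ?_ (hs a ha)
          have : (B.filter (fun b => Gᶜ.Adj a b)) ⊆ B.filter (fun b => ¬ G.Adj a b) := by
            intro b hb
            rw [Finset.mem_filter] at hb ⊢
            exact ⟨hb.1, (G.compl_adj a b).1 hb.2 |>.2⟩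
          exact_mod_cast Finset.card_le_card this
  · -- single vertices
    push Not at hWk
    obtain ⟨a, ha, b, hb, hab⟩ := Finset.one_lt_card.1 (by omega : 1 < W.card)
    have hle : δ / (2 * k) * (W.card : ℝ) ≤ 1 := by
      have h1 : (W.card : ℝ) ≤ k := by exact_mod_cast hWk.le
      calc δ / (2 * k) * (W.card : ℝ) ≤ δ / (2 * k) * k :=
            mul_le_mul_of_nonneg_left h1 (by positivity)
        _ = δ / 2 := by field_simp
        _ ≤ 1 := by linarith
    refine ⟨{a}, {b}, by simpa using ha, by simpa using hb, ⟨a, by simp⟩, ⟨b, by simp⟩,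
      by simpa using hle, by simpa using hle, ?_⟩
    by_cases hadj : G.Adj a b
    · right
      intro a' ha'
      rw [Finset.mem_singleton] at ha'
      subst ha'
      have : (({b} : Finset V).filter (fun b => Gᶜ.Adj a' b)) = ∅ := by
        rw [Finset.filter_eq_empty_iff]
        intro x hx
        rw [Finset.mem_singleton] at hx
        subst hx
        rw [G.compl_adj]
        exact fun h => h.2 hadj
      rw [this]
      simpa using hη.le
    · left
      intro a' ha'
      rw [Finset.mem_singleton] at ha'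
      subst ha'
      have : (({b} : Finset V).filter (fun b => G.Adj a' b)) = ∅ := by
        rw [Finset.filter_eq_empty_iff]
        intro x hx
        rw [Finset.mem_singleton] at hx
        subst hx
        exact hadj
      rw [this]
      simpa using hη.le

/-! ### Weighted sums -/

theorem eSum_le_sq {V : Type} [Fintype V] (G : SimpleGraph V) (μ : V → ℝ) (hμ : ∀ x, 0 ≤ μ x) :
    eSum G μ ≤ (∑ x, μ x) ^ 2 := by
  classical
  rw [sq, Finset.sum_mul_sum]
  unfold eSum
  refine Finset.sum_le_sum fun x _ => Finset.sum_le_sum fun y _ => ?_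
  split_ifs
  · exact le_rfl
  · exact mul_nonneg (hμ x) (hμ y)

open Classical in
theorem eSum_half {V : Type} [Fintype V] (G : SimpleGraph V) (f g : V → ℝ) {a c : ℝ}
    (h1 : eSum G f ≤ a) (h2 : eSum G g ≤ a)
    (hc : ∑ y, g y * (∑ x, if G.Adj x y then f x else 0) ≤ c) :
    eSum G (fun x => (f x + g x) / 2) ≤ (a + c) / 2 := by
  set cr := ∑ y, g y * (∑ x, if G.Adj x y then f x else 0) with hcr
  have e1 : ∑ x, ∑ y, (if G.Adj x y then f x * g y else 0) = cr := by
    rw [Finset.sum_comm, hcr]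
    refine Finset.sum_congr rfl fun y _ => ?_
    rw [Finset.mul_sum]
    refine Finset.sum_congr rfl fun x _ => ?_
    split_ifs <;> ring
  have e2 : ∑ x, ∑ y, (if G.Adj x y then g x * f y else 0) = cr := by
    rw [hcr]
    refine Finset.sum_congr rfl fun y _ => ?_
    rw [Finset.mul_sum]
    refine Finset.sum_congr rfl fun x _ => ?_
    rw [G.adj_comm]
    split_ifs <;> ring
  have key : eSum G (fun x => (f x + g x) / 2) = (eSum G f + eSum G g + cr + cr) / 4 := by
    conv_rhs => rw [← e1]
    rw [e1]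
    conv_rhs => enter [1, 2]; rw [← e2]
    conv_rhs => enter [1, 1, 2]; rw [← e1]
    unfold eSum
    simp only [← Finset.sum_add_distrib]
    rw [Finset.sum_div]
    refine Finset.sum_congr rfl fun x _ => ?_
    rw [Finset.sum_div]
    refine Finset.sum_congr rfl fun y _ => ?_
    split_ifs <;> ring
  rw [key]
  linarith

open Classical in
theorem sparse_step {V : Type} [Fintype V] (G : SimpleGraph V) (W A B : Finset V)
    {η ε₁ ε₂ K δ : ℝ} (hη : 0 < η) (hηε : η ≤ ε₁ / 4) (hK : 1 ≤ K) (hδ : 0 < δ)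
    (hW : W.Nonempty) (hAW : A ⊆ W) (hBW : B ⊆ W) (hA : A.Nonempty) (hB : B.Nonempty)
    (hAc : δ * W.card ≤ A.card) (hBc : δ * W.card ≤ B.card)
    (hs : ∀ a ∈ A, ((B.filter (fun b => G.Adj a b)).card : ℝ) ≤ η * B.card)
    (hR : ∀ W' : Finset V, W'.Nonempty → ∃ μ : V → ℝ, (∀ x, 0 ≤ μ x) ∧
      (∀ x, x ∉ W' → μ x = 0) ∧ ∑ x, μ x = 1 ∧ (∀ x, μ x ≤ K / W'.card) ∧
      (eSum G μ ≤ 3 / 2 * ε₁ ∨ eSum Gᶜ μ ≤ ε₂)) :
    ∃ μ : V → ℝ, (∀ x, 0 ≤ μ x) ∧ (∀ x, x ∉ W → μ x = 0) ∧
      ∑ x, μ x = 1 ∧ (∀ x, μ x ≤ (2 * K / δ) / W.card) ∧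
      (eSum G μ ≤ ε₁ ∨ eSum Gᶜ μ ≤ ε₂) := by
  obtain ⟨f, hf0, hfs, hf1, hfK, hfe⟩ := hR A hA
  have hWpos : (0 : ℝ) < W.card := by exact_mod_cast Finset.card_pos.2 hW
  have hBpos : (0 : ℝ) < B.card := by exact_mod_cast Finset.card_pos.2 hB
  have hδW : 0 < δ * W.card := by positivity
  have hbound : ∀ (n : ℝ), δ * W.card / 2 ≤ n → K / n ≤ (2 * K / δ) / W.card := by
    intro n hn
    have h0 : 0 < δ * W.card / 2 := by positivity
    calc K / n ≤ K / (δ * W.card / 2) := div_le_div_of_nonneg_left (by linarith) h0 hn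
      _ = _ := by field_simp
  have hfK' : ∀ x, f x ≤ (2 * K / δ) / W.card :=
    fun x => (hfK x).trans (hbound _ (by linarith))
  rcases hfe with hfe | hfe
  swap
  · exact ⟨f, hf0, fun x hx => hfs x (fun h => hx (hAW h)), hf1, hfK', Or.inr hfe⟩
  set N : V → ℝ := fun b => ∑ x, if G.Adj x b then f x else 0 with hN
  have hN0 : ∀ b, 0 ≤ N b := fun b => Finset.sum_nonneg fun x _ => by
    split_ifs
    · exact hf0 x
    · exact le_rfl
  have hsum : ∑ b ∈ B, N b ≤ η * B.card := by
    calc ∑ b ∈ B, N b = ∑ x, ∑ b ∈ B, (if G.Adj x b then f x else 0) := Finset.sum_comm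
      _ = ∑ x, f x * ((B.filter (fun b => G.Adj x b)).card : ℝ) := by
          refine Finset.sum_congr rfl fun x _ => ?_
          rw [← Finset.sum_filter, Finset.sum_const, nsmul_eq_mul, mul_comm]
      _ ≤ ∑ x, f x * (η * B.card) := by
          refine Finset.sum_le_sum fun x _ => ?_
          by_cases hx : x ∈ A
          · exact mul_le_mul_of_nonneg_left (hs x hx) (hf0 x)
          · rw [hfs x hx]; simp
      _ = η * B.card := by rw [← Finset.sum_mul, hf1, one_mul]
  set B' := B.filter (fun b => N b ≤ 2 * η) with hB'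
  have hbad : 2 * η * ((B.filter (fun b => ¬ N b ≤ 2 * η)).card : ℝ) ≤ η * B.card := by
    calc 2 * η * ((B.filter (fun b => ¬ N b ≤ 2 * η)).card : ℝ)
        = ∑ b ∈ B.filter (fun b => ¬ N b ≤ 2 * η), 2 * η := by
          rw [Finset.sum_const, nsmul_eq_mul, mul_comm]
      _ ≤ ∑ b ∈ B.filter (fun b => ¬ N b ≤ 2 * η), N b :=
          Finset.sum_le_sum fun b hb => (not_le.1 (Finset.mem_filter.1 hb).2).le
      _ ≤ ∑ b ∈ B, N b :=
          Finset.sum_le_sum_of_subset_of_nonneg (Finset.filter_subset _ _) fun b _ _ => hN0 b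
      _ ≤ _ := hsum
  have hcards : (B'.card : ℝ) + ((B.filter (fun b => ¬ N b ≤ 2 * η)).card : ℝ) = B.card := by
    have := Finset.card_filter_add_card_filter_not (s := B) (fun b => N b ≤ 2 * η)
    exact_mod_cast this
  have hB'c : (B.card : ℝ) / 2 ≤ B'.card := by
    have h1 : ((B.filter (fun b => ¬ N b ≤ 2 * η)).card : ℝ) ≤ (B.card : ℝ) / 2 := by
      by_contra hcon
      have hcon' := lt_of_not_ge hcon
      nlinarith
    linarith
  have hB'pos : (0 : ℝ) < B'.card := lt_of_lt_of_le (by positivity) hB'c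
  obtain ⟨g, hg0, hgs, hg1, hgK, hge⟩ := hR B' (Finset.card_pos.1 (by exact_mod_cast hB'pos))
  have hB'W : B' ⊆ W := (Finset.filter_subset _ _).trans hBW
  have hgK' : ∀ x, g x ≤ (2 * K / δ) / W.card :=
    fun x => (hgK x).trans (hbound _ (by linarith))
  rcases hge with hge | hge
  swap
  · exact ⟨g, hg0, fun x hx => hgs x (fun h => hx (hB'W h)), hg1, hgK', Or.inr hge⟩
  refine ⟨fun x => (f x + g x) / 2, fun x => by linarith [hf0 x, hg0 x], ?_, ?_, ?_, Or.inl ?_⟩
  · intro x hx
    have e1 := hfs x (fun h => hx (hAW h))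
    have e2 := hgs x (fun h => hx (hB'W h))
    simp [e1, e2]
  · rw [← Finset.sum_div, Finset.sum_add_distrib, hf1, hg1]
    norm_num
  · intro x
    linarith [hfK' x, hgK' x]
  · refine (eSum_half G f g hfe hge (c := 2 * η) ?_).trans (by linarith)
    calc ∑ y, g y * (∑ x, if G.Adj x y then f x else 0) ≤ ∑ y, g y * (2 * η) := by
          refine Finset.sum_le_sum fun y _ => ?_
          by_cases hy : y ∈ B'
          · exact mul_le_mul_of_nonneg_left (Finset.mem_filter.1 hy).2 (hg0 y)
          · rw [hgs y hy]; simp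
      _ = 2 * η := by rw [← Finset.sum_mul, hg1, one_mul]

/-- The statement proved by the doubling induction. -/
def RP {k : ℕ} (X : SimpleGraph (Fin k)) (ε₁ ε₂ : ℝ) : Prop :=
  ∃ K : ℝ, 1 ≤ K ∧ ∀ (V : Type) [Fintype V] (G : SimpleGraph V), ¬ Nonempty (X ↪g G) →
    ∀ W : Finset V, W.Nonempty → ∃ μ : V → ℝ, (∀ x, 0 ≤ μ x) ∧ (∀ x, x ∉ W → μ x = 0) ∧
      ∑ x, μ x = 1 ∧ (∀ x, μ x ≤ K / W.card) ∧ (eSum G μ ≤ ε₁ ∨ eSum Gᶜ μ ≤ ε₂)

theorem RP_trivial {k : ℕ} (X : SimpleGraph (Fin k)) {ε₁ ε₂ : ℝ} (h : 1 ≤ ε₁ ∨ 1 ≤ ε₂) :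
    RP X ε₁ ε₂ := by
  classical
  refine ⟨1, le_rfl, ?_⟩
  intro V _ G _ W hW
  have hWpos : (0 : ℝ) < W.card := by exact_mod_cast Finset.card_pos.2 hW
  set μ : V → ℝ := fun x => if x ∈ W then 1 / (W.card : ℝ) else 0 with hμ
  have h0 : ∀ x, 0 ≤ μ x := by
    intro x
    simp only [hμ]
    split_ifs
    · positivity
    · exact le_rfl
  have h1 : ∑ x, μ x = 1 := by
    simp only [hμ]
    rw [← Finset.sum_filter, Finset.sum_const, nsmul_eq_mul]
    simp only [Finset.filter_mem_eq_inter, Finset.univ_inter]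
    field_simp
  refine ⟨μ, h0, ?_, h1, ?_, ?_⟩
  · intro x hx
    simp [hμ, hx]
  · intro x
    simp only [hμ]
    split_ifs
    · exact le_rfl
    · positivity
  · rcases h with h | h
    · left
      refine (eSum_le_sq G μ h0).trans ?_
      rw [h1]; simpa using h
    · right
      refine (eSum_le_sq Gᶜ μ h0).trans ?_
      rw [h1]; simpa using h

theorem RP_all {k : ℕ} (X : SimpleGraph (Fin k)) : ∀ (N : ℕ) (ε₁ ε₂ : ℝ), 0 < ε₁ → 0 < ε₂ →
    1 ≤ (3 / 2 : ℝ) ^ N * (ε₁ * ε₂) → RP X ε₁ ε₂ := by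
  classical
  intro N
  induction N with
  | zero =>
    intro ε₁ ε₂ h1 h2 h
    apply RP_trivial
    by_contra hcon
    push Not at hcon
    rw [pow_zero, one_mul] at h
    nlinarith
  | succ N ih =>
    intro ε₁ ε₂ h1 h2 h
    by_cases hbig : 1 ≤ ε₁ ∨ 1 ≤ ε₂
    · exact RP_trivial X hbig
    push Not at hbig
    obtain ⟨K₁, hK₁, hR₁⟩ := ih (3 / 2 * ε₁) ε₂ (by linarith) h2 (by
      rw [pow_succ] at h
      calc (1 : ℝ) ≤ _ := h
        _ = _ := by ring)
    obtain ⟨K₂, hK₂, hR₂⟩ := ih ε₁ (3 / 2 * ε₂) h1 (by linarith) (by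
      rw [pow_succ] at h
      calc (1 : ℝ) ≤ _ := h
        _ = _ := by ring)
    set η : ℝ := min ε₁ ε₂ / 4 with hη
    have hη0 : 0 < η := by
      have := lt_min h1 h2
      positivity
    have hη1 : η ≤ ε₁ / 4 := by
      have := min_le_left ε₁ ε₂
      rw [hη]; linarith
    have hη2 : η ≤ ε₂ / 4 := by
      have := min_le_right ε₁ ε₂
      rw [hη]; linarith
    obtain ⟨δ, hδ, hδ1, hpair⟩ := exists_pair X η hη0 (by linarith)
    set K := max K₁ K₂ with hK
    have hK1 : 1 ≤ K := hK₁.trans (le_max_left _ _)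
    have hKδ : 1 ≤ 2 * K / δ := by
      rw [le_div_iff₀ hδ]
      linarith
    refine ⟨2 * K / δ, hKδ, ?_⟩
    intro V _ G hX W hW
    by_cases hW2 : 2 ≤ W.card
    · obtain ⟨A, B, hAW, hBW, hA, hB, hAc, hBc, hs⟩ := hpair V G hX W hW2
      rcases hs with hs | hs
      · refine sparse_step G W A B hη0 hη1 hK1 hδ hW hAW hBW hA hB hAc hBc hs ?_
        intro W' hW'
        obtain ⟨μ, g1, g2, g3, g4, g5⟩ := hR₁ V G hX W' hW'
        refine ⟨μ, g1, g2, g3, fun x => (g4 x).trans ?_, g5⟩
        exact div_le_div_of_nonneg_right (le_max_left _ _) (by positivity)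
      · obtain ⟨μ, g1, g2, g3, g4, g5⟩ :=
          sparse_step Gᶜ W A B (ε₁ := ε₂) (ε₂ := ε₁) hη0 hη2 hK1 hδ hW hAW hBW hA hB hAc hBc
            (fun a ha => by convert hs a ha) (by
            intro W' hW'
            obtain ⟨μ, g1, g2, g3, g4, g5⟩ := hR₂ V G hX W' hW'
            refine ⟨μ, g1, g2, g3, fun x => (g4 x).trans ?_, ?_⟩
            · exact div_le_div_of_nonneg_right (le_max_right _ _) (by positivity)
            · rw [compl_compl]; exact g5.symm)
        rw [compl_compl] at g5
        exact ⟨μ, g1, g2, g3, g4, g5.symm⟩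
    · have hW1 : W.card = 1 := by
        have := Finset.card_pos.2 hW
        omega
      obtain ⟨w, rfl⟩ := Finset.card_eq_one.1 hW1
      refine ⟨fun x => if x = w then 1 else 0, ?_, ?_, ?_, ?_, Or.inl ?_⟩
      · intro x
        dsimp only
        split_ifs <;> norm_num
      · intro x hx
        simp only [Finset.mem_singleton] at hx
        simp [hx]
      · simp
      · intro x
        rw [hW1]
        dsimp only
        split_ifs
        · simpa using hKδ
        · simpa using (zero_le_one.trans hKδ)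
      · have : eSum G (fun x => if x = w then (1 : ℝ) else 0) = 0 := by
          unfold eSum
          refine Finset.sum_eq_zero fun x _ => Finset.sum_eq_zero fun y _ => ?_
          by_cases hx : x = w
          · by_cases hy : y = w
            · subst hx; subst hy; simp
            · simp [hy]
          · simp [hx]
        rw [this]
        exact h1.le

end Rodl

open Rodl

open Classical in
/-- B1: Rödl's theorem, measure form. -/
theorem rodl_measure {k : ℕ} (X : SimpleGraph (Fin k)) (ε : ℝ) (hε : 0 < ε) :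
    ∃ K : ℝ, 0 < K ∧ ∀ (V : Type) [Fintype V] [Nonempty V] (G : SimpleGraph V),
      ¬ Nonempty (X ↪g G) → ∃ μ : V → ℝ, (∀ x, 0 ≤ μ x) ∧ ∑ x, μ x = 1 ∧
        (∀ x, μ x ≤ K / Fintype.card V) ∧
        ((∑ x, ∑ y, (if G.Adj x y then μ x * μ y else 0)) ≤ ε ∨
         (∑ x, ∑ y, (if x ≠ y ∧ ¬ G.Adj x y then μ x * μ y else 0)) ≤ ε) := by
  obtain ⟨N, hN⟩ := pow_unbounded_of_one_lt (1 / (ε * ε)) (by norm_num : (1 : ℝ) < 3 / 2)
  obtain ⟨K, hK, h⟩ := RP_all X N ε ε hε hε (by
    have hpos : 0 < ε * ε := mul_pos hε hε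
    rw [div_lt_iff₀ hpos] at hN
    exact hN.le)
  refine ⟨K, by linarith, ?_⟩
  intro V _ _ G hX
  obtain ⟨μ, h1, -, h3, h4, h5⟩ := h V G hX Finset.univ Finset.univ_nonempty
  refine ⟨μ, h1, h3, ?_, ?_⟩
  · intro x
    simpa [Finset.card_univ] using h4 x
  · rcases h5 with h5 | h5
    · left
      simpa [eSum] using h5
    · right
      simpa [eSum, SimpleGraph.compl_adj] using h5

end Pool.Agent.Lib.MP_18a3c4_co
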