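import Pool.Agent.Lib.MP_18a3c4_co.Tools

/-!
Part A: from a hereditary class failing EHP to a substitution-closed subclass.
-/

namespace Pool.Agent.Lib.MP_18a3c4_co

namespace SubClass

/-- Finite graphs. -/
abbrev Gr := Σ n : ℕ, SimpleGraph (Fin n)

lemma EHP.mono {F F' : HereditaryClass} (h : ∀ n G, F'.mem n G → F.mem n G) (hF : EHP F) : EHP F' := by
  obtain ⟨c, hc, h1⟩ := hF
  exact ⟨c, hc, fun n G hG => h1 n G (h n G hG)⟩

lemma avoid_anti (F : HereditaryClass) {S T : Set Gr} (h : S ⊆ T) (n : ℕ) (G : SimpleGraph (Fin n))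
    (hG : (avoid F T).mem n G) : (avoid F S).mem n G :=
  ⟨hG.1, fun X hX => hG.2 X (h hX)⟩

/-- Inside a graph without large homogeneous sets every large set contains a copy of `X`. -/
lemma exists_copy (F : HereditaryClass) (S : Set Gr) {k : ℕ} (X : SimpleGraph (Fin k)) {c : ℝ} (hc : 0 < c)
    (hE : ∀ (n : ℕ) (G : SimpleGraph (Fin n)), (avoid F (insert ⟨k, X⟩ S)).mem n G →
      ∃ s : Finset (Fin n), (G.IsClique s ∨ G.IsIndepSet s) ∧ (n : ℝ) ^ c ≤ s.card)
    {N : ℕ} (G : SimpleGraph (Fin N)) (hG : (avoid F S).mem N G) {t : ℝ} (ht : 1 ≤ t)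
    (hom : ∀ s : Finset (Fin N), (G.IsClique s ∨ G.IsIndepSet s) → (s.card : ℝ) < t)
    {a : ℕ} (ha : 1 ≤ a * c) (U : Finset (Fin N)) (hU : t ^ a ≤ (U.card : ℝ)) :
    ∃ f : X ↪g G, ∀ i, f i ∈ U := by
  classical
  by_contra hno
  set m := U.card with hm
  let e : Fin m ↪ Fin N := (U.orderEmbOfFin hm.symm).toEmbedding
  have he : ∀ i, e i ∈ U := fun i => U.orderEmbOfFin_mem hm.symm i
  let G' : SimpleGraph (Fin m) := G.comap e
  let φ : G' ↪g G := SimpleGraph.Embedding.comap e G
  have hmem : (avoid F (insert ⟨k, X⟩ S)).mem m G' := by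
    have h1 := (avoid F S).closed m N G' G hG ⟨φ⟩
    refine ⟨h1.1, ?_⟩
    rintro Y (rfl | hY)
    · rintro ⟨f⟩
      exact hno ⟨f.trans φ, fun i => he _⟩
    · exact h1.2 Y hY
  obtain ⟨s, hs1, hs2⟩ := hE m G' hmem
  have hlt := hom (s.map e) (by
    rcases hs1 with h | h
    · left
      intro x hx y hy hxy
      simp only [Finset.coe_map, Set.mem_image, Finset.mem_coe] at hx hy
      obtain ⟨x', hx', rfl⟩ := hx
      obtain ⟨y', hy', rfl⟩ := hy
      exact h hx' hy' (fun hh => hxy (by rw [hh]))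
    · right
      intro x hx y hy hxy
      simp only [Finset.coe_map, Set.mem_image, Finset.mem_coe] at hx hy
      obtain ⟨x', hx', rfl⟩ := hx
      obtain ⟨y', hy', rfl⟩ := hy
      exact h hx' hy' (fun hh => hxy (by rw [hh])))
  rw [Finset.card_map] at hlt
  have h1 : t ≤ (m : ℝ) ^ c := by
    calc t = t ^ (1 : ℝ) := (Real.rpow_one t).symm
      _ ≤ t ^ ((a : ℝ) * c) := Real.rpow_le_rpow_of_exponent_le ht ha
      _ = (t ^ a) ^ c := by rw [Real.rpow_mul (by linarith), Real.rpow_natCast]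
      _ ≤ (m : ℝ) ^ c := Real.rpow_le_rpow (by positivity) hU hc.le
  linarith

/-- Counting supersets. -/
lemma card_supersets_le {N : ℕ} (T : Finset (Fin N)) (u : ℕ) (_hT : T.card ≤ u) :
    ((Finset.powersetCard u (Finset.univ : Finset (Fin N))).filter (fun U => T ⊆ U)).card ≤
      (N - T.card).choose (u - T.card) := by
  classical
  have h1 : (Finset.powersetCard (u - T.card) (Finset.univ \ T)).card = (N - T.card).choose (u - T.card) := by
    rw [Finset.card_powersetCard, Finset.card_sdiff_of_subset (Finset.subset_univ T), Finset.card_univ,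
      Fintype.card_fin]
  rw [← h1]
  refine Finset.card_le_card_of_injOn (fun U => U \ T) ?_ ?_
  · intro U hU
    simp only [Finset.coe_filter, Finset.mem_powersetCard, Set.mem_ofPred_eq] at hU
    simp only [Finset.mem_coe, Finset.mem_powersetCard]
    refine ⟨Finset.sdiff_subset_sdiff (Finset.subset_univ _) (le_refl _), ?_⟩
    rw [Finset.card_sdiff_of_subset hU.2, hU.1.2]
  · intro U hU V hV hUV
    simp only [Finset.coe_filter, Finset.mem_powersetCard, Set.mem_ofPred_eq] at hU hV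
    have := congrArg (fun W => W ∪ T) hUV
    simpa [Finset.sdiff_union_of_subset hU.2, Finset.sdiff_union_of_subset hV.2] using this

/-- `N^{(h)} u^h ≥ u^{(h)} N^h` for falling factorials. -/
lemma descFactorial_mul_pow_le {u N : ℕ} (h : u ≤ N) (k : ℕ) :
    u.descFactorial k * N ^ k ≤ N.descFactorial k * u ^ k := by
  induction k with
  | zero => simp
  | succ k ih =>
    rw [Nat.descFactorial_succ, Nat.descFactorial_succ, pow_succ, pow_succ]
    have h1 : (u - k) * N ≤ (N - k) * u := by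
      rw [Nat.sub_mul, Nat.sub_mul, Nat.mul_comm u N]
      exact Nat.sub_le_sub_left (Nat.mul_le_mul_left k h) _
    calc (u - k) * u.descFactorial k * (N ^ k * N) = ((u - k) * N) * (u.descFactorial k * N ^ k) := by ring
      _ ≤ ((N - k) * u) * (N.descFactorial k * u ^ k) := Nat.mul_le_mul h1 ih
      _ = (N - k) * N.descFactorial k * (u ^ k * u) := by ring

/-- Supersaturation: if every `u`-set contains a copy of `X` then there are at least `(N/u)^h` copies. -/
lemma many_copies {h N u : ℕ} (X : SimpleGraph (Fin h)) (G : SimpleGraph (Fin N)) (_hu : 0 < u) (huN : u ≤ N)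
    (hcopy : ∀ U : Finset (Fin N), U.card = u → ∃ f : X ↪g G, ∀ i, f i ∈ U) :
    N ^ h ≤ Nat.card (X ↪g G) * u ^ h := by
  classical
  have : Finite (X ↪g G) := Finite.of_injective (fun f : X ↪g G => (f : Fin h → Fin N)) DFunLike.coe_injective
  have : Fintype (X ↪g G) := Fintype.ofFinite _
  rw [Nat.card_eq_fintype_card]
  -- `h ≤ u`
  have hhu : h ≤ u := by
    obtain ⟨U, -, hU⟩ := Finset.exists_subset_card_eq (s := (Finset.univ : Finset (Fin N))) (n := u)
      (by simpa using huN)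
    obtain ⟨f, hf⟩ := hcopy U hU
    have : (Finset.univ.map f.toEmbedding).card ≤ U.card := by
      apply Finset.card_le_card
      intro x hx
      simp only [Finset.mem_map, Finset.mem_univ, true_and] at hx
      obtain ⟨i, rfl⟩ := hx
      exact hf i
    simpa [hU] using this
  let im : (X ↪g G) → Finset (Fin N) := fun f => Finset.univ.map f.toEmbedding
  have him : ∀ f, (im f).card = h := fun f => by simp [im]
  have h1 : (Finset.powersetCard u (Finset.univ : Finset (Fin N))) ⊆
      (Finset.univ : Finset (X ↪g G)).biUnion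
        (fun f => (Finset.powersetCard u (Finset.univ : Finset (Fin N))).filter (fun U => im f ⊆ U)) := by
    intro U hU
    obtain ⟨f, hf⟩ := hcopy U (Finset.mem_powersetCard.1 hU).2
    simp only [Finset.mem_biUnion, Finset.mem_univ, true_and, Finset.mem_filter]
    refine ⟨f, hU, ?_⟩
    intro x hx
    simp only [im, Finset.mem_map, Finset.mem_univ, true_and] at hx
    obtain ⟨i, rfl⟩ := hx
    exact hf i
  have h2 : N.choose u ≤ Fintype.card (X ↪g G) * (N - h).choose (u - h) := by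
    calc N.choose u = (Finset.powersetCard u (Finset.univ : Finset (Fin N))).card := by
          rw [Finset.card_powersetCard, Finset.card_univ, Fintype.card_fin]
      _ ≤ _ := Finset.card_le_card h1
      _ ≤ ∑ f : X ↪g G, ((Finset.powersetCard u (Finset.univ : Finset (Fin N))).filter
            (fun U => im f ⊆ U)).card := Finset.card_biUnion_le
      _ ≤ ∑ _f : X ↪g G, (N - h).choose (u - h) := by
          apply Finset.sum_le_sum
          intro f _
          have := card_supersets_le (im f) u (by rw [him]; exact hhu)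
          rwa [him] at this
      _ = _ := by simp
  have h3 : N.choose u * u.choose h = N.choose h * (N - h).choose (u - h) := Nat.choose_mul hhu
  have hpos : 0 < (N - h).choose (u - h) := Nat.choose_pos (by omega)
  have h4 : N.choose h ≤ Fintype.card (X ↪g G) * u.choose h := by
    have : N.choose h * (N - h).choose (u - h) ≤
        (Fintype.card (X ↪g G) * u.choose h) * (N - h).choose (u - h) := by
      rw [← h3]
      calc N.choose u * u.choose h ≤ (Fintype.card (X ↪g G) * (N - h).choose (u - h)) * u.choose h :=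
            Nat.mul_le_mul_right _ h2
        _ = _ := by ring
    exact Nat.le_of_mul_le_mul_right this hpos
  -- multiply by `h!`
  have h5 : N.descFactorial h ≤ Fintype.card (X ↪g G) * u.descFactorial h := by
    rw [Nat.descFactorial_eq_factorial_mul_choose, Nat.descFactorial_eq_factorial_mul_choose]
    calc h.factorial * N.choose h ≤ h.factorial * (Fintype.card (X ↪g G) * u.choose h) :=
          Nat.mul_le_mul_left _ h4
      _ = _ := by ring
  have h6 := descFactorial_mul_pow_le huN h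
  have hposd : 0 < u.descFactorial h := Nat.pos_of_ne_zero (by
    intro h0
    rw [Nat.descFactorial_eq_zero_iff_lt] at h0
    omega)
  have h7 : u.descFactorial h * N ^ h ≤ u.descFactorial h * (Fintype.card (X ↪g G) * u ^ h) := by
    calc u.descFactorial h * N ^ h ≤ N.descFactorial h * u ^ h := h6
      _ ≤ (Fintype.card (X ↪g G) * u.descFactorial h) * u ^ h := Nat.mul_le_mul_right _ h5
      _ = _ := by ring
  exact Nat.le_of_mul_le_mul_left h7 hposd

/-- Some partial copy of `X` (without the vertex `v`) has many extensions. -/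
lemma many_extensions {h N u l : ℕ} (X : SimpleGraph (Fin h)) (v : Fin h) (G : SimpleGraph (Fin N)) (hu : 0 < u)
    (huN : u ≤ N) (hcopy : ∀ U : Finset (Fin N), U.card = u → ∃ f : X ↪g G, ∀ i, f i ∈ U)
    (hl : l * u ^ h ≤ N) :
    ∃ (g : {i : Fin h // i ≠ v} → Fin N) (U : Finset (Fin N)), l ≤ U.card ∧
      ∀ x ∈ U, ∃ f : X ↪g G, f v = x ∧ ∀ i : {i : Fin h // i ≠ v}, f i.1 = g i := by
  classical
  have : Finite (X ↪g G) := Finite.of_injective (fun f : X ↪g G => (f : Fin h → Fin N)) DFunLike.coe_injective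
  let _ : Fintype (X ↪g G) := Fintype.ofFinite _
  have h1 := many_copies X G hu huN hcopy
  rw [Nat.card_eq_fintype_card] at h1
  have hh : h ≠ 0 := fun h0 => by subst h0; exact v.elim0
  obtain ⟨h', rfl⟩ := Nat.exists_eq_succ_of_ne_zero hh
  -- number of partial maps
  have hcardv : Fintype.card {i : Fin (h' + 1) // i ≠ v} = h' := by
    rw [Fintype.card_subtype_compl, Fintype.card_fin, Fintype.card_subtype_eq]; rfl
  have hcard : Fintype.card ({i : Fin (h' + 1) // i ≠ v} → Fin N) = N ^ h' := by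
    rw [Fintype.card_fun, hcardv, Fintype.card_fin]
  have hNpos : 0 < N := lt_of_lt_of_le hu huN
  have h2 : N ^ h' * l ≤ Fintype.card (X ↪g G) := by
    have hpos : 0 < u ^ (h' + 1) := pow_pos hu _
    have : (N ^ h' * l) * u ^ (h' + 1) ≤ Fintype.card (X ↪g G) * u ^ (h' + 1) := by
      calc (N ^ h' * l) * u ^ (h' + 1) = N ^ h' * (l * u ^ (h' + 1)) := by ring
        _ ≤ N ^ h' * N := Nat.mul_le_mul_left _ hl
        _ = N ^ (h' + 1) := by rw [pow_succ]
        _ ≤ _ := h1
    exact Nat.le_of_mul_le_mul_right this hpos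
  have : Nonempty (Fin N) := ⟨⟨0, hNpos⟩⟩
  obtain ⟨g, -, hg⟩ := Finset.exists_le_card_fiber_of_mul_le_card_of_maps_to
    (s := (Finset.univ : Finset (X ↪g G)))
    (t := (Finset.univ : Finset ({i : Fin (h' + 1) // i ≠ v} → Fin N)))
    (f := fun f => fun i => f i.1) (n := l) (fun _ _ => Finset.mem_univ _) Finset.univ_nonempty
    (by rw [Finset.card_univ, Finset.card_univ, hcard]; exact h2)
  refine ⟨g, ((Finset.univ : Finset (X ↪g G)).filter (fun f => (fun i : {i : Fin (h' + 1) // i ≠ v} => f i.1) = g)).image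
    (fun f => f v), ?_, ?_⟩
  · rw [Finset.card_image_of_injOn]
    · exact hg
    · intro f hf f' hf' hff
      simp only [Finset.coe_filter, Finset.mem_univ, true_and, Set.mem_ofPred_eq] at hf hf'
      apply DFunLike.coe_injective
      funext i
      by_cases hi : i = v
      · subst hi; exact hff
      · have h3 := congrFun (hf.trans hf'.symm) ⟨i, hi⟩
        exact h3
  · intro x hx
    simp only [Finset.mem_image, Finset.mem_filter, Finset.mem_univ, true_and] at hx
    obtain ⟨f, hf, rfl⟩ := hx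
    exact ⟨f, rfl, fun i => congrFun hf i⟩

/-- The Alon-Pach-Solymosi step: if forbidding `XB` (the graph with the module contracted) and forbidding
`XK` (the module) both give EHP, then so does forbidding the whole graph. -/
lemma ehp_of_subst (F : HereditaryClass) (SB SK : Set Gr) {V : Type} (G0 : SimpleGraph V)
    (M : Set V) (v : V) (hv : v ∈ M) (hmod : IsModule G0 M) {h k : ℕ} (XB : SimpleGraph (Fin h))
    (eB : XB ≃g G0.induce (insert v Mᶜ)) (XK : SimpleGraph (Fin k)) (eK : XK ≃g G0.induce M) {n0 : ℕ}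
    (H : SimpleGraph (Fin n0)) (eH : H ≃g G0) (hB : EHP (avoid F (insert ⟨h, XB⟩ SB)))
    (hK : EHP (avoid F (insert ⟨k, XK⟩ SK))) : EHP (avoid F (insert ⟨n0, H⟩ (SB ∪ SK))) := by
  classical
  obtain ⟨cB, hcB, hB⟩ := hB
  obtain ⟨cK, hcK, hK⟩ := hK
  set a : ℕ := ⌈1 / cB⌉₊ with ha
  set b : ℕ := ⌈1 / cK⌉₊ with hb
  have ha1 : 1 ≤ (a : ℝ) * cB := by
    have := Nat.le_ceil (1 / cB)
    rw [div_le_iff₀ hcB] at this
    exact this
  have hb1 : 1 ≤ (b : ℝ) * cK := by
    have := Nat.le_ceil (1 / cK)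
    rw [div_le_iff₀ hcK] at this
    exact this
  set D : ℕ := (a + 1) * h + b + 1 with hD
  have hDpos : (0 : ℝ) < D := by positivity
  refine ⟨1 / (D : ℝ), by positivity, ?_⟩
  intro N G hG
  by_contra hno
  push Not at hno
  set t : ℝ := (N : ℝ) ^ (1 / (D : ℝ)) with ht
  -- `N ≥ 2`
  have hN0 : N ≠ 0 := by
    rintro rfl
    have := hno ∅ (Or.inl (by simp [SimpleGraph.IsClique]))
    rw [ht] at this
    simp only [Nat.cast_zero, Finset.card_empty] at this
    rw [Real.zero_rpow (by positivity)] at this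
    exact lt_irrefl _ this
  have hN1 : N ≠ 1 := by
    rintro rfl
    have := hno {0} (Or.inl (by simp [SimpleGraph.IsClique]))
    rw [ht] at this
    simp at this
  have hN2 : 2 ≤ N := by omega
  have ht2 : (2 : ℝ) < t := by
    let x : Fin N := ⟨0, by omega⟩
    let y : Fin N := ⟨1, by omega⟩
    have hxy : x ≠ y := by simp [x, y]
    have hc : ({x, y} : Finset (Fin N)).card = 2 := Finset.card_pair hxy
    have := hno {x, y} (by
      by_cases hadj : G.Adj x y
      · left
        intro p hp q hq hpq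
        simp only [Finset.coe_insert, Finset.coe_singleton, Set.mem_insert_iff, Set.mem_singleton_iff] at hp hq
        rcases hp with rfl | rfl <;> rcases hq with rfl | rfl
        · exact absurd rfl hpq
        · exact hadj
        · exact hadj.symm
        · exact absurd rfl hpq
      · right
        intro p hp q hq hpq
        simp only [Finset.coe_insert, Finset.coe_singleton, Set.mem_insert_iff, Set.mem_singleton_iff] at hp hq
        rcases hp with rfl | rfl <;> rcases hq with rfl | rfl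
        · exact absurd rfl hpq
        · exact hadj
        · exact fun hh => hadj hh.symm
        · exact absurd rfl hpq)
    rw [hc] at this
    exact_mod_cast this
  have ht1 : (1 : ℝ) ≤ t := by linarith
  have htD : t ^ D = N := by
    rw [ht, ← Real.rpow_natCast, ← Real.rpow_mul (Nat.cast_nonneg N), one_div, inv_mul_cancel₀ hDpos.ne',
      Real.rpow_one]
  have hceil : ∀ e : ℕ, ((⌈t ^ e⌉₊ : ℕ) : ℝ) ≤ t ^ (e + 1) := by
    intro e
    have h1 : (1 : ℝ) ≤ t ^ e := one_le_pow₀ ht1
    have h2 : ((⌈t ^ e⌉₊ : ℕ) : ℝ) < t ^ e + 1 := Nat.ceil_lt_add_one (by positivity)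
    have h3 : t ^ (e + 1) = t ^ e * t := pow_succ t e
    nlinarith
  set u : ℕ := ⌈t ^ a⌉₊ with hu
  set l : ℕ := ⌈t ^ b⌉₊ with hl
  have hupos : 0 < u := Nat.ceil_pos.2 (by positivity)
  have hlpos : 0 < l := Nat.ceil_pos.2 (by positivity)
  have hlu : l * u ^ h ≤ N := by
    have h1 : ((l * u ^ h : ℕ) : ℝ) ≤ N := by
      push_cast
      calc (l : ℝ) * (u : ℝ) ^ h ≤ t ^ (b + 1) * (t ^ (a + 1)) ^ h := by
            apply mul_le_mul (hceil b) (pow_le_pow_left₀ (Nat.cast_nonneg u) (hceil a) h)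
              (by positivity) (by positivity)
        _ = t ^ D := by rw [← pow_mul, ← pow_add, hD]; congr 1; ring
        _ = N := htD
    exact_mod_cast h1
  -- the distinguished vertex
  let vB : Fin h := eB.symm ⟨v, Set.mem_insert _ _⟩
  have hh : 1 ≤ h := Nat.one_le_iff_ne_zero.2 (fun h0 => by
    have := vB.2
    omega)
  have huN : u ≤ N := by
    calc u = u ^ 1 := (pow_one u).symm
      _ ≤ u ^ h := Nat.pow_le_pow_right hupos hh
      _ ≤ l * u ^ h := Nat.le_mul_of_pos_left _ hlpos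
      _ ≤ N := hlu
  have hGB : (avoid F SB).mem N G := avoid_anti F (fun X hX => Or.inr (Or.inl hX)) N G hG
  have hGK : (avoid F SK).mem N G := avoid_anti F (fun X hX => Or.inr (Or.inr hX)) N G hG
  have hcopyB : ∀ U : Finset (Fin N), U.card = u → ∃ f : XB ↪g G, ∀ i, f i ∈ U := by
    intro U hU
    exact exists_copy F SB XB hcB hB G hGB ht1 hno ha1 U (by rw [hU]; exact Nat.le_ceil _)
  obtain ⟨g, U, hUcard, hU⟩ := many_extensions XB vB G hupos huN hcopyB hlu
  obtain ⟨φ, hφ⟩ := exists_copy F SK XK hcK hK G hGK ht1 hno hb1 U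
    (le_trans (Nat.le_ceil _) (by exact_mod_cast hUcard))
  -- assemble the embedding of `G0`
  have hne : ∀ (x : V) (hx : x ∉ M), eB.symm ⟨x, Set.mem_insert_of_mem _ hx⟩ ≠ vB := by
    intro x hx hh'
    have h3 : x = v := congrArg Subtype.val (eB.symm.injective hh')
    exact hx (h3 ▸ hv)
  let Ψ : V → Fin N := fun x =>
    if hx : x ∈ M then φ (eK.symm ⟨x, hx⟩)
    else g ⟨eB.symm ⟨x, Set.mem_insert_of_mem _ hx⟩, hne x hx⟩
  have hΨ1 : ∀ (x : V) (hx : x ∈ M), Ψ x = φ (eK.symm ⟨x, hx⟩) := fun x hx => dif_pos hx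
  have hΨ2 : ∀ (x : V) (hx : x ∉ M), Ψ x = g ⟨eB.symm ⟨x, Set.mem_insert_of_mem _ hx⟩, hne x hx⟩ :=
    fun x hx => dif_neg hx
  have hΨU : ∀ x ∈ M, Ψ x ∈ U := fun x hx => by rw [hΨ1 x hx]; exact hφ _
  -- for a vertex `x` of the module there is a copy of `XB` through `Ψ x` and all `Ψ y`, `y ∉ M`
  have key : ∀ x ∈ M, ∃ f : XB ↪g G, f vB = Ψ x ∧
      ∀ (y : V) (hy : y ∉ M), f (eB.symm ⟨y, Set.mem_insert_of_mem _ hy⟩) = Ψ y := by
    intro x hx
    obtain ⟨f, hf1, hf2⟩ := hU (Ψ x) (hΨU x hx)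
    exact ⟨f, hf1, fun y hy => by rw [hΨ2 y hy]; exact hf2 ⟨_, hne y hy⟩⟩
  have adjMO : ∀ x ∈ M, ∀ (y : V) (_ : y ∉ M), Ψ x ≠ Ψ y ∧ (G.Adj (Ψ x) (Ψ y) ↔ G0.Adj x y) := by
    intro x hx y hy
    obtain ⟨f, hf1, hf2⟩ := key x hx
    rw [← hf1, ← hf2 y hy]
    constructor
    · intro hh'
      exact hne y hy (f.injective hh').symm
    · rw [f.map_adj_iff]
      have h1 : XB.Adj vB (eB.symm ⟨y, Set.mem_insert_of_mem _ hy⟩) ↔ G0.Adj v y := by
        rw [eB.symm.map_adj_iff]; rfl
      rw [h1, G0.adj_comm v y, G0.adj_comm x y]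
      exact hmod y hy v hv x hx
  have adjAll : ∀ x y : V, (Ψ x = Ψ y → x = y) ∧ (G.Adj (Ψ x) (Ψ y) ↔ G0.Adj x y) := by
    intro x y
    by_cases hx : x ∈ M
    · by_cases hy : y ∈ M
      · rw [hΨ1 x hx, hΨ1 y hy]
        refine ⟨fun hh' => ?_, ?_⟩
        · exact congrArg Subtype.val (eK.symm.injective (φ.injective hh'))
        · rw [φ.map_adj_iff, eK.symm.map_adj_iff]; rfl
      · obtain ⟨h1, h2⟩ := adjMO x hx y hy
        exact ⟨fun hh' => absurd hh' h1, h2⟩
    · by_cases hy : y ∈ M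
      · obtain ⟨h1, h2⟩ := adjMO y hy x hx
        refine ⟨fun hh' => absurd hh'.symm h1, ?_⟩
        rw [G.adj_comm, G0.adj_comm]; exact h2
      · obtain ⟨f, hf1, hf2⟩ := key v hv
        rw [← hf2 x hx, ← hf2 y hy]
        refine ⟨fun hh' => ?_, ?_⟩
        · exact congrArg Subtype.val (eB.symm.injective (f.injective hh'))
        · rw [f.map_adj_iff, eB.symm.map_adj_iff]; rfl
  let emb : G0 ↪g G :=
    { toFun := Ψ
      inj' := fun x y hh' => (adjAll x y).1 hh'
      map_rel_iff' := fun {x y} => (adjAll x y).2 }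
  exact hG.2 ⟨n0, H⟩ (Or.inl rfl) ⟨(eH.toEmbedding).trans emb⟩

end SubClass

open SubClass in
/-- Part A: the substitution-closed subclass. -/
theorem exists_moduleClosed (F : HereditaryClass) (hF : ¬ EHP F) :
    ∃ 𝓐 : HereditaryClass, (∀ n G, 𝓐.mem n G → F.mem n G) ∧ ModuleClosed 𝓐 ∧
      ∀ S : Set (Σ n : ℕ, SimpleGraph (Fin n)), S.Finite → (∀ X ∈ S, ¬ 𝓐.mem X.1 X.2) →
        ¬ EHP (avoid F S) := by
  classical
  -- a maximal set of graphs all of whose finite subsets can be forbidden without getting EHP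
  let 𝓕 : Set (Set Gr) := {𝒳 | ∀ S : Set Gr, S ⊆ 𝒳 → S.Finite → ¬ EHP (avoid F S)}
  have hfin : Order.IsOfFiniteCharacter 𝓕 := by
    intro x
    constructor
    · intro hx y hy _ S hS hSf
      exact hx S (hS.trans hy) hSf
    · intro hx S hS hSf
      exact hx S hS hSf S (le_refl S) hSf
  have hempty : (∅ : Set Gr) ∈ 𝓕 := by
    intro S hS _ hE
    apply hF
    have hS0 : S = ∅ := Set.subset_empty_iff.1 hS
    subst hS0
    refine EHP.mono (F := avoid F ∅) (F' := F) (fun n G hG => ?_) hE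
    exact ⟨hG, fun X hX => absurd hX (Set.notMem_empty X)⟩
  obtain ⟨𝒳, -, h𝒳⟩ := hfin.exists_maximal hempty
  have h𝒳1 : ∀ S : Set Gr, S ⊆ 𝒳 → S.Finite → ¬ EHP (avoid F S) := h𝒳.prop
  have h𝒳2 : ∀ X : Gr, (∀ S : Set Gr, S ⊆ insert X 𝒳 → S.Finite → ¬ EHP (avoid F S)) → X ∈ 𝒳 := by
    intro X hX
    have := h𝒳.le_of_ge (y := insert X 𝒳) hX (Set.subset_insert X 𝒳)
    exact this (Set.mem_insert X 𝒳)
  -- (A1)
  have hA1 : ∀ X : Gr, X ∉ 𝒳 → ∃ S : Set Gr, S ⊆ 𝒳 ∧ S.Finite ∧ EHP (avoid F (insert X S)) := by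
    intro X hX
    by_contra hcon
    apply hX
    apply h𝒳2
    intro S hS hSf hE
    apply hcon
    refine ⟨S \ {X}, ?_, hSf.sdiff, ?_⟩
    · rintro Y ⟨hY, hYX⟩
      rcases hS hY with h | h
      · exact absurd h hYX
      · exact h
    · refine EHP.mono (avoid_anti F ?_) hE
      intro Y hY
      by_cases h : Y = X
      · exact Or.inl h
      · exact Or.inr ⟨hY, h⟩
  let 𝓐 : HereditaryClass :=
    { mem := fun n G => (⟨n, G⟩ : Gr) ∉ 𝒳
      closed := by
        intro m n H G hG hHG hH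
        apply hG
        apply h𝒳2
        intro S hS hSf hE
        apply h𝒳1 (insert ⟨m, H⟩ (S \ {⟨n, G⟩})) ?_ ((hSf.sdiff).insert _)
        · refine EHP.mono ?_ hE
          intro N K hK
          refine ⟨hK.1, ?_⟩
          intro X hX hXK
          by_cases h : X = ⟨n, G⟩
          · subst h
            obtain ⟨e1⟩ := hHG
            obtain ⟨e2⟩ := hXK
            exact hK.2 ⟨m, H⟩ (Or.inl rfl) ⟨e1.trans e2⟩
          · exact hK.2 X (Or.inr ⟨hX, h⟩) hXK
        · rintro Y (rfl | ⟨hY, hYX⟩)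
          · exact hH
          · rcases hS hY with h | h
            · exact absurd h hYX
            · exact h }
  refine ⟨𝓐, ?_, ?_, ?_⟩
  · -- 𝓐 ⊆ F
    intro n G hG
    by_contra hFG
    apply hG
    apply h𝒳2
    intro S hS hSf hE
    apply h𝒳1 (S \ {⟨n, G⟩}) ?_ hSf.sdiff
    · refine EHP.mono ?_ hE
      intro N K hK
      refine ⟨hK.1, ?_⟩
      intro X hX hXK
      by_cases h : X = ⟨n, G⟩
      · subst h
        exact hFG (F.closed n N G K hK.1 hXK)
      · exact hK.2 X ⟨hX, h⟩ hXK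
    · rintro Y ⟨hY, hYX⟩
      rcases hS hY with h | h
      · exact absurd h hYX
      · exact h
  · -- substitution closed
    intro V hVfin G0 M v hv hmod hIB hIK
    have hVf := Fintype.ofFinite V
    -- a copy of `G0` on `Fin n0`
    obtain ⟨n0, ⟨e0⟩⟩ : ∃ n, Nonempty (V ≃ Fin n) := ⟨_, ⟨Fintype.equivFin V⟩⟩
    let H : SimpleGraph (Fin n0) := G0.comap e0.symm
    let eH : H ≃g G0 := SimpleGraph.Iso.comap e0.symm G0
    have hmain : 𝓐.mem n0 H := by
      by_contra hH
      have hH' : (⟨n0, H⟩ : Gr) ∈ 𝒳 := hH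
      -- copies of the two pieces
      obtain ⟨h, ⟨f1⟩⟩ : ∃ n, Nonempty ((insert v Mᶜ : Set V) ≃ Fin n) := ⟨_, ⟨Fintype.equivFin _⟩⟩
      obtain ⟨k, ⟨f2⟩⟩ : ∃ n, Nonempty (M ≃ Fin n) := ⟨_, ⟨Fintype.equivFin _⟩⟩
      let XB : SimpleGraph (Fin h) := (G0.induce (insert v Mᶜ)).comap f1.symm
      let eB : XB ≃g G0.induce (insert v Mᶜ) := SimpleGraph.Iso.comap f1.symm _
      let XK : SimpleGraph (Fin k) := (G0.induce M).comap f2.symm
      let eK : XK ≃g G0.induce M := SimpleGraph.Iso.comap f2.symm _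
      have hXB : (⟨h, XB⟩ : Gr) ∉ 𝒳 := hIB h XB ⟨eB.toEmbedding⟩
      have hXK : (⟨k, XK⟩ : Gr) ∉ 𝒳 := hIK k XK ⟨eK.toEmbedding⟩
      obtain ⟨SB, hSB1, hSB2, hSB3⟩ := hA1 _ hXB
      obtain ⟨SK, hSK1, hSK2, hSK3⟩ := hA1 _ hXK
      have := ehp_of_subst F SB SK G0 M v hv hmod XB eB XK eK H eH hSB3 hSK3
      refine h𝒳1 _ ?_ ((hSB2.union hSK2).insert _) this
      rintro Y (rfl | hY | hY)
      · exact hH'
      · exact hSB1 hY
      · exact hSK1 hY
    intro m K hK
    obtain ⟨f⟩ := hK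
    exact 𝓐.closed m n0 K H hmain ⟨f.trans eH.symm.toEmbedding⟩
  · intro S hSf hS
    exact h𝒳1 S (fun X hX => not_not.1 (hS X hX)) hSf

end Pool.Agent.Lib.MP_18a3c4_co
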