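import Pool.Agent.Lib.MP_18a3c4_co.Giant
import Pool.Agent.Lib.MP_18a3c4_co.SubClass
import Pool.Agent.Lib.MP_18a3c4_co.GraphonPart
import Pool.Agent.Lib.MP_18a3c4_co.Rodl
import Pool.Agent.Lib.MP_18a3c4_co.EHPure
import Pool.Agent.Lib.MP_18a3c4_co.Patterns

/-!
Assembly: every hereditary class in `WR` has the Erdős–Hajnal property.
-/

namespace Pool.Agent.Lib.MP_18a3c4_co

open Classical in
theorem sparse_pair {M M' : ℕ} {ε : ℝ} (hε : 0 < ε)
    (hcp : ∀ (V : Type) [Fintype V] (G : SimpleGraph V) (μ : V → ℝ), Coherent G μ ε →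
      ∑ x, μ x = 1 → ∃ j, M ≤ j ∧ j ≤ M' ∧ (HasHole G j ∨ ∃ α β, HasT G j α β))
    {K : ℝ} (hK : 0 < K) {V : Type} [Fintype V] [Nonempty V] (G : SimpleGraph V) (μ : V → ℝ)
    (h0 : ∀ x, 0 ≤ μ x) (h1 : ∑ x, μ x = 1) (h2 : ∀ x, μ x ≤ K / Fintype.card V)
    (h3 : (∑ x, ∑ y, (if G.Adj x y then μ x * μ y else 0)) ≤ ε / 16)
    (hn : 4 * K / ε ≤ Fintype.card V)
    (hno : ∀ j, M ≤ j → j ≤ M' → ¬ HasHole G j ∧ ∀ α β, ¬ HasT G j α β) :
    ∃ A B : Finset V, Disjoint A B ∧ (∀ a ∈ A, ∀ b ∈ B, ¬ G.Adj a b) ∧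
      ε / (2 * K) * Fintype.card V ≤ A.card ∧ ε / (2 * K) * Fintype.card V ≤ B.card := by
  obtain ⟨n, hndef⟩ : ∃ n : ℝ, n = (Fintype.card V : ℝ) := ⟨_, rfl⟩
  rw [← hndef] at h2 hn ⊢
  have hnpos : 0 < n := by
    rw [hndef]
    exact_mod_cast Fintype.card_pos
  set d : V → ℝ := fun x => ∑ y, (if G.Adj x y then μ y else 0) with hd
  have hd0 : ∀ x, 0 ≤ d x := by
    intro x
    refine Finset.sum_nonneg fun y _ => ?_
    split_ifs
    · exact h0 y
    · exact le_rfl
  have hsum : ∑ x, μ x * d x ≤ ε / 16 := by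
    refine le_trans (le_of_eq ?_) h3
    refine Finset.sum_congr rfl fun x _ => ?_
    simp only [hd, Finset.mul_sum]
    refine Finset.sum_congr rfl fun y _ => ?_
    split_ifs <;> simp
  set good : Finset V := Finset.univ.filter fun x => d x ≤ ε / 4 with hgood
  set g : ℝ := ∑ x ∈ good, μ x with hg
  have hbad : ∑ x ∈ Finset.univ \ good, μ x ≤ 1 / 4 := by
    have h4 : ∑ x ∈ Finset.univ \ good, μ x * (ε / 4) ≤ ∑ x, μ x * d x := by
      refine (Finset.sum_le_sum fun x hx => ?_).trans
        (Finset.sum_le_sum_of_subset_of_nonneg (Finset.subset_univ (Finset.univ \ good))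
          fun x _ _ => mul_nonneg (h0 x) (hd0 x))
      have hx' : ¬ d x ≤ ε / 4 := by
        intro h
        exact (Finset.mem_sdiff.1 hx).2 (by simp [hgood, h])
      exact mul_le_mul_of_nonneg_left (not_le.1 hx').le (h0 x)
    rw [← Finset.sum_mul] at h4
    have h5 : (∑ x ∈ Finset.univ \ good, μ x) * (ε / 4) ≤ ε / 16 := h4.trans hsum
    by_contra hne
    push Not at hne
    nlinarith
  have hg1 : 1 / 2 ≤ g := by
    have := Finset.sum_sdiff (Finset.subset_univ good) (f := μ)
    rw [h1] at this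
    linarith
  have hgpos : 0 < g := by linarith
  have hKn : K / n ≤ ε / 4 := by
    rw [div_le_iff₀ hnpos]
    rw [div_le_iff₀ hε] at hn
    nlinarith
  -- coherence fails
  have hnc : ¬ Coherent (sg G good) (fun x => μ x.1 / g) ε := by
    intro hc
    obtain ⟨j, hj1, hj2, hj3⟩ := hcp _ (sg G good) _ hc (by
      have := Finset.sum_coe_sort good (fun x => μ x / g)
      rw [this, ← Finset.sum_div, ← hg, div_self hgpos.ne'])
    rcases hj3 with hj3 | ⟨α, β, hj3⟩
    · exact (hno j hj1 hj2).1 hj3.of_sg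
    · exact (hno j hj1 hj2).2 α β hj3.of_sg
  have hA : ∃ A B : Finset {x // x ∈ good}, Disjoint A B ∧
      (∀ a ∈ A, ∀ b ∈ B, ¬ (sg G good).Adj a b) ∧ ε ≤ ∑ x ∈ A, μ x.1 / g ∧
      ε ≤ ∑ x ∈ B, μ x.1 / g := by
    by_contra hne
    push Not at hne
    apply hnc
    refine ⟨fun v => div_nonneg (h0 _) hgpos.le, ?_, ?_⟩
    · intro v
      let F : V → ℝ := fun y => (if y = v.1 then μ y / g else 0) +
        (if G.Adj v.1 y then μ y / g else 0)
      have hF0 : ∀ y, 0 ≤ F y := by
        intro y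
        have := div_nonneg (h0 y) hgpos.le
        simp only [F]
        split_ifs <;> linarith
      have hle : (∑ x : {x // x ∈ good}, if x = v ∨ (sg G good).Adj v x then μ x.1 / g else 0)
          ≤ ∑ x : {x // x ∈ good}, F x.1 := by
        refine Finset.sum_le_sum fun x _ => ?_
        have hx := div_nonneg (h0 x.1) hgpos.le
        by_cases h4 : x = v
        · subst h4
          simp [F]
        · have h4' : x.1 ≠ v.1 := fun e => h4 (Subtype.ext e)
          by_cases h5 : G.Adj v.1 x.1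
          · simp only [F, h4', h5, if_true, if_false, zero_add]
            split_ifs <;> linarith
          · have h5' : ¬ (sg G good).Adj v x := h5
            simp only [F, h4, h4', h5, h5', if_false, or_self, zero_add, le_refl]
      have hle2 : ∑ x : {x // x ∈ good}, F x.1 ≤ ∑ x, F x := by
        rw [Finset.sum_coe_sort good F]
        exact Finset.sum_le_sum_of_subset_of_nonneg (Finset.subset_univ _) fun x _ _ => hF0 x
      have hF : ∑ x, F x = (μ v.1 + d v.1) / g := by
        simp only [F, Finset.sum_add_distrib, Finset.sum_ite_eq', Finset.mem_univ, if_true, hd,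
          add_div, Finset.sum_div]
        congr 1
        refine Finset.sum_congr rfl fun y _ => ?_
        split_ifs <;> simp
      have hv1 : μ v.1 ≤ ε / 4 := (h2 v.1).trans hKn
      have hv2 : d v.1 ≤ ε / 4 :=
        (Finset.mem_filter.1 (show v.1 ∈ Finset.univ.filter fun x => d x ≤ ε / 4 from v.2)).2
      have hfin : (μ v.1 + d v.1) / g ≤ ε := by
        rw [div_le_iff₀ hgpos]
        nlinarith
      have := hle.trans (hle2.trans (hF.le.trans hfin))
      refine le_trans (le_of_eq (Finset.sum_congr rfl fun x _ => ?_)) this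
      congr
    · intro A B hd' hadj
      by_contra hne2
      push Not at hne2
      obtain ⟨a, ha⟩ := hne2
      have := hne A B hd' (fun a ha b hb h => hadj a ha b hb h) a
      linarith
  obtain ⟨A, B, hdisj, hanti, hA, hB⟩ := hA
  have hcard : ∀ C : Finset {x // x ∈ good}, ε ≤ ∑ x ∈ C, μ x.1 / g →
      ε / (2 * K) * n ≤ (C.map (Function.Embedding.subtype _)).card := by
    intro C hC
    rw [Finset.card_map]
    have h4 : ∑ x ∈ C, μ x.1 / g ≤ ∑ _x ∈ C, (2 * K / n) := by
      refine Finset.sum_le_sum fun x _ => ?_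
      rw [div_le_iff₀ hgpos]
      have h5 := h2 x.1
      have h6 : 2 * K / n * g = K / n * (2 * g) := by ring
      rw [h6]
      have h7 : 0 ≤ K / n := by positivity
      nlinarith
    rw [Finset.sum_const, nsmul_eq_mul] at h4
    have h8 := hC.trans h4
    rw [div_mul_eq_mul_div, div_le_iff₀ (by positivity)]
    have h9 : (C.card : ℝ) * (2 * K / n) * n = C.card * (2 * K) := by
      field_simp
    nlinarith
  refine ⟨A.map (Function.Embedding.subtype _), B.map (Function.Embedding.subtype _),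
    (Finset.disjoint_map _).2 hdisj, ?_, hcard A hA, hcard B hB⟩
  intro a ha b hb
  obtain ⟨a', ha', rfl⟩ := Finset.mem_map.1 ha
  obtain ⟨b', hb', rfl⟩ := Finset.mem_map.1 hb
  exact hanti a' ha' b' hb'

/-- The pattern graphs as one family. -/
def pat (cyc : ∀ j : ℕ, SimpleGraph (Fin j))
    (T : ∀ (_α _β : Bool) (k : ℕ), SimpleGraph (Fin (k + 3))) :
    Bool × Option (Bool × Bool) → ℕ → Σ n : ℕ, SimpleGraph (Fin n)
  | (false, none), j => ⟨j, cyc j⟩
  | (true, none), j => ⟨j, (cyc j)ᶜ⟩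
  | (false, some (α, β)), j => ⟨j + 3, T α β j⟩
  | (true, some (α, β)), j => ⟨j + 3, (T α β j)ᶜ⟩

theorem compl_embed {V W : Type} {G : SimpleGraph V} {H : SimpleGraph W}
    (h : Nonempty (G ↪g H)) : Nonempty (Gᶜ ↪g Hᶜ) := by
  obtain ⟨e⟩ := h
  exact ⟨SimpleGraph.Embedding.complEquiv e⟩

theorem compl_embed_iff {V W : Type} {G : SimpleGraph V} {H : SimpleGraph W} :
    Nonempty (Gᶜ ↪g Hᶜ) ↔ Nonempty (G ↪g H) := by
  refine ⟨fun h => ?_, compl_embed⟩
  have := compl_embed h
  rwa [compl_compl, compl_compl] at this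

theorem embed_compl {V W : Type} {G : SimpleGraph V} {H : SimpleGraph W}
    (h : Nonempty (G ↪g Hᶜ)) : Nonempty (Gᶜ ↪g H) := by
  have := compl_embed h
  rwa [compl_compl] at this

open Classical in
theorem ehp_avoid (cyc : ∀ j : ℕ, SimpleGraph (Fin j))
    (T : ∀ (_α _β : Bool) (k : ℕ), SimpleGraph (Fin (k + 3)))
    (hce : ∀ (V : Type) (G : SimpleGraph V) (j : ℕ), 5 ≤ j → HasHole G j → Nonempty (cyc j ↪g G))
    (hte : ∀ (V : Type) (G : SimpleGraph V) (k : ℕ) (α β : Bool), 12 ≤ k → HasT G k α β →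
        Nonempty (T α β k ↪g G)) (F : HereditaryClass) (M : ℕ) (hM : 12 ≤ M) :
    ∃ M', EHP (avoid F ((fun t : (Bool × Option (Bool × Bool)) × ℕ => pat cyc T t.1 t.2) ''
      (Set.univ ×ˢ Set.Icc M M'))) := by
  obtain ⟨M1, ε, hε, hcp⟩ := coherent_pattern M
  obtain ⟨K, hK, hrodl⟩ := rodl_measure (cyc M) (ε / 16) (by positivity)
  obtain ⟨n1, hn1⟩ := exists_nat_gt (4 * K / ε)
  refine ⟨max M M1, ?_⟩
  set S := (fun t : (Bool × Option (Bool × Bool)) × ℕ => pat cyc T t.1 t.2) ''
      (Set.univ ×ˢ Set.Icc M (max M M1)) with hS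
  have hmem : ∀ τ j, M ≤ j → j ≤ max M M1 → pat cyc T τ j ∈ S := by
    intro τ j h1 h2
    exact ⟨(τ, j), ⟨Set.mem_univ _, h1, h2⟩, rfl⟩
  have hn1pos : (0 : ℝ) < n1 := lt_trans (by positivity) hn1
  refine ehp_of_pure_pairs _ (min (1 / n1) (ε / (2 * K))) (lt_min (by positivity) (by positivity))
    ?_
  intro n G hn hG
  obtain ⟨hGF, hGS⟩ := hG
  have hnpos : (0 : ℝ) < n := by
    have : 0 < n := by omega
    exact_mod_cast this
  by_cases hsmall : n < n1
  · -- single vertices
    have hle : min (1 / (n1 : ℝ)) (ε / (2 * K)) * n ≤ 1 := by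
      have h1 : (n : ℝ) ≤ n1 := by exact_mod_cast hsmall.le
      calc min (1 / (n1 : ℝ)) (ε / (2 * K)) * n ≤ 1 / (n1 : ℝ) * n :=
            mul_le_mul_of_nonneg_right (min_le_left _ _) hnpos.le
        _ ≤ 1 := by
            rw [div_mul_eq_mul_div, one_mul, div_le_one hn1pos]
            exact h1
    let a : Fin n := ⟨0, by omega⟩
    let b : Fin n := ⟨1, by omega⟩
    have hab : a ≠ b := by
      intro h
      have := congrArg Fin.val h
      simp [a, b] at this
    refine ⟨{a}, {b}, by simpa using hab, by simp, by simp, by simpa using hle,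
      by simpa using hle, ?_⟩
    by_cases hadj : G.Adj a b
    · left
      simpa using hadj
    · right
      simpa using hadj
  · -- large graphs
    push Not at hsmall
    have : Nonempty (Fin n) := ⟨⟨0, by omega⟩⟩
    have hlarge : 4 * K / ε ≤ Fintype.card (Fin n) := by
      rw [Fintype.card_fin]
      exact hn1.le.trans (by exact_mod_cast hsmall)
    obtain ⟨μ, hμ0, hμ1, hμ2, hμ3⟩ := hrodl (Fin n) G (by
      have := hGS _ (hmem (false, none) M le_rfl (le_max_left _ _))
      exact this)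
    have hA0 : ∀ A : Finset (Fin n), ε / (2 * K) * n ≤ A.card → A.Nonempty := by
      intro A hA
      rw [Finset.nonempty_iff_ne_empty]
      rintro rfl
      have : 0 < ε / (2 * K) * n := by positivity
      simp at hA
      linarith
    have hmin : min (1 / (n1 : ℝ)) (ε / (2 * K)) * n ≤ ε / (2 * K) * n :=
      mul_le_mul_of_nonneg_right (min_le_right _ _) hnpos.le
    rcases hμ3 with hμ3 | hμ3
    · obtain ⟨A, B, hAB, hanti, hA, hB⟩ := sparse_pair hε hcp hK G μ hμ0 hμ1 hμ2 hμ3 hlarge (by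
        intro j hj1 hj2
        constructor
        · intro hh
          exact hGS _ (hmem (false, none) j hj1 (hj2.trans (le_max_right _ _)))
            (hce _ G j (by omega) hh)
        · intro α β hh
          exact hGS _ (hmem (false, some (α, β)) j hj1 (hj2.trans (le_max_right _ _)))
            (hte _ G j α β (by omega) hh))
      rw [Fintype.card_fin] at hA hB
      exact ⟨A, B, hAB, hA0 A hA, hA0 B hB, hmin.trans hA, hmin.trans hB, Or.inr hanti⟩
    · obtain ⟨A, B, hAB, hanti, hA, hB⟩ := sparse_pair hε hcp hK Gᶜ μ hμ0 hμ1 hμ2 (by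
        refine le_trans (le_of_eq ?_) hμ3
        refine Finset.sum_congr rfl fun x _ => Finset.sum_congr rfl fun y _ => ?_
        by_cases h : x ≠ y ∧ ¬ G.Adj x y
        · rw [if_pos h, if_pos ((SimpleGraph.compl_adj G x y).2 h)]
        · rw [if_neg h, if_neg (fun h' => h ((SimpleGraph.compl_adj G x y).1 h'))]) hlarge (by
        intro j hj1 hj2
        constructor
        · intro hh
          exact hGS _ (hmem (true, none) j hj1 (hj2.trans (le_max_right _ _)))
            (embed_compl (hce _ Gᶜ j (by omega) hh))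
        · intro α β hh
          exact hGS _ (hmem (true, some (α, β)) j hj1 (hj2.trans (le_max_right _ _)))
            (embed_compl (hte _ Gᶜ j α β (by omega) hh)))
      rw [Fintype.card_fin] at hA hB
      refine ⟨A, B, hAB, hA0 A hA, hA0 B hB, hmin.trans hA, hmin.trans hB, Or.inl ?_⟩
      intro a ha b hb
      have hab : a ≠ b := fun e => Finset.disjoint_left.1 hAB ha (e ▸ hb)
      by_contra hadj
      exact hanti a ha b hb ((SimpleGraph.compl_adj G a b).2 ⟨hab, hadj⟩)

/-- Main theorem: `WR` implies the Erdős–Hajnal property. -/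
theorem main (F : HereditaryClass) (hF : WR F) : EHP F := by
  classical
  by_contra hne
  obtain ⟨𝓐, hsub, hmod, hfin⟩ := exists_moduleClosed F hne
  obtain ⟨cyc, T, hcp, hca, htp, hta, hce, hte⟩ := patterns_exist
  -- patterns of all sizes
  have h1 : ∀ M, 12 ≤ M → ∃ j, M ≤ j ∧ ∃ τ, 𝓐.mem (pat cyc T τ j).1 (pat cyc T τ j).2 := by
    intro M hM
    obtain ⟨M', hM'⟩ := ehp_avoid cyc T hce hte F M hM
    by_contra hcon
    push Not at hcon
    refine hfin _ ?_ ?_ hM'
    · exact Set.Finite.image _ (Set.finite_univ.prod (Set.finite_Icc _ _))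
    · rintro X ⟨⟨τ, j⟩, ⟨_, hj1, _⟩, rfl⟩
      exact hcon j hj1 τ
  -- one type occurs infinitely often
  have h2 : ∃ τ, ∀ M, ∃ j, M ≤ j ∧ 12 ≤ j ∧ 𝓐.mem (pat cyc T τ j).1 (pat cyc T τ j).2 := by
    by_contra hcon
    push Not at hcon
    choose m hm using hcon
    obtain ⟨j, hj, τ, hτ⟩ := h1 (max 12 (Finset.univ.sup m)) (le_max_left _ _)
    refine hm τ j ?_ ((le_max_left _ _).trans hj) hτ
    exact (Finset.le_sup (Finset.mem_univ τ)).trans ((le_max_right _ _).trans hj)
  obtain ⟨τ, hτ⟩ := h2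
  -- strictly increasing sequence
  choose nx hnx1 hnx2 hnx3 using hτ
  let js : ℕ → ℕ := fun b => Nat.rec (nx 0) (fun _ j => nx (j + 1)) b
  have hjs : ∀ b, 12 ≤ js b ∧ 𝓐.mem (pat cyc T τ (js b)).1 (pat cyc T τ (js b)).2 := by
    intro b
    cases b with
    | zero => exact ⟨hnx2 0, hnx3 0⟩
    | succ b => exact ⟨hnx2 _, hnx3 _⟩
  have hmono : StrictMono js := by
    refine strictMono_nat_of_lt_succ fun b => ?_
    have := hnx1 (js b + 1)
    show js b < nx (js b + 1)
    omega
  refine not_WR_of_antichain F 𝓐 hsub hmod (fun b => (pat cyc T τ (js b)).1) ?_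
    (fun b => (pat cyc T τ (js b)).2) (fun b => (hjs b).2) ?_ ?_ hF
  · intro b
    have h12 := (hjs b).1
    rcases τ with ⟨_ | _, _ | ⟨α, β⟩⟩ <;> simp only [pat] <;> omega
  · intro b
    have h12 := (hjs b).1
    rcases τ with ⟨_ | _, _ | ⟨α, β⟩⟩ <;> simp only [pat]
    · exact (hcp _ (by omega)).1
    · exact (htp α β _ h12).1
    · exact (hcp _ (by omega)).2
    · exact (htp α β _ h12).2
  · intro b b' hbb
    have h12 := (hjs b).1
    have hlt := hmono hbb
    rcases τ with ⟨_ | _, _ | ⟨α, β⟩⟩ <;> simp only [pat]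
    · exact hca _ _ (by omega) hlt
    · exact hta α β _ _ h12 hlt
    · rw [compl_embed_iff]
      exact hca _ _ (by omega) hlt
    · rw [compl_embed_iff]
      exact hta α β _ _ h12 hlt

end Pool.Agent.Lib.MP_18a3c4_co
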