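import Pool.Agent.Lib.MP_18a3c4_co.Mass

/-!
Case 1 of the coherent pattern theorem: all large sets contain a ball of large mass.
-/

namespace Pool.Agent.Lib.MP_18a3c4_co

section paths

variable {V : Type} {G : SimpleGraph V}

theorem IsIndPath.concat {z a : ℕ → V} {k l : ℕ} (hz : IsIndPath G z k) (ha : IsIndPath G a l)
    (h0 : z k = a 0)
    (hne : ∀ i < k, ∀ j, 1 ≤ j → j ≤ l → z i ≠ a j ∧ ¬ G.Adj (z i) (a j)) :
    IsIndPath G (fun n => if n ≤ k then z n else a (n - k)) (k + l) := by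
  intro i hi j hj
  by_cases h1 : i ≤ k
  · by_cases h2 : j ≤ k
    · simp only [h1, h2, if_true]
      exact hz i h1 j h2
    · simp only [h1, h2, if_true, if_false]
      by_cases h3 : i = k
      · subst h3
        rw [h0]
        have := ha 0 (by omega) (j - i) (by omega)
        refine ⟨fun e => ?_, ?_⟩
        · have := this.1 e
          omega
        · rw [this.2]
          omega
      · obtain ⟨h4, h5⟩ := hne i (by omega) (j - k) (by omega) (by omega)
        refine ⟨fun e => absurd e h4, ?_⟩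
        refine ⟨fun e => absurd e h5, fun e => ?_⟩
        omega
  · by_cases h2 : j ≤ k
    · simp only [h1, h2, if_true, if_false]
      by_cases h3 : j = k
      · subst h3
        rw [h0]
        have := ha (i - j) (by omega) 0 (by omega)
        refine ⟨fun e => ?_, ?_⟩
        · have := this.1 e
          omega
        · rw [this.2]
          omega
      · obtain ⟨h4, h5⟩ := hne j (by omega) (i - k) (by omega) (by omega)
        refine ⟨fun e => absurd e.symm h4, ?_⟩
        refine ⟨fun e => absurd e.symm h5, fun e => ?_⟩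
        omega
    · simp only [h1, h2, if_false]
      have := ha (i - k) (by omega) (j - k) (by omega)
      refine ⟨fun e => ?_, ?_⟩
      · have := this.1 e
        omega
      · rw [this.2]
        omega

theorem IsIndPath.single {x y : V} (h : G.Adj x y) :
    IsIndPath G (fun n => if n = 0 then x else y) 1 := by
  intro i hi j hj
  have hi' : i = 0 ∨ i = 1 := by omega
  have hj' : j = 0 ∨ j = 1 := by omega
  rcases hi' with rfl | rfl <;> rcases hj' with rfl | rfl <;>
    simp [h, h.symm, h.ne, h.ne.symm]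

theorem IsIndPath.snoc {z : ℕ → V} {k : ℕ} (hz : IsIndPath G z k) {y : V}
    (hadj : G.Adj (z k) y) (hne : ∀ i < k, z i ≠ y ∧ ¬ G.Adj (z i) y) :
    IsIndPath G (fun n => if n ≤ k then z n else y) (k + 1) := by
  have := hz.concat (IsIndPath.single hadj) (by simp) (by
    intro i hi j hj1 hj2
    have : j ≠ 0 := by omega
    simpa [this] using hne i hi)
  intro i hi j hj
  have h1 := this i hi j hj
  have e : ∀ n ≤ k + 1, (if n ≤ k then z n else if n - k = 0 then z k else y) =
      (if n ≤ k then z n else y) := by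
    intro n _
    by_cases h : n ≤ k
    · simp [h]
    · have : n - k ≠ 0 := by omega
      simp only [h, this, if_false]
  simp only [e i hi, e j hj] at h1
  exact h1

end paths

variable {V : Type} [Fintype V] {G : SimpleGraph V} {μ : V → ℝ} {ε : ℝ}

/-- The connected set `K` with a closed neighbourhood of prescribed mass. -/
theorem exists_window_ball (h : Coherent G μ ε) {u : V} {κ : ℝ} (hκ : ε < κ) (n : ℕ)
    (hn : κ ≤ wt μ (cNs G (ball G Finset.univ u n))) :
    ∃ K : Finset V, κ ≤ wt μ (cNs G K) ∧ wt μ (cNs G K) < κ + ε ∧ DiamLe G K (2 * n) := by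
  classical
  have hex : ∃ j, κ ≤ wt μ (cNs G (ball G Finset.univ u j)) := ⟨n, hn⟩
  have hle : Nat.find hex ≤ n := Nat.find_min' hex hn
  have hspec := Nat.find_spec hex
  have hmin : ∀ m < Nat.find hex, ¬ κ ≤ wt μ (cNs G (ball G Finset.univ u m)) :=
    fun m hm => Nat.find_min hex hm
  obtain ⟨j, hj⟩ : ∃ j, Nat.find hex = j + 1 := by
    rcases Nat.eq_zero_or_pos (Nat.find hex) with h0 | h0
    · exfalso
      rw [h0] at hspec
      have h1 : cNs G (ball G Finset.univ u 0) ⊆ cN G u := by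
        intro x hx
        obtain ⟨v, hv, hvx⟩ := mem_cNs.1 hx
        have : v = u := by simpa [ball] using hv
        subst this
        exact mem_cN.2 hvx
      have h2 := h.wt_mono h1
      have h3 := h.wt_cN u
      linarith
    · exact ⟨Nat.find hex - 1, by omega⟩
  rw [hj] at hspec hle hmin
  have hlt := hmin j (Nat.lt_succ_self j)
  push Not at hlt
  obtain ⟨Y, hY, hY1, hY2⟩ := exists_subset_window
    (fun S => wt μ (cNs G (ball G Finset.univ u j ∪ S))) (ball G Finset.univ u (j + 1)) κ ε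
    (by
      intro S x
      have := h.wt_insert_le (ball G Finset.univ u j ∪ S) x
      rwa [← Finset.union_insert] at this)
    (by simpa using hlt)
    (hspec.trans (h.wt_mono (by
      intro x hx
      obtain ⟨v, hv, hx⟩ := mem_cNs.1 hx
      exact mem_cNs.2 ⟨v, Finset.mem_union_right _ hv, hx⟩)))
  refine ⟨ball G Finset.univ u j ∪ Y, hY1, hY2, ?_⟩
  have hw : ∀ x ∈ ball G Finset.univ u j ∪ Y,
      Within G (↑(ball G Finset.univ u j ∪ Y) : Set V) (j + 1) u x := by
    intro x hx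
    have hsub : (↑(ball G Finset.univ u j) : Set V) ⊆ ↑(ball G Finset.univ u j ∪ Y) :=
      Finset.coe_subset.2 Finset.subset_union_left
    by_cases hxb : x ∈ ball G Finset.univ u j
    · exact (ball_within hxb).mono hsub (Nat.le_succ _)
    · have hxY : x ∈ Y := by
        rcases Finset.mem_union.1 hx with h1 | h1
        · exact absurd h1 hxb
        · exact h1
      have h2 := hY hxY
      simp only [ball, Finset.mem_union, Finset.mem_filter] at h2
      rcases h2 with h2 | ⟨_, y, hy, hadj⟩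
      · exact absurd h2 hxb
      · exact ((ball_within hy).mono hsub le_rfl).trans
          (Within.single (hsub (Finset.mem_coe.2 hy)) (Finset.mem_coe.2 hx) hadj)
  intro x hx y hy
  exact ((hw x hx).symm.trans (hw y hy)).mono subset_rfl (by omega)

/-- The growing step. -/
theorem grow_step (h : Coherent G μ ε) (hε : 0 < ε) {r : ℕ}
    (hD : ∀ W : Finset V, 1 / 2 ≤ wt μ W → ∃ D ⊆ W, wt μ W - ε < wt μ D ∧ DiamLe G D r)
    {z : ℕ → V} {k : ℕ} {B : Finset V} (hz : IsIndPath G z k)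
    (hzB : ∀ i ≤ k, z i ∉ B) (hanti : ∀ i < k, ∀ b ∈ B, ¬ G.Adj (z i) b)
    (hadj : ∃ b ∈ B, G.Adj (z k) b) (hdiam : DiamLe G B r)
    (hwt : 1 / 2 + 2 * ε ≤ wt μ B) (hε' : ε ≤ 1 / 4) :
    ∃ (z' : ℕ → V) (k' : ℕ) (B' : Finset V), k + 1 ≤ k' ∧ k' ≤ k + r ∧ IsIndPath G z' k' ∧
      (∀ i ≤ k, z' i = z i) ∧ (∀ i, k < i → i ≤ k' → z' i ∈ B) ∧ B' ⊆ B ∧
      (∀ i ≤ k', z' i ∉ B') ∧ (∀ i < k', ∀ b ∈ B', ¬ G.Adj (z' i) b) ∧
      (∃ b ∈ B', G.Adj (z' k') b) ∧ DiamLe G B' r ∧ wt μ B - 2 * ε ≤ wt μ B' := by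
  classical
  have hW : wt μ B - ε ≤ wt μ (B \ cN G (z k)) := by
    have h1 := h.wt_sdiff_le B (cN G (z k))
    have h2 := h.wt_cN (z k)
    linarith
  obtain ⟨B', hB'W, hB'wt, hB'd⟩ := hD (B \ cN G (z k)) (by linarith)
  have hB'B : B' ⊆ B := hB'W.trans Finset.sdiff_subset
  have hB'z : ∀ b ∈ B', ¬ G.Adj (z k) b := by
    intro b hb hadj
    exact (Finset.mem_sdiff.1 (hB'W hb)).2 (mem_cN.2 (Or.inr hadj))
  have hne : B'.Nonempty := by
    rw [Finset.nonempty_iff_ne_empty]
    rintro rfl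
    have : wt μ (∅ : Finset V) = 0 := by simp [wt]
    linarith
  obtain ⟨b', hb'⟩ := hne
  obtain ⟨b0, hb0, hzb0⟩ := hadj
  obtain ⟨w, n, hn, hw0, hwn, hwk, hwB⟩ := hdiam b0 hb0 b' (hB'B hb')
  -- the walk from z k
  have hmw := exists_min_walk (G := G) (↑B : Set V) (fun v => ∃ b ∈ B', G.Adj v b) (z k) r (by
    by_cases hn0 : n = 0
    · subst hn0
      exact absurd hzb0 (by rw [← hw0, hwn]; exact hB'z b' hb')
    · refine ⟨fun i => if i = 0 then z k else w (i - 1), n, hn, by simp, ?_, ?_, ?_⟩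
      · intro i hi
        by_cases hi0 : i = 0
        · subst hi0
          simp [hw0, hzb0]
        · have h1 : i + 1 ≠ 0 := by omega
          simp only [hi0, h1, if_false]
          have := hwk (i - 1) (by omega)
          have e : i - 1 + 1 = i + 1 - 1 := by omega
          rwa [e] at this
      · intro i hi1 hi2
        have h1 : i ≠ 0 := by omega
        simp only [h1, if_false]
        exact hwB _ (by omega)
      · refine ⟨b', hb', ?_⟩
        simp only [hn0, if_false]
        have := hwk (n - 1) (by omega)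
        have e : n - 1 + 1 = n := by omega
        rwa [e, hwn] at this)
  obtain ⟨a, l, hl, ha0, ha, haB, haT, hamin⟩ := hmw
  have hl1 : 1 ≤ l := by
    by_contra hl0
    have : l = 0 := by omega
    subst this
    obtain ⟨b, hb, hadj⟩ := haT
    rw [ha0] at hadj
    exact hB'z b hb hadj
  have haB' : ∀ i, 1 ≤ i → i ≤ l → a i ∉ B' := by
    intro i hi1 hi2 hmem
    refine hamin (i - 1) (by omega) ⟨a i, hmem, ?_⟩
    exact (ha (i - 1) (by omega) i hi2).2.2 (Or.inl (by omega))
  refine ⟨fun n => if n ≤ k then z n else a (n - k), k + l, B', by omega, by omega,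
    hz.concat ha ha0.symm ?_, ?_, ?_, hB'B, ?_, ?_, ?_, hB'd, by linarith⟩
  · intro i hi j hj1 hj2
    refine ⟨fun e => ?_, hanti i hi _ (haB j hj1 hj2)⟩
    exact hzB i (by omega) (e ▸ haB j hj1 hj2)
  · intro i hi
    simp [hi]
  · intro i hi1 hi2
    have : ¬ i ≤ k := by omega
    simp only [this, if_false]
    exact haB _ (by omega) (by omega)
  · intro i hi
    by_cases h1 : i ≤ k
    · simp only [h1, if_true]
      exact fun hmem => hzB i h1 (hB'B hmem)
    · simp only [h1, if_false]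
      exact haB' _ (by omega) (by omega)
  · intro i hi b hb
    by_cases h1 : i ≤ k
    · simp only [h1, if_true]
      by_cases h2 : i = k
      · subst h2
        exact hB'z b hb
      · exact hanti i (by omega) b (hB'B hb)
    · simp only [h1, if_false]
      intro hadj
      exact hamin (i - k) (by omega) ⟨b, hb, hadj⟩
  · have h1 : ¬ k + l ≤ k := by omega
    have e : k + l - k = l := by omega
    simp only [h1, if_false, e]
    exact haT

/-- Growing for `m` steps. -/
theorem grow (h : Coherent G μ ε) (hε : 0 < ε) (hε' : ε ≤ 1 / 4) {r : ℕ}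
    (hD : ∀ W : Finset V, 1 / 2 ≤ wt μ W → ∃ D ⊆ W, wt μ W - ε < wt μ D ∧ DiamLe G D r)
    {z0 : V} {B0 : Finset V} (hz0 : z0 ∉ B0)
    (hadj : ∃ b ∈ B0, G.Adj z0 b) (hdiam : DiamLe G B0 r) (m : ℕ)
    (hwt : 1 / 2 + 2 * ε + 2 * m * ε ≤ wt μ B0) :
    ∃ (z : ℕ → V) (k : ℕ) (B : Finset V), m ≤ k ∧ k ≤ r * m ∧ IsIndPath G z k ∧
      z 0 = z0 ∧ (∀ i, 0 < i → i ≤ k → z i ∈ B0) ∧ B ⊆ B0 ∧
      (∀ i ≤ k, z i ∉ B) ∧ (∀ i < k, ∀ b ∈ B, ¬ G.Adj (z i) b) ∧
      (∃ b ∈ B, G.Adj (z k) b) ∧ DiamLe G B r ∧ wt μ B0 - 2 * m * ε ≤ wt μ B := by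
  induction m with
  | zero =>
    refine ⟨fun _ => z0, 0, B0, le_rfl, by simp, ?_, rfl, ?_, subset_rfl, ?_, ?_, ?_, hdiam, ?_⟩
    · intro i hi j hj
      have h1 : i = 0 := by omega
      have h2 : j = 0 := by omega
      subst h1; subst h2
      simp
    · intro i hi1 hi2
      omega
    · intro i _
      exact hz0
    · intro i hi
      omega
    · exact hadj
    · simp
  | succ m ih =>
    push_cast at hwt
    obtain ⟨z, k, B, h1, h2, h3, h4, h5, h6, h7, h8, h9, h10, h11⟩ := ih (by nlinarith)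
    obtain ⟨z', k', B', g1, g2, g3, g4, g5, g6, g7, g8, g9, g10, g11⟩ :=
      grow_step h hε hD h3 h7 h8 h9 h10 (by nlinarith) hε'
    refine ⟨z', k', B', by omega, ?_, g3, ?_, ?_, g6.trans h6, g7, g8, g9, g10, ?_⟩
    · have : r * (m + 1) = r * m + r := by ring
      omega
    · rw [g4 0 (Nat.zero_le _), h4]
    · intro i hi1 hi2
      by_cases hik : i ≤ k
      · rw [g4 i hik]
        exact h5 i hi1 hik
      · exact h6 (g5 i (by omega) hi2)
    · push_cast
      linarith

/-- Case 1. -/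
theorem case_one (M ρ : ℕ) (h : Coherent G μ ε) (hsum : wt μ Finset.univ = 1) (hε : 0 < ε)
    (hε' : (2 * (ρ + 1) * M + 2 * M + 20 : ℝ) * ε ≤ 1 / 4)
    (hball : ∀ W : Finset V, 1 / 2 ≤ wt μ W → ∃ u ∈ W, ε ≤ wt μ (ball G W u ρ)) :
    ∃ j, M ≤ j ∧ j ≤ 2 * (ρ + 1) * M + 4 * (ρ + 1) + 10 ∧ HasHole G j := by
  classical
  set r := 2 * (ρ + 1) with hr
  have hrR : (r : ℝ) = 2 * (ρ + 1) := by rw [hr]; push_cast; ring
  rw [← hrR] at hε'
  have hM0 : (0 : ℝ) ≤ M := Nat.cast_nonneg _
  have hr0 : (0 : ℝ) ≤ r := Nat.cast_nonneg _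
  have hrM : (0 : ℝ) ≤ r * M * ε := by positivity
  have hMε : (0 : ℝ) ≤ M * ε := by positivity
  have hD : ∀ W : Finset V, 1 / 2 ≤ wt μ W →
      ∃ D ⊆ W, wt μ W - ε < wt μ D ∧ DiamLe G D r := by
    intro W hW
    obtain ⟨u, hu, hb⟩ := hball W hW
    exact h.of_ball hu hb
  set κ : ℝ := (r * M + 5) * ε with hκ
  -- the set K
  obtain ⟨u, hu, hub⟩ := hball Finset.univ (by rw [hsum]; norm_num)
  have hK : ∃ K : Finset V, κ ≤ wt μ (cNs G K) ∧ wt μ (cNs G K) < κ + ε ∧ DiamLe G K r := by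
    apply exists_window_ball h (u := u) (by rw [hκ]; nlinarith) (ρ + 1)
    have h1 : wt μ (Finset.univ \ ball G Finset.univ u (ρ + 1)) < ε := by
      by_contra hne
      push Not at hne
      obtain ⟨a, ha, b, hb', hadj⟩ := h.anti (A := ball G Finset.univ u ρ)
        (B := Finset.univ \ ball G Finset.univ u (ρ + 1))
        (Finset.disjoint_left.2 fun x hx hx' =>
          (Finset.mem_sdiff.1 hx').2 (ball_mono ρ hx)) hub hne
      obtain ⟨hbW, hbn⟩ := Finset.mem_sdiff.1 hb'
      apply hbn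
      simp only [ball, Finset.mem_union, Finset.mem_filter]
      exact Or.inr ⟨hbW, a, ha, hadj⟩
    rw [h.wt_sdiff (Finset.subset_univ _), hsum] at h1
    have h2 := h.wt_mono (subset_cNs (G := G) (S := ball G Finset.univ u (ρ + 1)))
    rw [hκ]
    nlinarith
  obtain ⟨K, hK1, hK2, hKd⟩ := hK
  set Z := Finset.univ \ cNs G K with hZ
  set Y := cNs G K \ K with hY
  have hZwt : wt μ Z = 1 - wt μ (cNs G K) := by
    rw [hZ, h.wt_sdiff (Finset.subset_univ _), hsum]
  have hKZ : ∀ a ∈ K, ∀ b ∈ Z, ¬ G.Adj a b := by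
    intro a ha b hb hadj
    exact (Finset.mem_sdiff.1 hb).2 (mem_cNs.2 ⟨a, ha, Or.inr hadj⟩)
  have hZbig : 1 / 2 + 2 * ε + 2 * M * ε + ε ≤ wt μ Z := by
    rw [hZwt]
    nlinarith
  have hKwt : wt μ K < ε := by
    have := h.2.2 K Z (Finset.disjoint_left.2 fun x hx hx' =>
      (Finset.mem_sdiff.1 hx').2 (subset_cNs hx)) hKZ
    rcases this with h1 | h1
    · exact h1
    · exfalso
      have h2 : wt μ Z < ε := h1
      nlinarith
  have hYwt : κ - ε ≤ wt μ Y := by
    have : wt μ Y = wt μ (cNs G K) - wt μ K := h.wt_sdiff subset_cNs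
    linarith
  -- the initial blob
  obtain ⟨B0, hB0Z, hB0wt, hB0d⟩ := hD Z (by nlinarith)
  have hYZ : ∀ y ∈ Y, y ∉ Z := by
    intro y hy hy'
    exact (Finset.mem_sdiff.1 hy').2 (Finset.mem_sdiff.1 hy).1
  have hYK : ∀ y ∈ Y, ∃ a ∈ K, G.Adj a y := by
    intro y hy
    obtain ⟨h1, h2⟩ := Finset.mem_sdiff.1 hy
    obtain ⟨v, hv, hvy⟩ := mem_cNs.1 h1
    rcases hvy with rfl | hvy
    · exact absurd hv h2
    · exact ⟨v, hv, hvy⟩
  obtain ⟨z0, hz0Y, b0, hb0, hz0b0⟩ := h.anti (A := Y) (B := B0)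
    (Finset.disjoint_left.2 fun x hx hx' => hYZ x hx (hB0Z hx')) (by nlinarith) (by nlinarith)
  obtain ⟨z, k, B, hMk, hkM, hz, hz0, hzB0, hBB0, hzB, hzanti, hzadj, hBd, hBwt⟩ :=
    grow h hε (by nlinarith) hD (z0 := z0) (B0 := B0) (fun hx => hYZ z0 hz0Y (hB0Z hx))
      ⟨b0, hb0, hz0b0⟩ hB0d M (by nlinarith)
  -- the other end
  have hkR : (k : ℝ) ≤ r * M := by exact_mod_cast hkM
  have hY'wt : ε ≤ wt μ (Y \ cNs G ((Finset.range (k + 1)).image z)) := by
    have h1 := h.wt_sdiff_le Y (cNs G ((Finset.range (k + 1)).image z))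
    have h2 := h.wt_path z (k + 1)
    push_cast at h2
    nlinarith
  obtain ⟨y, hyY', b, hb, hyb⟩ := h.anti (A := Y \ cNs G ((Finset.range (k + 1)).image z))
    (B := B) (Finset.disjoint_left.2 fun x hx hx' =>
      hYZ x (Finset.mem_sdiff.1 hx).1 (hB0Z (hBB0 hx'))) hY'wt (by nlinarith)
  obtain ⟨hyY, hyN⟩ := Finset.mem_sdiff.1 hyY'
  have hyz : ∀ i ≤ k, z i ≠ y ∧ ¬ G.Adj (z i) y := by
    intro i hi
    constructor
    · intro e
      exact hyN (mem_cNs.2 ⟨z i, Finset.mem_image.2 ⟨i, by simp; omega, rfl⟩, Or.inl e.symm⟩)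
    · intro e
      exact hyN (mem_cNs.2 ⟨z i, Finset.mem_image.2 ⟨i, by simp; omega, rfl⟩, Or.inr e⟩)
  obtain ⟨b1, hb1, hzb1⟩ := hzadj
  have hmw := exists_min_walk (G := G) (↑B : Set V) (fun v => G.Adj v y) (z k) (1 + r) (by
    obtain ⟨w, n, hn, hw0, hwn, hwk, hwB⟩ := hBd b1 hb1 b hb
    refine ⟨fun i => if i = 0 then z k else w (i - 1), n + 1, by omega, by simp, ?_, ?_, ?_⟩
    · intro i hi
      by_cases hi0 : i = 0
      · subst hi0
        simp [hw0, hzb1]
      · have h1 : i + 1 ≠ 0 := by omega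
        simp only [hi0, h1, if_false]
        have := hwk (i - 1) (by omega)
        have e : i - 1 + 1 = i + 1 - 1 := by omega
        rwa [e] at this
    · intro i hi1 hi2
      have h1 : i ≠ 0 := by omega
      simp only [h1, if_false]
      exact hwB _ (by omega)
    · have h1 : n + 1 ≠ 0 := by omega
      simp only [h1, if_false]
      have e : n + 1 - 1 = n := by omega
      rw [e, hwn]
      exact hyb.symm)
  obtain ⟨a, l, hl, ha0, ha, haB, haT, hamin⟩ := hmw
  have hl1 : 1 ≤ l := by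
    by_contra hl0
    have : l = 0 := by omega
    subst this
    rw [ha0] at haT
    exact (hyz k le_rfl).2 haT
  have hc := hz.concat ha ha0.symm (by
    intro i hi j hj1 hj2
    refine ⟨fun e => ?_, hzanti i hi _ (haB j hj1 hj2)⟩
    exact hzB i (by omega) (e ▸ haB j hj1 hj2))
  set q : ℕ → V := fun n => if n ≤ k then z n else a (n - k) with hq
  have hql : q (k + l) = a l := by
    have h1 : ¬ k + l ≤ k := by omega
    have e : k + l - k = l := by omega
    simp only [hq, h1, if_false, e]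
  have hc2 := hc.snoc (y := y) (by rw [hql]; exact haT) (by
    intro i hi
    by_cases h1 : i ≤ k
    · simp only [hq, h1, if_true]
      exact hyz i h1
    · simp only [hq, h1, if_false]
      refine ⟨fun e => ?_, hamin _ (by omega)⟩
      have h2 : a (i - k) ∈ B := haB _ (by omega) (by omega)
      rw [e] at h2
      exact hYZ y hyY (hB0Z (hBB0 h2)))
  obtain ⟨x1, hx1K, hx1⟩ := hYK z0 hz0Y
  obtain ⟨x2, hx2K, hx2⟩ := hYK y hyY
  -- location of the path vertices
  have hloc : ∀ i, 0 < i → i < k + l + 1 → (if i ≤ k + l then q i else y) ∈ Z := by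
    intro i hi1 hi2
    have h1 : i ≤ k + l := by omega
    simp only [h1, if_true, hq]
    by_cases h2 : i ≤ k
    · simp only [h2, if_true]
      exact hB0Z (hzB0 i hi1 h2)
    · simp only [h2, if_false]
      exact hB0Z (hBB0 (haB _ (by omega) (by omega)))
  have hzero : (if 0 ≤ k + l then q 0 else y) = z0 := by
    simp [hq, hz0]
  have hlast : (if k + l + 1 ≤ k + l then q (k + l + 1) else y) = y := by
    simp
  have hKY : ∀ x ∈ Y, x ∉ K := fun x hx => (Finset.mem_sdiff.1 hx).2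
  have hKZ' : ∀ x ∈ Z, x ∉ K := fun x hx hx' => (Finset.mem_sdiff.1 hx).2 (subset_cNs hx')
  obtain ⟨j, hj1, hj2, hj3⟩ := hole_of_bypass hc2 (a := 0) (b := k + l + 1) (r := r)
    (by omega) le_rfl (↑K : Set V) (by
      intro i hi
      rcases Nat.eq_zero_or_pos i with h0 | h0
      · subst h0
        rw [hzero]
        exact fun hx => hKY z0 hz0Y (Finset.mem_coe.1 hx)
      · rcases Nat.lt_or_ge i (k + l + 1) with h1 | h1
        · exact fun hx => hKZ' _ (hloc i h0 h1) (Finset.mem_coe.1 hx)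
        · have h2 : i = k + l + 1 := by omega
          subst h2
          rw [hlast]
          exact fun hx => hKY y hyY (Finset.mem_coe.1 hx))
    (hKd x1 hx1K x2 hx2K) ⟨0, le_rfl, by rw [hzero]; exact hx1⟩
    ⟨k + l + 1, le_rfl, le_rfl, by rw [hlast]; exact hx2⟩ (by
      intro x hx i hi1 hi2
      exact hKZ x (Finset.mem_coe.1 hx) _ (hloc i hi1 hi2))
  refine ⟨j, by omega, ?_, hj3⟩
  omega

end Pool.Agent.Lib.MP_18a3c4_co
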