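import Mathlib

/-!
Definitions for problem MP_18a3c4_co: hereditary classes of graphs, graphons, weak randomness,
the class WR and the Erdős–Hajnal property EHP.
-/

namespace Pool.Agent.Lib.MP_18a3c4_co

open MeasureTheory Filter

/-- A hereditary class of finite graphs: a property of finite graphs (on the vertex sets `Fin n`)
that passes from a graph `G` to every graph isomorphic to an induced subgraph of `G`. -/
structure HereditaryClass where
  /-- membership of a finite graph in the class -/
  mem : ∀ n : ℕ, SimpleGraph (Fin n) → Prop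
  /-- closure under isomorphism and induced subgraphs -/
  closed : ∀ (m n : ℕ) (H : SimpleGraph (Fin m)) (G : SimpleGraph (Fin n)),
    mem n G → Nonempty (H ↪g G) → mem m H

/-- A graphon: a symmetric measurable function `[0,1]² → [0,1]`. -/
structure Graphon where
  /-- the function -/
  W : unitInterval → unitInterval → ℝ
  measurable : Measurable (Function.uncurry W)
  symm : ∀ x y, W x y = W y x
  mem_Icc : ∀ x y, W x y ∈ Set.Icc (0 : ℝ) 1

open Classical in
/-- Induced density of the finite graph `H` in `W`, the vertices being sampled independently from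
the measure `ν` on `[0,1]`. For `ν` = Lebesgue measure this is `p(H,W)`. -/
noncomputable def indDensity {k : ℕ} (H : SimpleGraph (Fin k)) (W : Graphon)
    (ν : Measure unitInterval) : ℝ :=
  ∫ x : Fin k → unitInterval,
    ∏ e ∈ Finset.univ.filter (fun e : Fin k × Fin k => e.1 < e.2),
      (if H.Adj e.1 e.2 then W.W (x e.1) (x e.2) else 1 - W.W (x e.1) (x e.2))
    ∂(Measure.pi fun _ => ν)

/-- The normalised restriction of Lebesgue measure on `[0,1]` to `A`. -/
noncomputable def normRestrict (A : Set unitInterval) : Measure unitInterval :=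
  (volume A)⁻¹ • volume.restrict A

/-- `p(H, W_A)` where `W_A` is the subgraphon of `W` on `A`. -/
noncomputable def subDensity {k : ℕ} (H : SimpleGraph (Fin k)) (W : Graphon)
    (A : Set unitInterval) : ℝ :=
  indDensity H W (normRestrict A)

/-- The subgraphon `W_A` of `W` on `A` is weakly random: every subgraphon of `W_A` (that is, `W_B`
with `B ⊆ A` measurable of positive measure) has the same finite graphs of positive density. -/
def IsWeaklyRandomOn (W : Graphon) (A : Set unitInterval) : Prop :=
  ∀ B : Set unitInterval, B ⊆ A → MeasurableSet B → volume B ≠ 0 →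
    ∀ (k : ℕ) (H : SimpleGraph (Fin k)), 0 < subDensity H W B ↔ 0 < subDensity H W A

/-- Induced density of `H` in the finite graph `G`: the proportion of injective maps
`V(H) → V(G)` that are induced embeddings. -/
noncomputable def graphDensity {k n : ℕ} (H : SimpleGraph (Fin k)) (G : SimpleGraph (Fin n)) : ℝ :=
  (Nat.card (H ↪g G) : ℝ) / (n.descFactorial k : ℝ)

/-- `W` is a graphon of the class `F`: it is the limit of a sequence of graphs of `F` whose numbers
of vertices tend to infinity. -/
def IsGraphonOf (F : HereditaryClass) (W : Graphon) : Prop :=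
  ∃ (v : ℕ → ℕ) (G : ∀ i, SimpleGraph (Fin (v i))), Tendsto v atTop atTop ∧
    (∀ i, F.mem (v i) (G i)) ∧
    ∀ (k : ℕ) (H : SimpleGraph (Fin k)),
      Tendsto (fun i => graphDensity H (G i)) atTop (nhds (indDensity H W volume))

/-- The class `WR`: every graphon of `F` has a weakly random subgraphon. -/
def WR (F : HereditaryClass) : Prop :=
  ∀ W : Graphon, IsGraphonOf F W →
    ∃ A : Set unitInterval, MeasurableSet A ∧ volume A ≠ 0 ∧ IsWeaklyRandomOn W A

/-- The Erdős–Hajnal property. -/
def EHP (F : HereditaryClass) : Prop :=
  ∃ c : ℝ, 0 < c ∧ ∀ (n : ℕ) (G : SimpleGraph (Fin n)), F.mem n G →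
    ∃ s : Finset (Fin n), (G.IsClique s ∨ G.IsIndepSet s) ∧ (n : ℝ) ^ c ≤ s.card

end Pool.Agent.Lib.MP_18a3c4_co
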