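import Pool.Agent.Lib.MP_18a3c4_co.CaseOne

/-!
Geodesics, the side lemma.
-/

namespace Pool.Agent.Lib.MP_18a3c4_co

variable {V : Type} {G : SimpleGraph V}

/-- `p 0, …, p d` is a geodesic. -/
def IsGeo (G : SimpleGraph V) (p : ℕ → V) (d : ℕ) : Prop :=
  ∀ i j, i ≤ j → j ≤ d → G.dist (p i) (p j) = j - i

theorem exists_geo (hG : G.Connected) (u v : V) :
    ∃ p : ℕ → V, p 0 = u ∧ p (G.dist u v) = v ∧ IsGeo G p (G.dist u v) := by
  obtain ⟨w, hw⟩ := hG.exists_walk_length_eq_dist u v
  have hstep : ∀ i, i < w.length → G.dist (w.getVert i) (w.getVert (i + 1)) = 1 := by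
    intro i hi
    rw [SimpleGraph.dist_eq_one_iff_adj]
    exact w.adj_getVert_succ hi
  have hle : ∀ i n, i + n ≤ w.length → G.dist (w.getVert i) (w.getVert (i + n)) ≤ n := by
    intro i n
    induction n with
    | zero => intro _; simp
    | succ n ih =>
      intro hin
      have h1 := ih (by omega)
      have h2 := hstep (i + n) (by omega)
      have h3 := hG.dist_triangle (u := w.getVert i) (v := w.getVert (i + n))
        (w := w.getVert (i + (n + 1)))
      have e : i + (n + 1) = i + n + 1 := by omega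
      rw [e] at h3 ⊢
      omega
  refine ⟨w.getVert, by simp, ?_, ?_⟩
  · rw [← hw]
    simp
  · intro i j hij hj
    rw [← hw] at hj
    have h0 : w.getVert 0 = u := by simp
    have h1 : w.getVert w.length = v := by simp
    have h2 := hle 0 i (by omega)
    have h3 := hle i (j - i) (by omega)
    have h4 := hle j (w.length - j) (by omega)
    have e1 : i + (j - i) = j := by omega
    have e2 : j + (w.length - j) = w.length := by omega
    have e3 : 0 + i = i := by omega
    rw [e1] at h3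
    rw [e2, h1] at h4
    rw [e3, h0] at h2
    have h5 := hG.dist_triangle (u := u) (v := w.getVert i) (w := v)
    have h6 := hG.dist_triangle (u := w.getVert i) (v := w.getVert j) (w := v)
    omega

theorem IsGeo.indPath {p : ℕ → V} {d : ℕ} (hp : IsGeo G p d) :
    IsIndPath G p d := by
  intro i hi j hj
  rcases le_total i j with h | h
  · have h1 := hp i j h hj
    constructor
    · intro e
      rw [e, SimpleGraph.dist_self] at h1
      omega
    · rw [← SimpleGraph.dist_eq_one_iff_adj, h1]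
      omega
  · have h1 := hp j i h hi
    constructor
    · intro e
      rw [e, SimpleGraph.dist_self] at h1
      omega
    · rw [SimpleGraph.adj_comm, ← SimpleGraph.dist_eq_one_iff_adj, h1]
      omega

theorem IsGeo.rev {p : ℕ → V} {d : ℕ} (hp : IsGeo G p d) : IsGeo G (fun i => p (d - i)) d := by
  intro i j hij hj
  have h1 := hp (d - j) (d - i) (by omega) (by omega)
  rw [SimpleGraph.dist_comm, h1]
  omega

/-- A marker: a path `p_c, u, v` leaving the path `p 0, …, p L`. -/
def Marker (G : SimpleGraph V) (p : ℕ → V) (L c : ℕ) (u v : V) : Prop :=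
  c ≤ L ∧ G.Adj u (p c) ∧ G.Adj u v ∧ (∀ i ≤ L, p i ≠ u ∧ p i ≠ v ∧ ¬ G.Adj v (p i)) ∧
    ∀ i ≤ L, ∀ j ≤ L, G.Adj u (p i) → G.Adj u (p j) → j ≤ i + 2

/-- The side lemma. -/
theorem side (hG : G.Connected) {p : ℕ → V} {L R : ℕ} (hp : IsGeo G p L) (hR : 13 ≤ R)
    (hL1 : 18 * R ≤ L) (hL2 : L ≤ 22 * R) (q1 q2 q3 : V)
    (h1 : R ≤ G.dist q1 (p 0) ∧ G.dist q1 (p 0) ≤ 2 * R ∧ G.dist q1 (p L) ≤ L)
    (h2 : R ≤ G.dist q2 (p 0) ∧ G.dist q2 (p 0) ≤ 2 * R ∧ G.dist q2 (p L) ≤ L)
    (h3 : R ≤ G.dist q3 (p 0) ∧ G.dist q3 (p 0) ≤ 2 * R ∧ G.dist q3 (p L) ≤ L)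
    (h12 : R ≤ G.dist q1 q2) (h13 : R ≤ G.dist q1 q3) (h23 : R ≤ G.dist q2 q3) :
    (∃ j, R - 10 ≤ j ∧ j ≤ 50 * R ∧ HasHole G j) ∨
      ∃ c u v, 5 ≤ c ∧ c ≤ 4 * R ∧ Marker G p L c u v := by
  classical
  have tri : ∀ a b c : V, G.dist a c ≤ G.dist a b + G.dist b c := fun a b c => hG.dist_triangle
  have comm : ∀ a b : V, G.dist a b = G.dist b a := fun a b => SimpleGraph.dist_comm
  -- a vertex far from the path
  have hfar : ∃ q, R ≤ G.dist q (p 0) ∧ G.dist q (p 0) ≤ 2 * R ∧ G.dist q (p L) ≤ L ∧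
      ∀ i ≤ L, 3 ≤ G.dist q (p i) := by
    by_contra hne
    push Not at hne
    obtain ⟨i1, hi1, hd1⟩ := hne q1 h1.1 h1.2.1 h1.2.2
    obtain ⟨i2, hi2, hd2⟩ := hne q2 h2.1 h2.2.1 h2.2.2
    obtain ⟨i3, hi3, hd3⟩ := hne q3 h3.1 h3.2.1 h3.2.2
    have a1 := hp 0 i1 (by omega) hi1
    have a2 := hp 0 i2 (by omega) hi2
    have a3 := hp 0 i3 (by omega) hi3
    have b1 := tri q1 (p i1) (p 0)
    have b2 := tri q2 (p i2) (p 0)
    have b3 := tri q3 (p i3) (p 0)
    have b1' := tri (p i1) q1 (p 0)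
    have b2' := tri (p i2) q2 (p 0)
    have b3' := tri (p i3) q3 (p 0)
    rw [comm (p i1) (p 0)] at b1 b1'
    rw [comm (p i2) (p 0)] at b2 b2'
    rw [comm (p i3) (p 0)] at b3 b3'
    rw [comm (p i1) q1] at b1'
    rw [comm (p i2) q2] at b2'
    rw [comm (p i3) q3] at b3'
    have key : ∀ (x y : V) (i j : ℕ), i ≤ L → j ≤ L → R ≤ G.dist x y → G.dist x (p i) < 3 →
        G.dist y (p j) < 3 → R ≤ i - j + 4 ∨ R ≤ j - i + 4 := by
      intro x y i j hi hj hxy hx hy
      have c1 := tri x (p i) y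
      have c2 := tri (p i) (p j) y
      rw [comm (p j) y] at c2
      rcases le_total i j with h | h
      · have c3 := hp i j h hj
        right
        omega
      · have c3 := hp j i h hi
        rw [comm] at c3
        left
        omega
    have k12 := key q1 q2 i1 i2 hi1 hi2 h12 hd1 hd2
    have k13 := key q1 q3 i1 i3 hi1 hi3 h13 hd1 hd3
    have k23 := key q2 q3 i2 i3 hi2 hi3 h23 hd2 hd3
    omega
  obtain ⟨q, hq1, hq2, hq3, hq4⟩ := hfar
  -- nearest point of the path
  obtain ⟨c, hc, hcmin⟩ : ∃ c ≤ L, ∀ i ≤ L, G.dist q (p c) ≤ G.dist q (p i) := by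
    obtain ⟨c, hc, hmin⟩ := Finset.exists_min_image (Finset.range (L + 1))
      (fun i => G.dist q (p i)) ⟨0, by simp⟩
    refine ⟨c, by simpa [Nat.lt_succ_iff] using hc, fun i hi => hmin i (by simp; omega)⟩
  set l := G.dist q (p c) with hl
  have hl3 : 3 ≤ l := hq4 c hc
  have hl2R : l ≤ 2 * R := (hcmin 0 (by omega)).trans hq2
  have hc4R : c ≤ 4 * R := by
    have a1 := hp 0 c (by omega) hc
    have a2 := tri (p 0) q (p c)
    rw [comm (p 0) q] at a2
    omega
  obtain ⟨z, hz0, hzl, hzg⟩ := exists_geo hG (p c) q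
  rw [comm (p c) q, ← hl] at hzl hzg
  have hzP : ∀ s ≤ l, ∀ i ≤ L, s ≤ G.dist (z s) (p i) := by
    intro s hs i hi
    have a1 := hzg s l hs le_rfl
    rw [hzl] at a1
    have a2 := tri q (z s) (p i)
    have a3 := hcmin i hi
    rw [comm q (z s)] at a2
    omega
  have hz01 : G.Adj (z 1) (p c) := by
    have := hzg 0 1 (by omega) (by omega)
    rw [hz0, comm] at this
    exact SimpleGraph.dist_eq_one_iff_adj.1 (by omega)
  have hz12 : G.Adj (z 1) (z 2) := by
    have := hzg 1 2 (by omega) (by omega)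
    exact SimpleGraph.dist_eq_one_iff_adj.1 (by omega)
  have hnear : ∀ x : V, ∀ i ≤ L, ∀ j ≤ L, G.Adj x (p i) → G.Adj x (p j) → j ≤ i + 2 := by
    intro x i hi j hj hxi hxj
    have a1 := SimpleGraph.dist_eq_one_iff_adj.2 hxi
    have a2 := SimpleGraph.dist_eq_one_iff_adj.2 hxj
    have a3 := tri (p i) x (p j)
    rw [comm (p i) x] at a3
    rcases le_total i j with h | h
    · have := hp i j h hj
      omega
    · omega
  by_cases hc5 : 5 ≤ c
  · right
    refine ⟨c, z 1, z 2, hc5, hc4R, hc, hz01, hz12, ?_, hnear (z 1)⟩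
    intro i hi
    have a1 := hzP 1 (by omega) i hi
    have a2 := hzP 2 (by omega) i hi
    refine ⟨?_, ?_, ?_⟩
    · intro e
      rw [← e, SimpleGraph.dist_self] at a1
      omega
    · intro e
      rw [← e, SimpleGraph.dist_self] at a2
      omega
    · intro e
      rw [SimpleGraph.dist_eq_one_iff_adj.2 e] at a2
      omega
  · left
    have hlR : R ≤ l + 4 := by
      have a1 := tri q (p c) (p 0)
      have a2 := hp 0 c (by omega) hc
      rw [comm (p c) (p 0)] at a1
      omega
    obtain ⟨y, hy0, hyD, hyg⟩ := exists_geo hG q (p L)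
    set D := G.dist q (p L) with hD
    have hex : ∃ t, t ≤ D ∧ ∃ i ≤ L, G.dist (y t) (p i) ≤ 1 :=
      ⟨D, le_rfl, L, le_rfl, by rw [hyD]; simp⟩
    obtain ⟨htD, i0, hi0, hti0⟩ := Nat.find_spec hex
    have htmin : ∀ s < Nat.find hex, ∀ i ≤ L, 2 ≤ G.dist (y s) (p i) := by
      intro s hs i hi
      by_contra hlt
      exact Nat.find_min hex hs ⟨by omega, i, hi, by omega⟩
    set t := Nat.find hex with ht
    have htl : l ≤ t + 1 := by
      have a1 := hcmin i0 hi0
      have a2 := tri q (y t) (p i0)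
      have a3 := hyg 0 t (by omega) htD
      rw [hy0] at a3
      omega
    have htc : ∀ i ≤ L, G.dist (y t) (p i) ≤ 1 → t ≤ i + 1 := by
      intro i hi hd
      have a1 := tri (p i) (y t) (p L)
      have a2 := hyg t D htD le_rfl
      have a3 := hp i L hi le_rfl
      rw [hyD] at a2
      rw [comm (p i) (y t)] at a1
      omega
    have hytne : ∀ i ≤ L, y t ≠ p i := by
      intro i hi e
      have a1 := hyg (t - 1) t (by omega) htD
      have a2 := htmin (t - 1) (by omega) i hi
      rw [e] at a1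
      omega
    have hyt1 : G.Adj (y t) (p i0) := by
      apply SimpleGraph.dist_eq_one_iff_adj.1
      have : G.dist (y t) (p i0) ≠ 0 := by
        intro e
        exact hytne i0 hi0 (hG.dist_eq_zero_iff.1 e)
      omega
    -- the connected set
    let S : Set V := {x | (∃ s, 1 ≤ s ∧ s ≤ l ∧ x = z s) ∨ ∃ s ≤ t, x = y s}
    have hSz : ∀ s, 1 ≤ s → s ≤ l → z s ∈ S := fun s hs1 hs2 => Or.inl ⟨s, hs1, hs2, rfl⟩
    have hSy : ∀ s ≤ t, y s ∈ S := fun s hs => Or.inr ⟨s, hs, rfl⟩
    have hw1 : Within G S (l - 1) (z 1) (z l) := by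
      refine ⟨fun n => z (1 + n), l - 1, le_rfl, rfl, by show z (1 + (l - 1)) = z l; congr 1; omega,
        ?_, fun i hi => hSz _ (by omega) (by omega)⟩
      intro i hi
      have := hzg (1 + i) (1 + (i + 1)) (by omega) (by omega)
      show G.Adj (z (1 + i)) (z (1 + (i + 1)))
      exact SimpleGraph.dist_eq_one_iff_adj.1 (by omega)
    have hw2 : Within G S t (y 0) (y t) := by
      refine ⟨y, t, le_rfl, rfl, rfl, ?_, fun i hi => hSy _ hi⟩
      intro i hi
      have := hyg i (i + 1) (by omega) (by omega)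
      exact SimpleGraph.dist_eq_one_iff_adj.1 (by omega)
    have hw : Within G S (l - 1 + t) (z 1) (y t) := by
      rw [hy0, ← hzl] at hw2
      exact hw1.trans hw2
    have hti : t ≤ i0 + 1 := htc i0 hi0 hti0
    have hSP : ∀ i ≤ L, p i ∉ S := by
      rintro i hi (⟨s, hs1, hs2, e⟩ | ⟨s, hs, e⟩)
      · have := hzP s hs2 i hi
        rw [← e, SimpleGraph.dist_self] at this
        omega
      · rcases Nat.lt_or_ge s t with h | h
        · have := htmin s h i hi
          rw [← e, SimpleGraph.dist_self] at this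
          omega
        · have : s = t := by omega
          subst this
          exact hytne i hi e.symm
    have hgap : ∀ x ∈ S, ∀ i, 6 < i → i < R - 6 → ¬ G.Adj x (p i) := by
      rintro x (⟨s, hs1, hs2, rfl⟩ | ⟨s, hs, rfl⟩) i hi1 hi2 hadj
      · by_cases hs : s = 1
        · subst hs
          have := hnear (z 1) c hc i (by omega) hz01 hadj
          omega
        · have := hzP s hs2 i (by omega)
          rw [SimpleGraph.dist_eq_one_iff_adj.2 hadj] at this
          omega
      · rcases Nat.lt_or_ge s t with h | h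
        · have := htmin s h i (by omega)
          rw [SimpleGraph.dist_eq_one_iff_adj.2 hadj] at this
          omega
        · have : s = t := by omega
          subst this
          have := htc i (by omega) (SimpleGraph.dist_eq_one_iff_adj.2 hadj).le
          omega
    obtain ⟨j, hj1, hj2, hj3⟩ := hole_of_bypass hp.indPath (a := 6) (b := R - 6)
      (r := l - 1 + t) (by omega) (by omega) S hSP hw ⟨c, by omega, hz01⟩
      ⟨i0, by omega, hi0, hyt1⟩ hgap
    exact ⟨j, by omega, by omega, hj3⟩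

end Pool.Agent.Lib.MP_18a3c4_co
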