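import Pool.Agent.Lib.MP_18a3c4_co.Norm

/-!
Giant components, nets, and case 2 of the coherent pattern theorem.
-/

namespace Pool.Agent.Lib.MP_18a3c4_co

/-- The subgraph induced on a finite set. -/
def sg {V : Type} (G : SimpleGraph V) (S : Finset V) : SimpleGraph {x // x ∈ S} :=
  G.comap Subtype.val

theorem sg_adj {V : Type} {G : SimpleGraph V} {S : Finset V} {x y : {x // x ∈ S}} :
    (sg G S).Adj x y ↔ G.Adj x.1 y.1 := Iff.rfl

theorem HasHole.of_sg {V : Type} {G : SimpleGraph V} {S : Finset V} {j : ℕ}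
    (h : HasHole (sg G S) j) : HasHole G j := by
  obtain ⟨c, hc⟩ := h
  refine ⟨fun i => (c i).1, fun a ha b hb => ?_⟩
  obtain ⟨h1, h2⟩ := hc a ha b hb
  exact ⟨fun e => h1 (Subtype.ext e), h2⟩

theorem IsIndPath.of_sg {V : Type} {G : SimpleGraph V} {S : Finset V} {j : ℕ}
    {p : ℕ → {x // x ∈ S}} (h : IsIndPath (sg G S) p j) : IsIndPath G (fun i => (p i).1) j :=
  fun i hi k hk => ⟨fun e => (h i hi k hk).1 (Subtype.ext e), (h i hi k hk).2⟩

theorem HasT.of_sg {V : Type} {G : SimpleGraph V} {S : Finset V} {j : ℕ} {α β : Bool}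
    (h : HasT (sg G S) j α β) : HasT G j α β := by
  obtain ⟨p, u, u', h1, h2, h3, h4, h5, h6⟩ := h
  refine ⟨fun i => (p i).1, u.1, u'.1, h1.of_sg, fun e => h2 (Subtype.ext e), h3, ?_, h5, h6⟩
  intro i hi
  exact ⟨fun e => (h4 i hi).1 (Subtype.ext e), fun e => (h4 i hi).2 (Subtype.ext e)⟩

variable {V : Type} [Fintype V] {G : SimpleGraph V} {μ : V → ℝ} {ε : ℝ}

open Classical in
theorem Coherent.giant (h : Coherent G μ ε) (hε : 0 < ε) {W : Finset V}
    (hW : 3 * ε ≤ wt μ W) :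
    ∃ S ⊆ W, wt μ W - ε < wt μ S ∧ (sg G S).Connected := by
  let P : Finset V → Prop := fun S => (∀ x ∈ S, ∀ y ∈ W, G.Adj x y → y ∈ S) ∧ ε ≤ wt μ S
  obtain ⟨S, hS, hmin⟩ := Finset.exists_min_image (W.powerset.filter P) Finset.card
    ⟨W, by
      rw [Finset.mem_filter]
      exact ⟨Finset.mem_powerset_self W, fun x _ y hy _ => hy, by linarith⟩⟩
  obtain ⟨hSW, hScl, hSε⟩ : S ⊆ W ∧ (∀ x ∈ S, ∀ y ∈ W, G.Adj x y → y ∈ S) ∧ ε ≤ wt μ S := by
    obtain ⟨h1, h2⟩ := Finset.mem_filter.1 hS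
    exact ⟨Finset.mem_powerset.1 h1, h2.1, h2.2⟩
  have hmin' : ∀ C : Finset V, C ⊆ W → (∀ x ∈ C, ∀ y ∈ W, G.Adj x y → y ∈ C) →
      C.card < S.card → wt μ C < ε := by
    intro C hC hcl hcard
    by_contra hne
    push Not at hne
    have := hmin C (by
      rw [Finset.mem_filter]
      exact ⟨Finset.mem_powerset.2 hC, hcl, hne⟩)
    omega
  have hWS : wt μ (W \ S) < ε := by
    rcases h.2.2 S (W \ S) Finset.disjoint_sdiff (by
      intro a ha b hb hadj
      exact (Finset.mem_sdiff.1 hb).2 (hScl a ha b (Finset.mem_sdiff.1 hb).1 hadj)) with h1 | h1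
    · exact absurd h1 (not_lt.2 hSε)
    · exact h1
  rw [h.wt_sdiff hSW] at hWS
  refine ⟨S, hSW, by linarith, ?_⟩
  have hne : S.Nonempty := by
    rw [Finset.nonempty_iff_ne_empty]
    rintro rfl
    have : wt μ (∅ : Finset V) = 0 := by simp [wt]
    linarith
  have hpre : (sg G S).Preconnected := by
    intro u v
    by_contra hnr
    set C : Finset V := S.filter fun x => ∃ hx : x ∈ S, (sg G S).Reachable u ⟨x, hx⟩ with hC
    have hCS : C ⊆ S := Finset.filter_subset _ _
    have huC : u.1 ∈ C := by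
      rw [hC, Finset.mem_filter]
      exact ⟨u.2, u.2, SimpleGraph.Reachable.refl _⟩
    have hvC : v.1 ∉ C := by
      rw [hC, Finset.mem_filter]
      rintro ⟨_, _, hr⟩
      exact hnr hr
    have hCcl : ∀ x ∈ C, ∀ y ∈ W, G.Adj x y → y ∈ C := by
      intro x hx y hy hadj
      rw [hC, Finset.mem_filter] at hx ⊢
      obtain ⟨hxS, _, hr⟩ := hx
      have hyS := hScl x hxS y hy hadj
      refine ⟨hyS, hyS, hr.trans ?_⟩
      exact SimpleGraph.Adj.reachable (G := sg G S) (u := ⟨x, hxS⟩) (v := ⟨y, hyS⟩) hadj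
    have hCcl' : ∀ x ∈ S \ C, ∀ y ∈ W, G.Adj x y → y ∈ S \ C := by
      intro x hx y hy hadj
      obtain ⟨hxS, hxC⟩ := Finset.mem_sdiff.1 hx
      refine Finset.mem_sdiff.2 ⟨hScl x hxS y hy hadj, fun hyC => hxC ?_⟩
      exact hCcl y hyC x (hSW hxS) hadj.symm
    have h1 := hmin' C (hCS.trans hSW) hCcl
      (Finset.card_lt_card ⟨hCS, fun hle => hvC (hle v.2)⟩)
    have h2 := hmin' (S \ C) (Finset.sdiff_subset.trans hSW) hCcl'
      (Finset.card_lt_card ⟨Finset.sdiff_subset, fun hle =>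
        (Finset.mem_sdiff.1 (hle u.2)).2 huC⟩)
    rw [h.wt_sdiff hCS] at h2
    linarith
  exact @SimpleGraph.Connected.mk _ _ hpre ⟨⟨hne.choose, hne.choose_spec⟩⟩

omit [Fintype V] in
open Classical in
theorem wt_sg (S : Finset V) (A : Finset {x // x ∈ S}) :
    wt (fun x : {x // x ∈ S} => μ x.1) A = wt μ (A.map (Function.Embedding.subtype _)) := by
  unfold wt
  rw [Finset.sum_map]
  rfl

open Classical in
theorem Coherent.sg (h : Coherent G μ ε) (S : Finset V) :
    Coherent (sg G S) (fun x => μ x.1) ε := by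
  refine ⟨fun v => h.1 _, ?_, ?_⟩
  · intro v
    have h0 := wt_sg (μ := μ) S
      (Finset.univ.filter fun x => x = v ∨ (Lib.MP_18a3c4_co.sg G S).Adj v x)
    have h1 : wt μ ((Finset.univ.filter fun x =>
        x = v ∨ (Lib.MP_18a3c4_co.sg G S).Adj v x).map (Function.Embedding.subtype _)) ≤ ε := by
      refine (h.wt_mono ?_).trans (h.wt_cN v.1)
      intro x hx
      obtain ⟨y, hy, rfl⟩ := Finset.mem_map.1 hx
      rw [mem_cN]
      rcases (Finset.mem_filter.1 hy).2 with rfl | hadj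
      · exact Or.inl rfl
      · exact Or.inr hadj
    rw [← h0] at h1
    unfold wt at h1
    rw [Finset.sum_filter] at h1
    convert h1
  · intro A B hd hadj
    have h1 := wt_sg (μ := μ) S A
    have h2 := wt_sg (μ := μ) S B
    unfold wt at h1 h2
    rw [h1, h2]
    refine h.2.2 _ _ ?_ ?_
    · exact (Finset.disjoint_map _).2 hd
    · intro a ha b hb
      obtain ⟨a', ha', rfl⟩ := Finset.mem_map.1 ha
      obtain ⟨b', hb', rfl⟩ := Finset.mem_map.1 hb
      exact hadj a' ha' b' hb'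

omit [Fintype V] in
theorem ball_mono' {W : Finset V} {u : V} {r s : ℕ} (hrs : r ≤ s) :
    ball G W u r ⊆ ball G W u s := by
  induction s with
  | zero =>
    have : r = 0 := by omega
    subst this
    exact subset_rfl
  | succ s ih =>
    rcases Nat.lt_or_ge s r with h | h
    · have : r = s + 1 := by omega
      subst this
      exact subset_rfl
    · exact (ih h).trans (ball_mono s)

open Classical in
/-- Metric balls of the giant component lie in the balls of `G[W]`. -/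
theorem Coherent.ball_sg (h : Coherent G μ ε) {W S : Finset V} (hSW : S ⊆ W)
    (hS : (Lib.MP_18a3c4_co.sg G S).Connected) (u : {x // x ∈ S}) (r : ℕ) :
    wt (fun x : {x // x ∈ S} => μ x.1)
      (Finset.univ.filter fun x => (Lib.MP_18a3c4_co.sg G S).dist u x ≤ r) ≤
      wt μ (ball G W u.1 r) := by
  rw [wt_sg]
  apply h.wt_mono
  intro x hx
  obtain ⟨y, hy, rfl⟩ := Finset.mem_map.1 hx
  have hy' := (Finset.mem_filter.1 hy).2
  obtain ⟨p, hp0, hpd, hpg⟩ := exists_geo hS u y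
  set d := (Lib.MP_18a3c4_co.sg G S).dist u y
  have key : ∀ i ≤ d, (p i).1 ∈ ball G W u.1 i := by
    intro i
    induction i with
    | zero => intro _; rw [hp0]; simp [ball]
    | succ i ih =>
      intro hi
      have h1 := ih (by omega)
      have h2 := hpg i (i + 1) (by omega) hi
      have h3 : (Lib.MP_18a3c4_co.sg G S).Adj (p i) (p (i + 1)) :=
        SimpleGraph.dist_eq_one_iff_adj.1 (by omega)
      simp only [ball, Finset.mem_union, Finset.mem_filter]
      exact Or.inr ⟨hSW (p (i + 1)).2, (p i).1, h1, h3⟩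
  have := key d le_rfl
  rw [hpd] at this
  exact ball_mono' hy' this

theorem ivt {U : Type} {H : SimpleGraph U} (hH : H.Preconnected) (f : U → ℕ)
    (hf : ∀ x y, H.Adj x y → f y ≤ f x + 1) (x y : U) (n : ℕ) (hx : f x ≤ n) (hy : n ≤ f y) :
    ∃ z, f z = n := by
  obtain ⟨w⟩ := hH x y
  induction w with
  | nil => exact ⟨_, le_antisymm hx hy⟩
  | @cons a b c hab w ih =>
    by_cases h : f a = n
    · exact ⟨a, h⟩
    · have := hf a b hab
      exact ih (by omega) hy

open Classical in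
theorem exists_net (G : SimpleGraph V) {R : ℕ} (hR : 1 ≤ R) :
    ∃ N : Finset V, (∀ x ∈ N, ∀ y ∈ N, x ≠ y → R ≤ G.dist x y) ∧
      ∀ v, ∃ c ∈ N, G.dist v c < R := by
  let P : Finset V → Prop := fun N => ∀ x ∈ N, ∀ y ∈ N, x ≠ y → R ≤ G.dist x y
  obtain ⟨N, hN, hmax⟩ := Finset.exists_max_image ((Finset.univ : Finset (Finset V)).filter P)
    Finset.card ⟨∅, by simp [P]⟩
  have hP : P N := (Finset.mem_filter.1 hN).2
  refine ⟨N, hP, ?_⟩
  intro v
  by_contra hne
  push Not at hne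
  have hv : v ∉ N := by
    intro hv
    have := hne v hv
    rw [SimpleGraph.dist_self] at this
    omega
  have hP' : P (insert v N) := by
    intro x hx y hy hxy
    rcases Finset.mem_insert.1 hx with hx1 | hx1
    · rcases Finset.mem_insert.1 hy with hy1 | hy1
      · exact absurd (hx1.trans hy1.symm) hxy
      · rw [hx1]
        exact hne y hy1
    · rcases Finset.mem_insert.1 hy with hy1 | hy1
      · rw [SimpleGraph.dist_comm, hy1]
        exact hne x hx1
      · exact hP x hx1 y hy1 hxy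
  have := hmax (insert v N) (by simp [hP'])
  rw [Finset.card_insert_of_notMem hv] at this
  omega

open Classical in
theorem exists_classes {α : Type} (f : Finset α → ℝ) (hε : 0 < ε) (h0 : f ∅ = 0)
    (hsub : ∀ S T, f (S ∪ T) ≤ f S + f T) (hstep : ∀ S x, f (insert x S) ≤ f S + ε) (k : ℕ)
    (X : Finset α) (hX : 2 * k * ε ≤ f X) :
    ∃ N : ℕ → Finset α, (∀ i < k, N i ⊆ X ∧ ε ≤ f (N i)) ∧
      ∀ i j, i < j → j < k → Disjoint (N i) (N j) := by
  induction k generalizing X with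
  | zero =>
    exact ⟨fun _ => ∅, fun i hi => absurd hi (Nat.not_lt_zero _), fun i j _ hj =>
      absurd hj (Nat.not_lt_zero _)⟩
  | succ k ih =>
    push_cast at hX
    have hk : (0 : ℝ) ≤ k * ε := by positivity
    obtain ⟨Y, hY, hY1, hY2⟩ := exists_subset_window f X ε ε hstep (by rw [h0]; exact hε)
      (by nlinarith)
    have h1 := hsub (X \ Y) Y
    rw [Finset.sdiff_union_of_subset hY] at h1
    obtain ⟨N, hN1, hN2⟩ := ih (X \ Y) (by nlinarith)
    refine ⟨fun i => if i = 0 then Y else N (i - 1), ?_, ?_⟩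
    · intro i hi
      by_cases hi0 : i = 0
      · simp only [hi0, if_true]
        exact ⟨hY, hY1⟩
      · simp only [hi0, if_false]
        obtain ⟨h2, h3⟩ := hN1 (i - 1) (by omega)
        exact ⟨h2.trans Finset.sdiff_subset, h3⟩
    · intro i j hij hj
      have hj0 : j ≠ 0 := by omega
      by_cases hi0 : i = 0
      · simp only [hi0, hj0, if_true, if_false]
        exact (Finset.disjoint_sdiff).mono_right (hN1 (j - 1) (by omega)).1
      · simp only [hi0, hj0, if_false]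
        exact hN2 _ _ (by omega) (by omega)

open Classical in
theorem Coherent.exists_typical (h : Coherent G μ ε) (A : ℕ → Finset V) (k : ℕ)
    (hA : ∀ i < k, ε ≤ wt μ (A i)) :
    ∃ T : Finset V, wt μ Finset.univ - k * ε ≤ wt μ T ∧ ∀ v ∈ T, ∀ i < k, v ∈ cNs G (A i) := by
  induction k with
  | zero => exact ⟨Finset.univ, by simp, fun v _ i hi => absurd hi (Nat.not_lt_zero _)⟩
  | succ k ih =>
    obtain ⟨T, hT1, hT2⟩ := ih (fun i hi => hA i (by omega))
    refine ⟨T \ (Finset.univ \ cNs G (A k)), ?_, ?_⟩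
    · have h1 : wt μ (Finset.univ \ cNs G (A k)) < ε := by
        by_contra hne
        push Not at hne
        obtain ⟨a, ha, b, hb, hadj⟩ := h.anti (A := A k) (B := Finset.univ \ cNs G (A k))
          (Finset.disjoint_left.2 fun x hx hx' => (Finset.mem_sdiff.1 hx').2 (subset_cNs hx))
          (hA k (by omega)) hne
        exact (Finset.mem_sdiff.1 hb).2 (mem_cNs.2 ⟨a, ha, Or.inr hadj⟩)
      have h2 := h.wt_sdiff_le T (Finset.univ \ cNs G (A k))
      push_cast
      linarith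
    · intro v hv i hi
      obtain ⟨hv1, hv2⟩ := Finset.mem_sdiff.1 hv
      rcases Nat.lt_or_ge i k with h1 | h1
      · exact hT2 v hv1 i h1
      · have : i = k := by omega
        subst this
        by_contra hne
        exact hv2 (Finset.mem_sdiff.2 ⟨Finset.mem_univ _, hne⟩)

open Classical in
/-- Case 2, core. -/
theorem case_two_core (h : Coherent G μ ε) (hε : 0 < ε) (hG : G.Connected) {R : ℕ}
    (hR : 13 ≤ R) (htot : 20 * ε ≤ wt μ Finset.univ)
    (hball : ∀ u, wt μ (Finset.univ.filter fun x => G.dist u x ≤ 20 * R) < ε) :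
    ∃ j, R - 10 ≤ j ∧ j ≤ 50 * R ∧ (HasHole G j ∨ ∃ α β, HasT G j α β) := by
  have tri : ∀ a b c : V, G.dist a c ≤ G.dist a b + G.dist b c := fun a b c => hG.dist_triangle
  have comm : ∀ a b : V, G.dist a b = G.dist b a := fun a b => SimpleGraph.dist_comm
  obtain ⟨N, hN1, hN2⟩ := exists_net G (R := R) (by omega)
  choose c hcN hcd using hN2
  set f : Finset V → ℝ := fun S => wt μ (Finset.univ.filter fun v => c v ∈ S) with hf
  have hcell : ∀ x, wt μ (Finset.univ.filter fun v => c v = x) ≤ ε := by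
    intro x
    refine (h.wt_mono ?_).trans (hball x).le
    intro v hv
    rw [Finset.mem_filter] at hv ⊢
    have := hcd v
    rw [hv.2, comm] at this
    exact ⟨Finset.mem_univ _, by omega⟩
  obtain ⟨N', hN'1, hN'2⟩ := exists_classes (ε := ε) f hε (by simp [hf, wt])
    (by
      intro S T
      refine (h.wt_mono ?_).trans (h.wt_union_le _ _)
      intro v hv
      simpa using hv)
    (by
      intro S x
      have h1 : f (insert x S) ≤ f S + wt μ (Finset.univ.filter fun v => c v = x) := by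
        refine (h.wt_mono ?_).trans (h.wt_union_le _ _)
        intro v hv
        simp only [Finset.mem_filter, Finset.mem_univ, true_and, Finset.mem_insert,
          Finset.mem_union] at hv ⊢
        tauto
      linarith [hcell x])
    4 N (by
      have h1 : f N = wt μ Finset.univ := by
        simp only [hf]
        congr 1
        ext v
        simp [hcN v]
      rw [h1]
      push_cast
      linarith)
  obtain ⟨T, hT1, hT2⟩ := h.exists_typical (fun i => Finset.univ.filter fun v => c v ∈ N' i) 4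
    (fun i hi => (hN'1 i hi).2)
  have hTq : ∀ v ∈ T, ∃ q : ℕ → V, (∀ i < 4, q i ∈ N' i ∧ G.dist v (q i) ≤ R) := by
    intro v hv
    have h1 : ∀ i, ∃ q, i < 4 → q ∈ N' i ∧ G.dist v q ≤ R := by
      intro i
      by_cases hi : i < 4
      · obtain ⟨a, ha, hav⟩ := mem_cNs.1 (hT2 v hv i hi)
        have ha' : c a ∈ N' i := by simpa using ha
        refine ⟨c a, fun _ => ⟨ha', ?_⟩⟩
        have h2 := hcd a
        rcases hav with rfl | hav
        · omega
        · have h3 := tri v a (c a)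
          have h4 := SimpleGraph.dist_eq_one_iff_adj.2 hav
          rw [comm] at h4
          omega
      · exact ⟨v, fun h => absurd h hi⟩
    choose q hq using h1
    exact ⟨q, hq⟩
  have hsep : ∀ q q' : V, ∀ i j, i < 4 → j < 4 → i ≠ j → q ∈ N' i → q' ∈ N' j →
      R ≤ G.dist q q' := by
    intro q q' i j hi hj hij hq hq'
    apply hN1 q ((hN'1 i hi).1 hq) q' ((hN'1 j hj).1 hq')
    rintro rfl
    rcases Nat.lt_or_gt_of_ne hij with h1 | h1
    · exact Finset.disjoint_left.1 (hN'2 i j h1 hj) hq hq'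
    · exact Finset.disjoint_left.1 (hN'2 j i h1 hi) hq' hq
  push_cast at hT1
  obtain ⟨S, hST, hSwt, hSconn⟩ := h.giant hε (W := T) (by linarith)
  have hSne : S.Nonempty := by
    rw [Finset.nonempty_iff_ne_empty]
    rintro rfl
    have : wt μ (∅ : Finset V) = 0 := by simp [wt]
    linarith
  obtain ⟨z, hzS⟩ := hSne
  have hz2 : ∃ z2 ∈ S, 20 * R < G.dist z z2 := by
    by_contra hne
    push Not at hne
    have h1 := h.wt_mono (S := S) (T := Finset.univ.filter fun x => G.dist z x ≤ 20 * R) (by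
      intro x hx
      simp [hne x hx])
    have h2 := hball z
    linarith
  obtain ⟨z2, hz2S, hz2⟩ := hz2
  obtain ⟨⟨z', hz'S⟩, hzz'⟩ := ivt hSconn.preconnected (fun x => G.dist z x.1) (by
    intro x y hxy
    have h1 := tri z x.1 y.1
    have h2 : G.dist x.1 y.1 = 1 := SimpleGraph.dist_eq_one_iff_adj.2 hxy
    omega) ⟨z, hzS⟩ ⟨z2, hz2S⟩ (20 * R) (by simp) hz2.le
  replace hzz' : G.dist z z' = 20 * R := hzz'
  obtain ⟨q, hq⟩ := hTq z (hST hzS)
  obtain ⟨q', hq'⟩ := hTq z' (hST hz'S)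
  obtain ⟨⟨i0, j0⟩, hij0, hmax⟩ := Finset.exists_max_image
    (Finset.range 4 ×ˢ Finset.range 4) (fun t => G.dist (q t.1) (q' t.2)) ⟨(0, 0), by simp⟩
  obtain ⟨hi0, hj0⟩ : i0 < 4 ∧ j0 < 4 := by
    simpa using hij0
  have hmax' : ∀ i j, i < 4 → j < 4 → G.dist (q i) (q' j) ≤ G.dist (q i0) (q' j0) := by
    intro i j hi hj
    exact hmax (i, j) (by simp [hi, hj])
  obtain ⟨p, hp0, hpL, hpg⟩ := exists_geo hG (q i0) (q' j0)
  set L := G.dist (q i0) (q' j0) with hL
  have hL1 : 18 * R ≤ L := by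
    have a1 := tri z (q i0) z'
    have a2 := tri (q i0) (q' j0) z'
    rw [comm (q' j0) z'] at a2
    have a3 := (hq i0 hi0).2
    have a4 := (hq' j0 hj0).2
    omega
  have hL2 : L ≤ 22 * R := by
    have a1 := tri (q i0) z (q' j0)
    have a2 := tri z z' (q' j0)
    rw [comm (q i0) z] at a1
    have a3 := (hq i0 hi0).2
    have a4 := (hq' j0 hj0).2
    omega
  have hthree : ∀ i < 4, ∃ a < 4, ∃ b < 4, ∃ c < 4, a ≠ i ∧ b ≠ i ∧ c ≠ i ∧ a ≠ b ∧ a ≠ c ∧
      b ≠ c := by decide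
  have hprops : ∀ a < 4, a ≠ i0 → R ≤ G.dist (q a) (p 0) ∧ G.dist (q a) (p 0) ≤ 2 * R ∧
      G.dist (q a) (p L) ≤ L := by
    intro a ha hai
    rw [hp0, hpL]
    refine ⟨hsep _ _ a i0 ha hi0 hai (hq a ha).1 (hq i0 hi0).1, ?_, hmax' a j0 ha hj0⟩
    have a1 := tri (q a) z (q i0)
    rw [comm (q a) z] at a1
    have a2 := (hq a ha).2
    have a3 := (hq i0 hi0).2
    omega
  have hprops' : ∀ a < 4, a ≠ j0 → R ≤ G.dist (q' a) (p (L - 0)) ∧
      G.dist (q' a) (p (L - 0)) ≤ 2 * R ∧ G.dist (q' a) (p (L - L)) ≤ L := by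
    intro a ha haj
    have e1 : L - 0 = L := Nat.sub_zero _
    have e2 : L - L = 0 := Nat.sub_self _
    rw [e1, e2, hp0, hpL]
    refine ⟨hsep _ _ a j0 ha hj0 haj (hq' a ha).1 (hq' j0 hj0).1, ?_, ?_⟩
    · have a1 := tri (q' a) z' (q' j0)
      rw [comm (q' a) z'] at a1
      have a2 := (hq' a ha).2
      have a3 := (hq' j0 hj0).2
      omega
    · rw [comm]
      exact hmax' i0 a hi0 ha
  obtain ⟨a, ha, b, hb, d, hd, hai, hbi, hdi, hab, had, hbd⟩ := hthree i0 hi0
  have hleft := side hG hpg hR hL1 hL2 (q a) (q b) (q d) (hprops a ha hai) (hprops b hb hbi)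
    (hprops d hd hdi) (hsep _ _ a b ha hb hab (hq a ha).1 (hq b hb).1)
    (hsep _ _ a d ha hd had (hq a ha).1 (hq d hd).1)
    (hsep _ _ b d hb hd hbd (hq b hb).1 (hq d hd).1)
  rcases hleft with ⟨j, hj1, hj2, hj3⟩ | ⟨m, u, v, hm5, hmR, hmk⟩
  · exact ⟨j, hj1, hj2, Or.inl hj3⟩
  obtain ⟨a', ha', b', hb', d', hd', hai', hbi', hdi', hab', had', hbd'⟩ := hthree j0 hj0
  have hright := side hG hpg.rev hR hL1 hL2 (q' a') (q' b') (q' d') (hprops' a' ha' hai')
    (hprops' b' hb' hbi') (hprops' d' hd' hdi')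
    (hsep _ _ a' b' ha' hb' hab' (hq' a' ha').1 (hq' b' hb').1)
    (hsep _ _ a' d' ha' hd' had' (hq' a' ha').1 (hq' d' hd').1)
    (hsep _ _ b' d' hb' hd' hbd' (hq' b' hb').1 (hq' d' hd').1)
  rcases hright with ⟨j, hj1, hj2, hj3⟩ | ⟨m', u', v', hm5', hmR', hmk'⟩
  · exact ⟨j, hj1, hj2, Or.inl hj3⟩
  have hfar : ∀ x ∈ ({u, v} : Set V), ∀ y ∈ ({u', v'} : Set V), x ≠ y ∧ ¬ G.Adj x y := by
    intro x hx y hy
    have hx2 : G.dist x (p m) ≤ 2 := by
      have b1 : G.dist u (p m) = 1 := SimpleGraph.dist_eq_one_iff_adj.2 hmk.2.1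
      have b2 : G.dist u v = 1 := SimpleGraph.dist_eq_one_iff_adj.2 hmk.2.2.1
      rcases hx with rfl | hx
      · omega
      · have hx' : x = v := hx
        subst hx'
        have b3 := tri x u (p m)
        rw [comm x u] at b3
        omega
    have hy2 : G.dist y (p (L - m')) ≤ 2 := by
      have b1 : G.dist u' (p (L - m')) = 1 := SimpleGraph.dist_eq_one_iff_adj.2 hmk'.2.1
      have b2 : G.dist u' v' = 1 := SimpleGraph.dist_eq_one_iff_adj.2 hmk'.2.2.1
      rcases hy with rfl | hy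
      · omega
      · have hy' : y = v' := hy
        subst hy'
        have b3 := tri y u' (p (L - m'))
        rw [comm y u'] at b3
        omega
    have b4 := hpg m (L - m') (by omega) (by omega)
    have b5 := tri (p m) x (p (L - m'))
    have b6 := tri x y (p (L - m'))
    rw [comm (p m) x] at b5
    have b7 : 2 ≤ G.dist x y := by omega
    constructor
    · rintro rfl
      rw [SimpleGraph.dist_self] at b7
      omega
    · intro hadj
      rw [SimpleGraph.dist_eq_one_iff_adj.2 hadj] at b7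
      omega
  obtain ⟨k, α, β, hk1, hk2, hk3⟩ := hasT_of_markers hpg.indPath (R := R) (by omega) hL1 hmk hmk'
    hm5 hmR hm5' hmR' hfar
  exact ⟨k, by omega, by omega, Or.inr ⟨α, β, hk3⟩⟩

open Classical in
/-- B2. -/
theorem coherent_pattern (M : ℕ) :
    ∃ (M' : ℕ) (ε : ℝ), 0 < ε ∧ ∀ (V : Type) [Fintype V] (G : SimpleGraph V) (μ : V → ℝ),
      Coherent G μ ε → ∑ x, μ x = 1 →
        ∃ j, M ≤ j ∧ j ≤ M' ∧ (HasHole G j ∨ ∃ α β, HasT G j α β) := by
  obtain ⟨R, hR⟩ : ∃ R : ℕ, R = M + 13 := ⟨_, rfl⟩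
  obtain ⟨ρ, hρ⟩ : ∃ ρ : ℕ, ρ = 20 * R := ⟨_, rfl⟩
  have hM0 : (0 : ℝ) ≤ M := Nat.cast_nonneg _
  have hρ0 : (0 : ℝ) ≤ ρ := Nat.cast_nonneg _
  obtain ⟨D, hD⟩ : ∃ D : ℝ, D = 2 * (ρ + 1) * M + 2 * M + 100 := ⟨_, rfl⟩
  have hρM : (0 : ℝ) ≤ 2 * (ρ + 1) * M := by positivity
  have hD100 : 100 ≤ D := by linarith
  have hDpos : 0 < D := by linarith
  obtain ⟨ε, hε⟩ : ∃ ε : ℝ, ε = 1 / (4 * D) := ⟨_, rfl⟩
  have hεpos : 0 < ε := by
    rw [hε]
    positivity
  refine ⟨2 * (ρ + 1) * M + 4 * (ρ + 1) + 10 + 50 * R, ε, hεpos, ?_⟩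
  intro V _ G μ h hsum
  have hDε : D * ε = 1 / 4 := by
    rw [hε]
    field_simp
  have hε100 : 100 * ε ≤ 1 / 4 := by nlinarith
  by_cases hball : ∀ W : Finset V, 1 / 2 ≤ wt μ W → ∃ u ∈ W, ε ≤ wt μ (ball G W u ρ)
  · obtain ⟨j, hj1, hj2, hj3⟩ := case_one M ρ h hsum hεpos (by
      have : (2 * (ρ + 1) * M + 2 * M + 20 : ℝ) ≤ D := by linarith
      nlinarith) hball
    exact ⟨j, hj1, by omega, Or.inl hj3⟩
  · push Not at hball
    obtain ⟨W, hW, hWb⟩ := hball
    obtain ⟨S, hSW, hSwt, hSc⟩ := h.giant hεpos (W := W) (by linarith)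
    obtain ⟨j, hj1, hj2, hj3⟩ := case_two_core (h.sg S) hεpos hSc (R := R) (by omega) (by
      rw [wt_sg]
      have : (Finset.univ : Finset {x // x ∈ S}).map (Function.Embedding.subtype _) = S := by
        ext x
        simp
      rw [this]
      linarith) (by
      intro u
      have := hWb u.1 (hSW u.2)
      rw [hρ] at this
      exact (h.ball_sg hSW hSc u (20 * R)).trans_lt this)
    refine ⟨j, by omega, by omega, ?_⟩
    rcases hj3 with hj3 | ⟨α, β, hj3⟩
    · exact Or.inl hj3.of_sg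
    · exact Or.inr ⟨α, β, hj3.of_sg⟩

end Pool.Agent.Lib.MP_18a3c4_co
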