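import Pool.Agent.Lib.MP_18a3c4_co.GraphonDig

/-!
Part C3 of the proof for MP_18a3c4_co: densities in zero-one graphons, and the level sequence.
-/

namespace Pool.Agent.Lib.MP_18a3c4_co.GraphonPart

open MeasureTheory Filter Set

section Ind

variable (R : SimpleGraph unitInterval)
  (hR : MeasurableSet {p : unitInterval × unitInterval | R.Adj p.1 p.2})

open Classical in
/-- The zero-one graphon of a measurable graph on the unit interval. -/
noncomputable def indGraphon : Graphon where
  W x y := if R.Adj x y then 1 else 0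
  measurable := by
    have : Measurable fun p : unitInterval × unitInterval =>
        if p ∈ {p : unitInterval × unitInterval | R.Adj p.1 p.2} then (1 : ℝ) else 0 :=
      Measurable.ite hR measurable_const measurable_const
    exact this
  symm x y := by simp [R.adj_comm]
  mem_Icc x y := by split_ifs <;> simp

/-- The tuples that induce the graph `K` in `R`. -/
def indSet {k : ℕ} (K : SimpleGraph (Fin k)) : Set (Fin k → unitInterval) :=
  {x | ∀ i j, K.Adj i j ↔ R.Adj (x i) (x j)}

include hR in
theorem measurableSet_indSet {k : ℕ} (K : SimpleGraph (Fin k)) : MeasurableSet (indSet R K) := by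
  have h0 : indSet R K = ⋂ i, ⋂ j, {x | K.Adj i j ↔ R.Adj (x i) (x j)} := by
    ext x
    simp [indSet]
  rw [h0]
  refine MeasurableSet.iInter fun i => MeasurableSet.iInter fun j => ?_
  have h1 : MeasurableSet {x : Fin k → unitInterval | R.Adj (x i) (x j)} := by
    have h2 : Measurable fun x : Fin k → unitInterval => (x i, x j) := by fun_prop
    exact h2 hR
  by_cases h : K.Adj i j
  · simpa [h] using h1
  · have h3 : {x : Fin k → unitInterval | K.Adj i j ↔ R.Adj (x i) (x j)} =
        {x : Fin k → unitInterval | R.Adj (x i) (x j)}ᶜ := by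
      ext x
      simp [h]
    rw [h3]
    exact h1.compl

theorem indDensity_eq {k : ℕ} (K : SimpleGraph (Fin k)) (ν : Measure unitInterval) :
    indDensity K (indGraphon R hR) ν =
      (Measure.pi fun _ : Fin k => ν).real (indSet R K) := by
  classical
  unfold indDensity
  rw [← integral_indicator_one (measurableSet_indSet R hR K)]
  congr 1
  funext x
  have h1 : ∀ e : Fin k × Fin k,
      (if K.Adj e.1 e.2 then (indGraphon R hR).W (x e.1) (x e.2)
        else 1 - (indGraphon R hR).W (x e.1) (x e.2)) =
      if (K.Adj e.1 e.2 ↔ R.Adj (x e.1) (x e.2)) then (1 : ℝ) else 0 := by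
    intro e
    by_cases h1 : K.Adj e.1 e.2 <;> by_cases h2 : R.Adj (x e.1) (x e.2) <;>
      simp [indGraphon, h1, h2]
  rw [Finset.prod_congr rfl fun e _ => h1 e, Finset.prod_ite_zero]
  by_cases hx : x ∈ indSet R K
  · rw [Set.indicator_of_mem hx, if_pos (fun (e : Fin k × Fin k) _ => hx e.1 e.2)]
    simp
  · rw [Set.indicator_of_notMem hx, if_neg]
    intro hcon
    apply hx
    intro i j
    rcases lt_trichotomy i j with h | h | h
    · exact hcon (i, j) (by simpa using h)
    · subst h
      simp
    · rw [K.adj_comm, R.adj_comm]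
      exact hcon (j, i) (by simpa using h)

end Ind

theorem pi_cell {N : ℕ} (c : unitInterval → Fin N) (hc : Measurable c)
    (hv : ∀ a, volume (c ⁻¹' {a}) = (N : ENNReal)⁻¹) (k : ℕ) (S : Set (Fin k → Fin N)) :
    (Measure.pi fun _ : Fin k => (volume : Measure unitInterval)).real
      {x | (fun i => c (x i)) ∈ S} = (Nat.card S : ℝ) / (N : ℝ) ^ k := by
  classical
  have h0 : {x : Fin k → unitInterval | (fun i => c (x i)) ∈ S} =
      ⋃ f ∈ S.toFinset, Set.univ.pi (fun i => c ⁻¹' {f i}) := by
    ext x
    simp only [Set.mem_toFinset, Set.mem_iUnion, Set.mem_pi, Set.mem_univ,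
      Set.mem_preimage, Set.mem_singleton_iff, true_imp_iff, exists_prop]
    change (fun i => c (x i)) ∈ S ↔ _
    constructor
    · intro h
      exact ⟨_, h, fun i => rfl⟩
    · rintro ⟨f, hf, hfx⟩
      have : (fun i => c (x i)) = f := funext hfx
      rw [this]
      exact hf
  rw [h0, measureReal_biUnion_finset]
  · have h1 : ∀ f : Fin k → Fin N,
        (Measure.pi fun _ : Fin k => (volume : Measure unitInterval)).real
          (Set.univ.pi (fun i => c ⁻¹' {f i})) = ((N : ℝ) ^ k)⁻¹ := by
      intro f
      rw [measureReal_def, Measure.pi_pi]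
      simp [hv]
    rw [Finset.sum_congr rfl fun f _ => h1 f, Finset.sum_const, nsmul_eq_mul, div_eq_mul_inv]
    congr 2
    rw [Nat.card_eq_fintype_card, Set.toFinset_card]
  · intro f _ g _ hfg
    rw [Function.onFun, Set.disjoint_left]
    intro x hx hx'
    apply hfg
    funext i
    have h1 := hx i (Set.mem_univ i)
    have h2 := hx' i (Set.mem_univ i)
    simp only [Set.mem_preimage, Set.mem_singleton_iff] at h1 h2
    rw [← h1, ← h2]
  · intro f _
    exact MeasurableSet.univ_pi fun i => hc (measurableSet_singleton _)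

/-- The level sequence: each index is used many times. -/
theorem exists_seq (s : ℕ → ℕ) (hs : ∀ b, 1 ≤ s b) :
    ∃ b : ℕ → ℕ, (∀ i, ∃ L, ∀ j, L ≤ j → b i < b j) ∧
      Tendsto (fun m => ∏ i ∈ Finset.range m, (1 - 1 / (s (b i) : ℝ))) atTop (nhds 0) := by
  classical
  let T : ℕ → ℕ := fun n => ∑ j ∈ Finset.range n, s j
  have hTs : ∀ n, T (n + 1) = T n + s n := fun n => Finset.sum_range_succ _ _
  have hTmono : Monotone T := monotone_nat_of_le_succ fun n => by rw [hTs]; omega
  have hTge : ∀ n, n ≤ T n := by
    intro n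
    induction n with
    | zero => simp
    | succ n ih => rw [hTs]; have := hs n; omega
  let b : ℕ → ℕ := fun i => Nat.findGreatest (fun n => T n ≤ i) i
  have hb : ∀ n r, r < s n → b (T n + r) = n := by
    intro n r hr
    simp only [b]
    rw [Nat.findGreatest_eq_iff]
    refine ⟨(hTge n).trans (Nat.le_add_right _ _), fun _ => Nat.le_add_right _ _, ?_⟩
    intro n' hn' _ hcon
    have h1 : T (n + 1) ≤ T n' := hTmono hn'
    rw [hTs] at h1
    omega
  have hbmono : Monotone b := by
    intro i j hij
    exact Nat.findGreatest_mono (fun n hn => le_trans hn hij) hij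
  refine ⟨b, ?_, ?_⟩
  · intro i
    refine ⟨T (b i + 1), fun j hj => ?_⟩
    have h1 := hb (b i + 1) 0 (hs _)
    rw [Nat.add_zero] at h1
    have h2 := hbmono hj
    omega
  · have hsum : ∀ n, ∑ i ∈ Finset.range (T n), (1 / (s (b i) : ℝ)) = n := by
      intro n
      induction n with
      | zero => simp [T]
      | succ n ih =>
        rw [hTs, Finset.sum_range_add, ih]
        have h1 : ∀ r ∈ Finset.range (s n), 1 / (s (b (T n + r)) : ℝ) = 1 / (s n : ℝ) := by
          intro r hr
          rw [hb n r (Finset.mem_range.mp hr)]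
        rw [Finset.sum_congr rfl h1, Finset.sum_const, Finset.card_range, nsmul_eq_mul]
        have h2 : (s n : ℝ) ≠ 0 := by have := hs n; positivity
        push_cast
        field_simp
    have hdiv : Tendsto (fun m => ∑ i ∈ Finset.range m, (1 / (s (b i) : ℝ))) atTop atTop := by
      rw [tendsto_atTop_atTop]
      intro C
      refine ⟨T ⌈C⌉₊, fun m hm => ?_⟩
      calc C ≤ (⌈C⌉₊ : ℝ) := Nat.le_ceil C
        _ = ∑ i ∈ Finset.range (T ⌈C⌉₊), (1 / (s (b i) : ℝ)) := (hsum _).symm
        _ ≤ _ := Finset.sum_le_sum_of_subset_of_nonneg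
              (Finset.range_subset_range.mpr hm) (fun _ _ _ => by positivity)
    have hexp : Tendsto (fun m => Real.exp (-∑ i ∈ Finset.range m, (1 / (s (b i) : ℝ)))) atTop
        (nhds 0) := by
      exact Real.tendsto_exp_neg_atTop_nhds_zero.comp hdiv
    refine tendsto_of_tendsto_of_tendsto_of_le_of_le tendsto_const_nhds hexp ?_ ?_
    · intro m
      refine Finset.prod_nonneg fun i _ => ?_
      have h2 : (1 : ℝ) ≤ s (b i) := by exact_mod_cast hs (b i)
      have h3 : 1 / (s (b i) : ℝ) ≤ 1 := by
        rw [div_le_one (by linarith)]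
        exact h2
      linarith
    · intro m
      simp only
      rw [← Finset.sum_neg_distrib, Real.exp_sum]
      refine Finset.prod_le_prod (fun i _ => ?_) (fun i _ => ?_)
      · have h2 : (1 : ℝ) ≤ s (b i) := by exact_mod_cast hs (b i)
        have h3 : 1 / (s (b i) : ℝ) ≤ 1 := by
          rw [div_le_one (by linarith)]
          exact h2
        linarith
      · have := Real.add_one_le_exp (-(1 / (s (b i) : ℝ)))
        linarith

end Pool.Agent.Lib.MP_18a3c4_co.GraphonPart
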