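import Pool.Agent.Lib.MP_18a3c4_co.GraphonStr

/-!
Part C2 of the proof for MP_18a3c4_co: mixed radix digits on the unit interval.
-/

namespace Pool.Agent.Lib.MP_18a3c4_co.GraphonPart

open MeasureTheory Set

section Digits

variable (h : ℕ → ℕ) (hpos : ∀ i, 0 < h i)

/-- The number of cells of level `m`. -/
def Nn (m : ℕ) : ℕ := ∏ i ∈ Finset.range m, h i

include hpos in
theorem Nn_pos (m : ℕ) : 0 < Nn h m := Finset.prod_pos fun i _ => hpos i

theorem Nn_succ (m : ℕ) : Nn h (m + 1) = Nn h m * h m := Finset.prod_range_succ _ _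

theorem Nn_zero : Nn h 0 = 1 := Finset.prod_range_zero _

/-- The cell of level `m` containing `x`. -/
noncomputable def cel (m : ℕ) (x : unitInterval) : Fin (Nn h m) :=
  ⟨⌊(Nn h m : ℝ) * x⌋₊ % Nn h m, Nat.mod_lt _ (Nn_pos h hpos m)⟩

/-- The digit of level `m` of `x`. -/
noncomputable def dig (x : unitInterval) (m : ℕ) : Fin (h m) :=
  ⟨⌊(Nn h (m + 1) : ℝ) * x⌋₊ % h m, Nat.mod_lt _ (hpos m)⟩

include hpos in
theorem floor_div (m : ℕ) (x : unitInterval) :
    ⌊(Nn h m : ℝ) * x⌋₊ = ⌊(Nn h (m + 1) : ℝ) * x⌋₊ / h m := by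
  rw [← Nat.floor_div_natCast]
  congr 1
  rw [Nn_succ]
  push_cast
  have : (h m : ℝ) ≠ 0 := by exact_mod_cast (hpos m).ne'
  field_simp

theorem cel_succ_val (m : ℕ) (x : unitInterval) :
    (cel h hpos (m + 1) x : ℕ) = (dig h hpos x m : ℕ) + h m * (cel h hpos m x : ℕ) := by
  simp only [cel, dig]
  rw [floor_div h hpos m x]
  have : Nn h (m + 1) = h m * Nn h m := by rw [Nn_succ, mul_comm]
  rw [this, Nat.mod_mul]

theorem cel_succ_iff (m : ℕ) (x y : unitInterval) :
    cel h hpos (m + 1) x = cel h hpos (m + 1) y ↔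
      cel h hpos m x = cel h hpos m y ∧ dig h hpos x m = dig h hpos y m := by
  rw [Fin.ext_iff, Fin.ext_iff, Fin.ext_iff, cel_succ_val, cel_succ_val]
  constructor
  · intro heq
    have h1 : (dig h hpos x m : ℕ) = dig h hpos y m := by
      have := congrArg (· % h m) heq
      simpa [Nat.add_mul_mod_self_left, Nat.mod_eq_of_lt (dig h hpos x m).2,
        Nat.mod_eq_of_lt (dig h hpos y m).2] using this
    refine ⟨?_, h1⟩
    rw [h1] at heq
    exact Nat.eq_of_mul_eq_mul_left (hpos m) (Nat.add_left_cancel heq)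
  · rintro ⟨h1, h2⟩
    rw [h1, h2]

theorem cel_eq_iff (m : ℕ) (x y : unitInterval) :
    cel h hpos m x = cel h hpos m y ↔ ∀ j < m, dig h hpos x j = dig h hpos y j := by
  induction m with
  | zero =>
    simp only [Nat.not_lt_zero, false_imp_iff, implies_true, iff_true]
    have h1 := (cel h hpos 0 x).2
    have h2 := (cel h hpos 0 y).2
    have h3 := Nn_zero h
    rw [Fin.ext_iff]
    omega
  | succ m ih =>
    rw [cel_succ_iff, ih]
    constructor
    · rintro ⟨h1, h2⟩ j hj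
      rcases Nat.lt_succ_iff_lt_or_eq.mp hj with h | h
      · exact h1 j h
      · subst h; exact h2
    · intro h1
      exact ⟨fun j hj => h1 j (by omega), h1 m (by omega)⟩

theorem measurable_cel (m : ℕ) : Measurable (cel h hpos m) := by
  have h1 : Measurable fun x : unitInterval => ⌊(Nn h m : ℝ) * x⌋₊ :=
    Nat.measurable_floor.comp (by fun_prop)
  exact (measurable_from_nat (f := fun n : ℕ => (⟨n % Nn h m, Nat.mod_lt _ (Nn_pos h hpos m)⟩ :
    Fin (Nn h m)))).comp h1

theorem measurable_dig (m : ℕ) : Measurable (fun x => dig h hpos x m) := by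
  have h1 : Measurable fun x : unitInterval => ⌊(Nn h (m + 1) : ℝ) * x⌋₊ :=
    Nat.measurable_floor.comp (by fun_prop)
  exact (measurable_from_nat (f := fun n : ℕ => (⟨n % h m, Nat.mod_lt _ (hpos m)⟩ :
    Fin (h m)))).comp h1

theorem volume_cel (m : ℕ) (a : Fin (Nn h m)) :
    volume (cel h hpos m ⁻¹' {a}) = ((Nn h m : ENNReal))⁻¹ := by
  have hN := Nn_pos h hpos m
  have hN' : (0 : ℝ) < Nn h m := by exact_mod_cast hN
  have ha : ((a : ℕ) : ℝ) + 1 ≤ Nn h m := by exact_mod_cast a.2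
  have ha0 : (0 : ℝ) ≤ ((a : ℕ) : ℝ) := Nat.cast_nonneg _
  let p : unitInterval := ⟨(a : ℕ) / (Nn h m : ℝ), by
    constructor
    · positivity
    · rw [div_le_one hN']; linarith⟩
  let q : unitInterval := ⟨((a : ℕ) + 1) / (Nn h m : ℝ), by
    constructor
    · positivity
    · rw [div_le_one hN']; linarith⟩
  have h1 : cel h hpos m ⁻¹' {a} \ {1} = Ico p q \ {1} := by
    ext x
    simp only [Set.mem_sdiff, Set.mem_preimage, Set.mem_singleton_iff, Set.mem_Ico]
    refine and_congr_left fun hx => ?_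
    have hx1 : (x : ℝ) < 1 := lt_of_le_of_ne x.2.2 (fun h => hx (Subtype.ext h))
    have hx0 : (0 : ℝ) ≤ x := x.2.1
    have hfl : ⌊(Nn h m : ℝ) * x⌋₊ < Nn h m := by
      rw [Nat.floor_lt (by positivity)]
      nlinarith
    rw [Fin.ext_iff]
    simp only [cel, Nat.mod_eq_of_lt hfl]
    rw [Nat.floor_eq_iff (by positivity), ← Subtype.coe_le_coe, ← Subtype.coe_lt_coe]
    simp only [p, q]
    rw [div_le_iff₀ hN', lt_div_iff₀ hN', mul_comm (x : ℝ)]
  have h2 : volume (cel h hpos m ⁻¹' {a}) = volume (Ico p q) := by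
    rw [← measure_sdiff_null (s := cel h hpos m ⁻¹' {a}) (t := {1}) (by simp), h1,
      measure_sdiff_null (by simp)]
  rw [h2, unitInterval.volume_Ico]
  simp only [p, q]
  have h3 : ((a : ℕ) + 1) / (Nn h m : ℝ) - (a : ℕ) / (Nn h m : ℝ) = (Nn h m : ℝ)⁻¹ := by
    field_simp
    ring
  rw [h3, ENNReal.ofReal_inv_of_pos hN']
  simp

/-- The grid points. -/
noncomputable def grid (m : ℕ) (a : Fin (Nn h m)) : unitInterval :=
  ⟨(a : ℕ) / (Nn h m : ℝ), by
    have hN' : (0 : ℝ) < Nn h m := by exact_mod_cast Nn_pos h hpos m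
    have ha : ((a : ℕ) : ℝ) < Nn h m := by exact_mod_cast a.2
    constructor
    · positivity
    · rw [div_le_one hN']; linarith⟩

theorem cel_grid (m : ℕ) (a : Fin (Nn h m)) : cel h hpos m (grid h hpos m a) = a := by
  have hN' : (Nn h m : ℝ) ≠ 0 := by exact_mod_cast (Nn_pos h hpos m).ne'
  rw [Fin.ext_iff]
  simp only [cel, grid]
  rw [mul_div_cancel₀ _ hN', Nat.floor_natCast, Nat.mod_eq_of_lt a.2]

end Digits

end Pool.Agent.Lib.MP_18a3c4_co.GraphonPart
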