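import Pool.Agent.Lib.MP_18a3c4_co.Tools

/-!
Part C1 of the proof for MP_18a3c4_co: the first-difference graph on infinite strings.
-/

namespace Pool.Agent.Lib.MP_18a3c4_co.GraphonPart

open Set

section Strings

variable {h : ℕ → ℕ} (H : ∀ i, SimpleGraph (Fin (h i)))

/-- The first-difference graph on infinite strings: two strings are adjacent when their entries at
the first level where they differ are adjacent in the graph of that level. -/
def strGraph : SimpleGraph (∀ i, Fin (h i)) where
  Adj d d' := ∃ m, (∀ j < m, d j = d' j) ∧ (H m).Adj (d m) (d' m)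
  symm := ⟨by
    rintro d d' ⟨m, h1, h2⟩
    exact ⟨m, fun j hj => (h1 j hj).symm, h2.symm⟩⟩
  loopless := ⟨by
    rintro d ⟨m, h1, h2⟩
    exact (H m).irrefl h2⟩

theorem strGraph_adj_iff {d d' : ∀ i, Fin (h i)} {m : ℕ} (h1 : ∀ j < m, d j = d' j)
    (h2 : d m ≠ d' m) : (strGraph H).Adj d d' ↔ (H m).Adj (d m) (d' m) := by
  constructor
  · rintro ⟨l, hl1, hl2⟩
    have hlm : l = m := by
      rcases lt_trichotomy l m with h | h | h
      · exact absurd (h1 l h) hl2.ne
      · exact h
      · exact absurd (hl1 m h) h2
    subst hlm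
    exact hl2
  · intro h3
    exact ⟨m, h1, h3⟩

theorem not_strGraph_adj_self {d d' : ∀ i, Fin (h i)} (h1 : ∀ j, d j = d' j) :
    ¬ (strGraph H).Adj d d' := by
  rintro ⟨l, hl1, hl2⟩
  exact hl2.ne (h1 l)

/-- The strings `e v` agree below level `m`; then `M = {v : e v m = a}` is a module. -/
theorem isModule_class {V : Type} (e : V → ∀ i, Fin (h i)) (m : ℕ)
    (hm : ∀ u v, ∀ j < m, e u j = e v j) (a : Fin (h m)) :
    IsModule ((strGraph H).comap e) {v | e v m = a} := by
  intro x hx u hu v hv
  change e x m ≠ a at hx
  change e u m = a at hu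
  change e v m = a at hv
  simp only [SimpleGraph.comap_adj]
  rw [strGraph_adj_iff H (hm x u) (by rw [hu]; exact hx),
    strGraph_adj_iff H (hm x v) (by rw [hv]; exact hx), hu, hv]

/-- If the entries at level `m` are distinct (and the strings agree below) the graph embeds in the
graph of level `m`. -/
theorem embeds_level {V : Type} (e : V → ∀ i, Fin (h i)) (m : ℕ)
    (hm : ∀ u v, ∀ j < m, e u j = e v j) (hinj : Function.Injective fun v => e v m) :
    Nonempty ((strGraph H).comap e ↪g H m) := by
  refine ⟨⟨⟨fun v => e v m, hinj⟩, ?_⟩⟩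
  intro u v
  simp only [Function.Embedding.coeFn_mk, SimpleGraph.comap_adj]
  by_cases huv : u = v
  · subst huv
    simp
  · rw [strGraph_adj_iff H (hm u v) (fun h => huv (hinj h))]

theorem inCls_strGraph (𝓐 : HereditaryClass) (hmod : ModuleClosed 𝓐) (hpos : ∀ i, 0 < h i)
    (hH : ∀ i, 𝓐.mem (h i) (H i)) :
    ∀ (n : ℕ) (V : Type) [Finite V] (e : V → ∀ i, Fin (h i)), Function.Injective e →
      Nat.card V ≤ n → InCls 𝓐 ((strGraph H).comap e) := by
  intro n
  induction n with
  | zero =>
    intro V _ e he hn
    have hV : IsEmpty V := by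
      rcases Nat.card_eq_zero.mp (Nat.le_zero.mp hn) with h | h
      · exact h
      · exact absurd ‹Finite V› h.not_finite
    refine ((inCls_iff 𝓐 (H 0)).mpr (hH 0)).mono ⟨⟨⟨fun v => isEmptyElim v, ?_⟩, ?_⟩⟩
    · intro a; exact isEmptyElim a
    · intro a; exact isEmptyElim a
  | succ n ih =>
    intro V _ e he hn
    by_cases hsub : Subsingleton V
    · refine ((inCls_iff 𝓐 (H 0)).mpr (hH 0)).mono ⟨⟨⟨fun _ => ⟨0, hpos 0⟩, ?_⟩, ?_⟩⟩
      · intro a b _
        exact Subsingleton.elim a b
      · intro a b
        have : a = b := Subsingleton.elim a b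
        subst this
        simp
    · have hex : ∃ m, ∃ a b, e a m ≠ e b m := by
        by_contra hcon
        push Not at hcon
        refine hsub ⟨fun a b => he ?_⟩
        funext m
        exact hcon m a b
      classical
      let m := Nat.find hex
      have hm : ∃ a b, e a m ≠ e b m := Nat.find_spec hex
      have hlt : ∀ u v, ∀ j < m, e u j = e v j := by
        intro u v j hj
        have := Nat.find_min hex hj
        push Not at this
        exact this u v
      by_cases hinj : Function.Injective fun v => e v m
      · exact ((inCls_iff 𝓐 (H m)).mpr (hH m)).mono (embeds_level H e m hlt hinj)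
      · have hnot : ∃ a b, e a m = e b m ∧ a ≠ b := by
          unfold Function.Injective at hinj
          push Not at hinj
          exact hinj
        obtain ⟨a, b, hab, hne⟩ := hnot
        obtain ⟨c, hc⟩ : ∃ c, e c m ≠ e a m := by
          obtain ⟨u, v, huv⟩ := hm
          by_cases hu : e u m = e a m
          · exact ⟨v, fun hv => huv (hu.trans hv.symm)⟩
          · exact ⟨u, hu⟩
        have key : ∀ (S : Set V) (w : V), w ∉ S →
            InCls 𝓐 (((strGraph H).comap e).induce S) := by
          intro S w hw
          have h1 : ((strGraph H).comap e).induce S = (strGraph H).comap (fun v : S => e v.1) := by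
            ext u v
            simp
          rw [h1]
          refine ih S (fun v : S => e v.1) (fun u v huv => Subtype.ext (he huv)) ?_
          have h2 : Nat.card S < Nat.card V := by
            rw [Nat.card_coe_set_eq, ← Set.ncard_univ]
            refine Set.ncard_lt_ncard ?_ (Set.toFinite _)
            exact (Set.ssubset_univ_iff).mpr (fun h => hw (h ▸ Set.mem_univ w))
          omega
        refine hmod V _ {v | e v m = e a m} a rfl (isModule_class H e m hlt (e a m))
          (key _ b ?_) (key _ c ?_)
        · intro hb
          rcases hb with hb | hb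
          · exact hne hb.symm
          · exact hb (by simpa using hab.symm)
        · simpa using hc

/-- A prime graph with at least three vertices induced by strings that agree below level `L`
embeds in the graph of some level `m ≥ L`. -/
theorem embeds_of_prime {k : ℕ} (K : SimpleGraph (Fin k)) (hK : IsPrimeGraph K) (hk : 3 ≤ k)
    (e : Fin k → ∀ i, Fin (h i)) (he : K = (strGraph H).comap e) (L : ℕ)
    (hL : ∀ u v, ∀ j < L, e u j = e v j) : ∃ m, L ≤ m ∧ Nonempty (K ↪g H m) := by
  by_cases hex : ∃ m, ∃ a b, e a m ≠ e b m
  · classical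
    let m := Nat.find hex
    have hm : ∃ a b, e a m ≠ e b m := Nat.find_spec hex
    have hlt : ∀ u v, ∀ j < m, e u j = e v j := by
      intro u v j hj
      have := Nat.find_min hex hj
      push Not at this
      exact this u v
    have hLm : L ≤ m := by
      by_contra hcon
      obtain ⟨a, b, hab⟩ := hm
      exact hab (hL a b m (not_le.mp hcon))
    refine ⟨m, hLm, ?_⟩
    rw [he]
    refine embeds_level H e m hlt ?_
    intro a b hab
    by_contra hne
    have hM := hK {v | e v m = e a m} (by rw [he]; exact isModule_class H e m hlt (e a m))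
      ⟨a, rfl, b, hab.symm, hne⟩
    obtain ⟨u, v, huv⟩ := hm
    have hu : u ∈ {v | e v m = e a m} := by rw [hM]; exact Set.mem_univ u
    have hv : v ∈ {v | e v m = e a m} := by rw [hM]; exact Set.mem_univ v
    exact huv (hu.trans hv.symm)
  · push Not at hex
    exfalso
    have hno : ∀ u v, ¬ K.Adj u v := by
      intro u v
      rw [he]
      exact not_strGraph_adj_self H (fun j => hex j u v)
    have hM := hK {⟨0, by omega⟩, ⟨1, by omega⟩} (by
      intro x _ a _ b _
      exact iff_of_false (hno x a) (hno x b))
      ⟨⟨0, by omega⟩, by simp, ⟨1, by omega⟩, by simp, by simp⟩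
    have h2 : (⟨2, by omega⟩ : Fin k) ∈ ({⟨0, by omega⟩, ⟨1, by omega⟩} : Set (Fin k)) := by
      rw [hM]; exact Set.mem_univ _
    simp at h2

end Strings

end Pool.Agent.Lib.MP_18a3c4_co.GraphonPart
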