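import Pool.Agent.Lib.MP_18a3c4_co.Paths

namespace Pool.Agent.Lib.MP_18a3c4_co

variable {V : Type} {G : SimpleGraph V}

/-- Two induced paths glued at their ends form a hole. -/
theorem hole_of_two_paths {w q : ℕ → V} {t s : ℕ} (hw : IsIndPath G w t) (hq : IsIndPath G q s)
    (hs : 1 ≤ s) (hdisj : ∀ i ≤ t, ∀ j ≤ s, w i ≠ q j)
    (hadj : ∀ i ≤ t, ∀ j ≤ s, G.Adj (w i) (q j) ↔ ((i = t ∧ j = 0) ∨ (i = 0 ∧ j = s))) :
    HasHole G (t + s + 2) := by
  refine ⟨fun n => if n ≤ t then w n else q (n - (t + 1)), ?_⟩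
  intro a ha b hb
  by_cases h1 : a ≤ t
  · by_cases h2 : b ≤ t
    · simp only [h1, h2, if_true]
      refine ⟨(hw a h1 b h2).1, ?_⟩
      rw [(hw a h1 b h2).2]
      omega
    · simp only [h1, h2, if_true, if_false]
      refine ⟨fun h => absurd h (hdisj a h1 _ (by omega)), ?_⟩
      rw [hadj a h1 _ (by omega)]
      omega
  · by_cases h2 : b ≤ t
    · simp only [h1, h2, if_true, if_false]
      refine ⟨fun h => absurd h.symm (hdisj b h2 _ (by omega)), ?_⟩
      rw [G.adj_comm, hadj b h2 _ (by omega)]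
      omega
    · simp only [h1, h2, if_false]
      have := hq (a - (t + 1)) (by omega) (b - (t + 1)) (by omega)
      refine ⟨fun h => ?_, ?_⟩
      · have := this.1 h
        omega
      · rw [this.2]
        omega

theorem IsIndPath.mono {p : ℕ → V} {k l : ℕ} (h : IsIndPath G p k) (hl : l ≤ k) :
    IsIndPath G p l := fun i hi j hj => h i (hi.trans hl) j (hj.trans hl)

theorem IsIndPath.shift {p : ℕ → V} {k : ℕ} (h : IsIndPath G p k) (a l : ℕ) (hl : a + l ≤ k) :
    IsIndPath G (fun i => p (a + i)) l := by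
  intro i hi j hj
  have := h (a + i) (by omega) (a + j) (by omega)
  refine ⟨fun e => ?_, ?_⟩
  · have := this.1 e
    omega
  · rw [this.2]
    omega

theorem IsIndPath.rev {p : ℕ → V} {k : ℕ} (h : IsIndPath G p k) (b l : ℕ) (hb : b ≤ k)
    (hl : l ≤ b) : IsIndPath G (fun i => p (b - i)) l := by
  intro i hi j hj
  have := h (b - i) (by omega) (b - j) (by omega)
  refine ⟨fun e => ?_, ?_⟩
  · have := this.1 e
    omega
  · rw [this.2]
    omega

/-- The hole lemma. -/
theorem hole_of_bypass {p : ℕ → V} {L : ℕ} (hp : IsIndPath G p L) {a b r : ℕ} (hab : a < b)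
    (hbL : b ≤ L) (R : Set V) (hRp : ∀ i ≤ L, p i ∉ R) {x y : V} (hconn : Within G R r x y)
    (hxa : ∃ i ≤ a, G.Adj x (p i)) (hyb : ∃ j, b ≤ j ∧ j ≤ L ∧ G.Adj y (p j))
    (hgap : ∀ z ∈ R, ∀ i, a < i → i < b → ¬ G.Adj z (p i)) :
    ∃ j, b - a + 2 ≤ j ∧ j ≤ L + r + 2 ∧ HasHole G j := by
  classical
  -- lengths of walks in `R` joining the two attachment sets
  let P : ℕ → Prop := fun l => ∃ w : ℕ → V, (∃ i ≤ a, G.Adj (w 0) (p i)) ∧ IsWk G w l ∧
    (∀ i ≤ l, w i ∈ R) ∧ ∃ j, b ≤ j ∧ j ≤ L ∧ G.Adj (w l) (p j)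
  have hex : ∃ l, P l := by
    obtain ⟨w, l, hl, h0, h1, hw, hR⟩ := hconn
    exact ⟨l, w, by rwa [h0], hw, hR, by rwa [h1]⟩
  have hle : Nat.find hex ≤ r := by
    obtain ⟨w, l, hl, h0, h1, hw, hR⟩ := hconn
    exact (Nat.find_min' hex ⟨w, by rwa [h0], hw, hR, by rwa [h1]⟩).trans hl
  have hlt : ∀ m, m < Nat.find hex → ¬ P m := fun m hm => Nat.find_min hex hm
  obtain ⟨w, hwa, hw, hR, hwb⟩ := Nat.find_spec hex
  set t := Nat.find hex with ht
  -- `w` is an induced path of minimal length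
  have hmin := exists_min_walk (G := G) R (fun v => ∃ j, b ≤ j ∧ j ≤ L ∧ G.Adj v (p j)) (w 0) t
    ⟨w, t, le_rfl, rfl, hw, fun i _ hi => hR i hi, hwb⟩
  obtain ⟨c, l, hlt', hc0, hc, hcS, hcT, hcmin⟩ := hmin
  have hcR : ∀ i ≤ l, c i ∈ R := by
    intro i hi
    by_cases h0 : i = 0
    · subst h0
      rw [hc0]
      exact hR 0 (Nat.zero_le _)
    · exact hcS i (by omega) hi
  have hwk : IsWk G c l := fun i hi => (hc i (by omega) (i + 1) (by omega)).2.2 (Or.inl rfl)
  have hlt2 : l = t := by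
    by_contra hne
    exact hlt l (by omega) ⟨c, by rwa [hc0], hwk, hcR, hcT⟩
  subst hlt2
  -- no inner vertex is adjacent to the first part
  have hfirst : ∀ i, 1 ≤ i → i ≤ t → ∀ j ≤ a, ¬ G.Adj (c i) (p j) := by
    intro i hi1 hi2 j hj hadj
    refine hlt (t - i) (by omega) ⟨fun n => c (i + n), ⟨j, hj, by simpa using hadj⟩, ?_, ?_, ?_⟩
    · intro n hn
      have := hwk (i + n) (by omega)
      simpa [add_assoc] using this
    · intro n hn
      exact hcR _ (by omega)
    · have e : i + (t - i) = t := by omega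
      simp only [e]
      exact hcT
  -- extreme attachments
  have hA : ∃ a', a' ≤ a ∧ G.Adj (c 0) (p a') ∧ ∀ j, a' < j → j ≤ a → ¬ G.Adj (c 0) (p j) := by
    have hex2 : ∃ n, n ≤ a ∧ G.Adj (c 0) (p (a - n)) := by
      obtain ⟨i, hi, hadj⟩ := hwa
      refine ⟨a - i, by omega, ?_⟩
      have e : a - (a - i) = i := by omega
      rw [e, hc0]
      exact hadj
    refine ⟨a - Nat.find hex2, by omega, (Nat.find_spec hex2).2, ?_⟩
    intro j hj1 hj2 hadj
    have h3 := Nat.find_min hex2 (m := a - j) (by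
      have := (Nat.find_spec hex2).1
      omega)
    apply h3
    refine ⟨by omega, ?_⟩
    have e : a - (a - j) = j := by omega
    rw [e]
    exact hadj
  obtain ⟨a', ha', hadja, hmaxa⟩ := hA
  have hB : ∃ b', b ≤ b' ∧ b' ≤ L ∧ G.Adj (c t) (p b') ∧
      ∀ j, b ≤ j → j < b' → ¬ G.Adj (c t) (p j) := by
    have hex3 : ∃ n, b ≤ n ∧ n ≤ L ∧ G.Adj (c t) (p n) := hcT
    refine ⟨Nat.find hex3, (Nat.find_spec hex3).1, (Nat.find_spec hex3).2.1,
      (Nat.find_spec hex3).2.2, ?_⟩
    intro j hj1 hj2 hadj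
    exact Nat.find_min hex3 hj2 ⟨hj1, by have := (Nat.find_spec hex3).2.1; omega, hadj⟩
  obtain ⟨b', hb1, hb2, hadjb, hminb⟩ := hB
  have hq := hp.rev b' (b' - a') hb2 (by omega)
  refine ⟨t + (b' - a') + 2, by omega, by omega, ?_⟩
  refine hole_of_two_paths hc hq (by omega) ?_ ?_
  · intro i hi j hj h
    exact hRp (b' - j) (by omega) (h ▸ hcR i hi)
  · intro i hi j hj
    constructor
    · intro hadj
      -- position on the path
      set n := b' - j with hn
      rcases lt_or_ge a n with h1 | h1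
      · rcases lt_or_ge n b with h2 | h2
        · exact absurd hadj (hgap _ (hcR i hi) n h1 h2)
        · by_cases hil : i = t
          · subst hil
            left
            refine ⟨rfl, ?_⟩
            by_contra hj0
            exact hminb n h2 (by omega) hadj
          · exact absurd ⟨n, h2, by omega, hadj⟩ (hcmin i (by omega))
      · by_cases hi0 : i = 0
        · subst hi0
          right
          refine ⟨rfl, ?_⟩
          by_contra hj0
          exact hmaxa n (by omega) h1 hadj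
        · exact absurd hadj (hfirst i (by omega) hi n h1)
    · rintro (⟨rfl, rfl⟩ | ⟨rfl, rfl⟩)
      · simpa using hadjb
      · have e : b' - (b' - a') = a' := by omega
        simp only [e]
        exact hadja

end Pool.Agent.Lib.MP_18a3c4_co
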