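import Pool.Agent.Lib.MP_18a3c4_co.Hole

/-!
Coherent massed graphs: basic facts.
-/

namespace Pool.Agent.Lib.MP_18a3c4_co

variable {V : Type} [Fintype V] {G : SimpleGraph V} {μ : V → ℝ} {ε : ℝ}

open Classical in
/-- `(G, μ)` is ε-coherent. -/
def Coherent {V : Type} [Fintype V] (G : SimpleGraph V) (μ : V → ℝ) (ε : ℝ) : Prop :=
  (∀ v, 0 ≤ μ v) ∧ (∀ v, ∑ x, (if x = v ∨ G.Adj v x then μ x else 0) ≤ ε) ∧
  ∀ A B : Finset V, Disjoint A B → (∀ a ∈ A, ∀ b ∈ B, ¬ G.Adj a b) →
    ∑ x ∈ A, μ x < ε ∨ ∑ x ∈ B, μ x < ε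

/-- mass of a finite set -/
def wt {V : Type} (μ : V → ℝ) (S : Finset V) : ℝ := ∑ x ∈ S, μ x

open Classical in
/-- closed neighbourhood -/
noncomputable def cN {V : Type} [Fintype V] (G : SimpleGraph V) (v : V) : Finset V :=
  Finset.univ.filter fun x => x = v ∨ G.Adj v x

open Classical in
/-- closed neighbourhood of a set -/
noncomputable def cNs {V : Type} [Fintype V] (G : SimpleGraph V) (S : Finset V) : Finset V :=
  Finset.univ.filter fun x => ∃ v ∈ S, x = v ∨ G.Adj v x

theorem mem_cN {v x : V} : x ∈ cN G v ↔ x = v ∨ G.Adj v x := by simp [cN]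

theorem mem_cNs {S : Finset V} {x : V} : x ∈ cNs G S ↔ ∃ v ∈ S, x = v ∨ G.Adj v x := by
  simp [cNs]

theorem subset_cNs {S : Finset V} : S ⊆ cNs G S := fun x hx => mem_cNs.2 ⟨x, hx, Or.inl rfl⟩

theorem Coherent.wt_cN (h : Coherent G μ ε) (v : V) : wt μ (cN G v) ≤ ε := by
  have := h.2.1 v
  rwa [← Finset.sum_filter] at this

theorem Coherent.nonneg (h : Coherent G μ ε) (v : V) : 0 ≤ μ v := h.1 v

theorem Coherent.wt_nonneg (h : Coherent G μ ε) (S : Finset V) : 0 ≤ wt μ S :=
  Finset.sum_nonneg fun x _ => h.1 x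

theorem Coherent.wt_mono (h : Coherent G μ ε) {S T : Finset V} (hST : S ⊆ T) :
    wt μ S ≤ wt μ T :=
  Finset.sum_le_sum_of_subset_of_nonneg hST fun x _ _ => h.1 x

theorem Coherent.eps_nonneg [Nonempty V] (h : Coherent G μ ε) : 0 ≤ ε :=
  (h.wt_nonneg _).trans (h.wt_cN (Classical.arbitrary V))

open Classical in
theorem Coherent.wt_union_le (h : Coherent G μ ε) (S T : Finset V) :
    wt μ (S ∪ T) ≤ wt μ S + wt μ T := by
  have := Finset.sum_union_inter (s₁ := S) (s₂ := T) (f := μ)
  have h2 := h.wt_nonneg (S ∩ T)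
  unfold wt at *
  linarith

open Classical in
theorem Coherent.wt_sdiff (_h : Coherent G μ ε) {S T : Finset V} (hST : T ⊆ S) :
    wt μ (S \ T) = wt μ S - wt μ T := by
  have := Finset.sum_sdiff (f := μ) hST
  unfold wt
  linarith

open Classical in
theorem Coherent.wt_sdiff_le (h : Coherent G μ ε) (S T : Finset V) :
    wt μ S - wt μ T ≤ wt μ (S \ T) := by
  have h1 := h.wt_union_le (S \ T) T
  have h2 := h.wt_mono (Finset.subset_union_left (s₁ := S) (s₂ := T))
  rw [Finset.sdiff_union_self_eq_union] at h1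
  linarith

theorem Coherent.anti (h : Coherent G μ ε) {A B : Finset V} (hd : Disjoint A B)
    (hA : ε ≤ wt μ A) (hB : ε ≤ wt μ B) : ∃ a ∈ A, ∃ b ∈ B, G.Adj a b := by
  by_contra hne
  push Not at hne
  rcases h.2.2 A B hd hne with h1 | h1
  · exact absurd h1 (not_lt.2 hA)
  · exact absurd h1 (not_lt.2 hB)

open Classical in
theorem Coherent.wt_insert_le (h : Coherent G μ ε) (S : Finset V) (v : V) :
    wt μ (cNs G (insert v S)) ≤ wt μ (cNs G S) + ε := by
  have h1 : cNs G (insert v S) ⊆ cNs G S ∪ cN G v := by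
    intro x hx
    obtain ⟨y, hy, hxy⟩ := mem_cNs.1 hx
    rcases Finset.mem_insert.1 hy with rfl | hy
    · exact Finset.mem_union_right _ (mem_cN.2 hxy)
    · exact Finset.mem_union_left _ (mem_cNs.2 ⟨y, hy, hxy⟩)
  have h2 := h.wt_mono h1
  have h3 := h.wt_union_le (cNs G S) (cN G v)
  have h4 := h.wt_cN v
  linarith

open Classical in
/-- A subset where a set function with small increments has just passed a threshold. -/
theorem exists_subset_window {α : Type} (f : Finset α → ℝ) (X : Finset α) (κ δ : ℝ)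
    (hstep : ∀ S x, f (insert x S) ≤ f S + δ) (h0 : f ∅ < κ) (hX : κ ≤ f X) :
    ∃ Y ⊆ X, κ ≤ f Y ∧ f Y < κ + δ := by
  induction X using Finset.induction_on with
  | empty => exact absurd h0 (not_lt.2 hX)
  | insert x X _ ih =>
    by_cases h1 : κ ≤ f X
    · obtain ⟨Y, hY, h2⟩ := ih h1
      exact ⟨Y, hY.trans (Finset.subset_insert _ _), h2⟩
    · push Not at h1
      refine ⟨insert x X, subset_rfl, hX, ?_⟩
      have := hstep X x
      linarith

open Classical in
theorem Coherent.wt_path (h : Coherent G μ ε) (z : ℕ → V) (k : ℕ) :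
    wt μ (cNs G ((Finset.range k).image z)) ≤ k * ε := by
  induction k with
  | zero => simp [cNs, wt]
  | succ k ih =>
    rw [Finset.range_add_one, Finset.image_insert]
    have := h.wt_insert_le ((Finset.range k).image z) (z k)
    push_cast
    linarith

open Classical in
/-- ball in `G[W]` -/
noncomputable def ball {V : Type} (G : SimpleGraph V) (W : Finset V) (u : V) : ℕ → Finset V
  | 0 => {u}
  | r + 1 => ball G W u r ∪ W.filter fun x => ∃ y ∈ ball G W u r, G.Adj y x

omit [Fintype V] in
theorem ball_subset {W : Finset V} {u : V} (hu : u ∈ W) (r : ℕ) : ball G W u r ⊆ W := by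
  classical
  induction r with
  | zero => simpa [ball] using hu
  | succ r ih =>
    intro x hx
    simp only [ball, Finset.mem_union, Finset.mem_filter] at hx
    rcases hx with hx | hx
    · exact ih hx
    · exact hx.1

omit [Fintype V] in
theorem ball_mono {W : Finset V} {u : V} (r : ℕ) : ball G W u r ⊆ ball G W u (r + 1) := by
  classical
  intro x hx
  simp only [ball, Finset.mem_union]
  exact Or.inl hx

omit [Fintype V] in
theorem mem_ball_self {W : Finset V} {u : V} (r : ℕ) : u ∈ ball G W u r := by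
  induction r with
  | zero => simp [ball]
  | succ r ih => exact ball_mono r ih

omit [Fintype V] in
theorem ball_within {W : Finset V} {u x : V} {r : ℕ} (hx : x ∈ ball G W u r) :
    Within G (↑(ball G W u r) : Set V) r u x := by
  classical
  induction r generalizing x with
  | zero =>
    have : x = u := by simpa [ball] using hx
    subst this
    exact Within.refl hx
  | succ r ih =>
    have hx' := hx
    simp only [ball, Finset.mem_union, Finset.mem_filter] at hx'
    rcases hx' with h1 | ⟨_, y, hy, hadj⟩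
    · exact (ih h1).mono (Finset.coe_subset.2 (ball_mono r)) (Nat.le_succ r)
    · exact ((ih hy).mono (Finset.coe_subset.2 (ball_mono r)) le_rfl).trans
        (Within.single (Finset.mem_coe.2 (ball_mono r hy)) (Finset.mem_coe.2 hx) hadj)

/-- `D` is connected with all walks of length at most `r`. -/
def DiamLe {V : Type} (G : SimpleGraph V) (D : Finset V) (r : ℕ) : Prop :=
  ∀ x ∈ D, ∀ y ∈ D, Within G (↑D : Set V) r x y

open Classical in
theorem Coherent.of_ball (h : Coherent G μ ε) {W : Finset V} {u : V} (hu : u ∈ W) {ρ : ℕ}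
    (hb : ε ≤ wt μ (ball G W u ρ)) :
    ∃ D ⊆ W, wt μ W - ε < wt μ D ∧ DiamLe G D (2 * (ρ + 1)) := by
  refine ⟨ball G W u (ρ + 1), ball_subset hu _, ?_, ?_⟩
  · have h1 : wt μ (W \ ball G W u (ρ + 1)) < ε := by
      by_contra hne
      push Not at hne
      obtain ⟨a, ha, b, hb', hadj⟩ := h.anti (A := ball G W u ρ)
        (B := W \ ball G W u (ρ + 1))
        (Finset.disjoint_left.2 fun x hx hx' =>
          (Finset.mem_sdiff.1 hx').2 (ball_mono ρ hx)) hb hne
      obtain ⟨hbW, hbn⟩ := Finset.mem_sdiff.1 hb'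
      apply hbn
      simp only [ball, Finset.mem_union, Finset.mem_filter]
      exact Or.inr ⟨hbW, a, ha, hadj⟩
    rw [h.wt_sdiff (ball_subset hu _)] at h1
    linarith
  · intro x hx y hy
    have := (ball_within hx).symm.trans (ball_within hy)
    rwa [← two_mul] at this

end Pool.Agent.Lib.MP_18a3c4_co
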