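import Pool.Agent.Lib.MP_18a3c4_co.Geo

/-!
Normalising markers and assembling the graph `T(k, α, β)`.
-/

namespace Pool.Agent.Lib.MP_18a3c4_co

variable {V : Type} {G : SimpleGraph V}

/-- Replace a path vertex. -/
theorem IsIndPath.replace {p : ℕ → V} {L : ℕ} (hp : IsIndPath G p L) (m : ℕ) (u : V)
    (hu : ∀ i ≤ L, i ≠ m → p i ≠ u) (hadj : ∀ i ≤ L, i ≠ m → (G.Adj u (p i) ↔ (i + 1 = m ∨ i = m + 1))) :
    IsIndPath G (fun n => if n = m then u else p n) L := by
  intro i hi j hj
  by_cases h1 : i = m
  · by_cases h2 : j = m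
    · subst h1
      subst h2
      simp
    · simp only [h1, h2, if_true, if_false]
      refine ⟨fun e => absurd e.symm (hu j hj h2), ?_⟩
      rw [hadj j hj h2]
      omega
  · by_cases h2 : j = m
    · simp only [h1, h2, if_true, if_false]
      refine ⟨fun e => absurd e (hu i hi h1), ?_⟩
      rw [G.adj_comm, hadj i hi h1]
      omega
    · simp only [h1, h2, if_false]
      exact hp i hi j hj

theorem normalise {p : ℕ → V} {L c : ℕ} {u v : V} (hp : IsIndPath G p L)
    (hm : Marker G p L c u v) (_hc3 : 3 ≤ c) (_hcL : c + 3 ≤ L) :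
    ∃ (p' : ℕ → V) (w : V) (e : ℕ) (α : Bool), IsIndPath G p' L ∧
      (∀ i, p' i = p i ∨ p' i = u) ∧ (∀ i, c + 2 < i → p' i = p i) ∧
      (∀ i, i + 2 < c → p' i = p i) ∧
      (w = u ∨ w = v) ∧ c ≤ e + 2 ∧ e ≤ c + 1 ∧ (∀ i ≤ L, p' i ≠ w) ∧
      ∀ i ≤ L, (G.Adj w (p' i) ↔ (i = e ∨ (α = true ∧ i = e + 1))) := by
  classical
  obtain ⟨hcL', huc, huv, hout, hnear⟩ := hm
  -- the smallest neighbour
  have hex : ∃ n, n ≤ L ∧ G.Adj u (p n) := ⟨c, hcL', huc⟩
  obtain ⟨haL, hua⟩ := Nat.find_spec hex
  have hamin : ∀ i ≤ L, G.Adj u (p i) → Nat.find hex ≤ i := fun i hi h => Nat.find_min' hex ⟨hi, h⟩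
  set a := Nat.find hex with ha
  have hac : a ≤ c := hamin c hcL' huc
  have hca : c ≤ a + 2 := hnear a haL c hcL' hua huc
  have hadj : ∀ i ≤ L, G.Adj u (p i) → i = a ∨ i = a + 1 ∨ i = a + 2 := by
    intro i hi h
    have h1 := hamin i hi h
    have h2 := hnear a haL i hi hua h
    omega
  by_cases h2 : G.Adj u (p (a + 2))
  · -- reroute through `u`
    refine ⟨fun n => if n = a + 1 then u else p n, v, a + 1, false, ?_, ?_, ?_, ?_, Or.inr rfl,
      by omega, by omega, ?_, ?_⟩
    · refine hp.replace (a + 1) u (fun i hi _ => (hout i hi).1) ?_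
      intro i hi hne
      constructor
      · intro h
        have := hadj i hi h
        omega
      · rintro (h | h)
        · have : i = a := by omega
          rw [this]
          exact hua
        · have : i = a + 2 := by omega
          rw [this]
          exact h2
    · intro i
      by_cases h : i = a + 1
      · right
        simp [h]
      · left
        simp [h]
    · intro i hi
      have h : i ≠ a + 1 := by omega
      simp [h]
    · intro i hi
      have h : i ≠ a + 1 := by omega
      simp [h]
    · intro i hi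
      by_cases h : i = a + 1
      · simp only [h, if_true]
        exact huv.ne
      · simp only [h, if_false]
        exact (hout i hi).2.1
    · intro i hi
      by_cases h : i = a + 1
      · simp only [h, if_true]
        simpa using huv.symm
      · simp only [h, if_false]
        simpa [h] using (hout i hi).2.2
  · by_cases h1 : G.Adj u (p (a + 1))
    · -- triangle
      refine ⟨p, u, a, true, hp, fun i => Or.inl rfl, fun i _ => rfl, fun i _ => rfl, Or.inl rfl,
        by omega, by omega, fun i hi => (hout i hi).1, ?_⟩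
      intro i hi
      constructor
      · intro h
        rcases hadj i hi h with h | h | h
        · exact Or.inl h
        · exact Or.inr ⟨rfl, h⟩
        · subst h
          exact absurd ‹_› h2
      · rintro (h | ⟨_, h⟩)
        · subst h
          exact hua
        · subst h
          exact h1
    · refine ⟨p, u, a, false, hp, fun i => Or.inl rfl, fun i _ => rfl, fun i _ => rfl, Or.inl rfl,
        by omega, by omega, fun i hi => (hout i hi).1, ?_⟩
      intro i hi
      constructor
      · intro h
        rcases hadj i hi h with h | h | h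
        · exact Or.inl h
        · subst h
          exact absurd ‹_› h1
        · subst h
          exact absurd ‹_› h2
      · rintro (h | ⟨h, _⟩)
        · subst h
          exact hua
        · simp at h

/-- Two far apart markers on an induced path give a graph `T(k, α, β)`. -/
theorem hasT_of_markers {p : ℕ → V} {L R c c' : ℕ} {u v u' v' : V} (hp : IsIndPath G p L)
    (hR : 1 ≤ R) (hL : 18 * R ≤ L)
    (hm : Marker G p L c u v) (hm' : Marker G (fun i => p (L - i)) L c' u' v')
    (hc : 5 ≤ c) (hcR : c ≤ 4 * R) (hc' : 5 ≤ c') (hcR' : c' ≤ 4 * R)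
    (huu : ∀ x ∈ ({u, v} : Set V), ∀ y ∈ ({u', v'} : Set V), x ≠ y ∧ ¬ G.Adj x y) :
    ∃ k α β, 10 * R ≤ k + 6 ∧ k ≤ L ∧ HasT G k α β := by
  classical
  have hL2 : 2 * c + 2 * c' + 2 * R ≤ L := by omega
  obtain ⟨p1, w, e, α, hp1, hp1u, hp1r, hp1l, hw, hce, hec, hp1w, hwadj⟩ :=
    normalise hp hm (by omega) (by omega)
  have huu1 : ∀ y ∈ ({u', v'} : Set V), u ≠ y ∧ ¬ G.Adj u y :=
    fun y hy => huu u (by simp) y hy
  have hm1 : Marker G (fun i => p1 (L - i)) L c' u' v' := by
    obtain ⟨h1, h2, h3, h4, h5⟩ := hm'
    have hpe : ∀ i, L - i = L - i := fun _ => rfl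
    refine ⟨h1, ?_, h3, ?_, ?_⟩
    · have : p1 (L - c') = p (L - c') := hp1r _ (by omega)
      show G.Adj u' (p1 (L - c'))
      rw [this]
      exact h2
    · intro i hi
      show p1 (L - i) ≠ u' ∧ p1 (L - i) ≠ v' ∧ ¬ G.Adj v' (p1 (L - i))
      rcases hp1u (L - i) with h | h
      · rw [h]
        exact h4 i hi
      · rw [h]
        refine ⟨(huu1 u' (by simp)).1, (huu1 v' (by simp)).1, ?_⟩
        exact fun hadj => (huu1 v' (by simp)).2 hadj.symm
    · intro i hi j hj hi1 hj1
      have key : ∀ i ≤ L, G.Adj u' (p1 (L - i)) → G.Adj u' (p (L - i)) := by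
        intro i hi hadj
        rcases hp1u (L - i) with h | h
        · rwa [h] at hadj
        · rw [h] at hadj
          exact absurd hadj.symm (huu1 u' (by simp)).2
      exact h5 i hi j hj (key i hi hi1) (key j hj hj1)
  have hp1r' : IsIndPath G (fun i => p1 (L - i)) L := hp1.rev L L le_rfl le_rfl
  obtain ⟨p2, w', e', β, hp2, hp2u, hp2r, hp2l, hw', hce', hec', hp2w, hwadj'⟩ :=
    normalise hp1r' hm1 (by omega) (by omega)
  have hww : w ≠ w' ∧ ¬ G.Adj w w' := by
    apply huu w (by rcases hw with h | h <;> simp [h]) w' (by rcases hw' with h | h <;> simp [h])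
  have hwu' : w ≠ u' ∧ ¬ G.Adj w u' := by
    apply huu w (by rcases hw with h | h <;> simp [h]) u' (by simp)
  -- the final path
  have hfin : IsIndPath G (fun i => p2 (L - i)) L := hp2.rev L L le_rfl le_rfl
  set k := L - e' - e + 4 with hk
  have hs := hfin.shift (e - 2) k (by omega)
  refine ⟨k, α, β, by omega, by omega, fun i => p2 (L - (e - 2 + i)), w, w', hs, hww.1, hww.2,
    ?_, ?_, ?_⟩
  · intro i hi
    beta_reduce
    refine ⟨?_, hp2w _ (by omega)⟩
    rcases hp2u (L - (e - 2 + i)) with h | h
    · rw [h]
      exact hp1w _ (by omega)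
    · rw [h]
      exact hwu'.1.symm
  · intro i hi
    beta_reduce
    by_cases hi2 : L - (e - 2 + i) ≤ c' + 2
    · -- far from the left marker
      constructor
      · intro hadj
        exfalso
        rcases hp2u (L - (e - 2 + i)) with h | h
        · rw [h] at hadj
          have := (hwadj (L - (L - (e - 2 + i))) (by omega)).1 hadj
          omega
        · rw [h] at hadj
          exact hwu'.2 hadj
      · intro h
        exfalso
        omega
    · have h : p2 (L - (e - 2 + i)) = p1 (L - (L - (e - 2 + i))) := hp2r _ (by omega)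
      rw [h, hwadj _ (by omega)]
      constructor
      · rintro (h | ⟨h, h'⟩)
        · left
          omega
        · right
          exact ⟨h, by omega⟩
      · rintro (h | ⟨h, h'⟩)
        · left
          omega
        · right
          exact ⟨h, by omega⟩
  · intro i hi
    beta_reduce
    rw [hwadj' _ (by omega)]
    constructor
    · rintro (h | ⟨h, h'⟩)
      · left
        omega
      · right
        exact ⟨h, by omega⟩
    · rintro (h | ⟨h, h'⟩)
      · left
        omega
      · right
        exact ⟨h, by omega⟩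

end Pool.Agent.Lib.MP_18a3c4_co
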