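import Pool.Agent.Lib.MP_18a3c4_co.Tools

/-!
Walks as functions, induced paths and the hole lemma.
-/

namespace Pool.Agent.Lib.MP_18a3c4_co

variable {V : Type} {G : SimpleGraph V}

/-- `a 0, a 1, …, a l` is a walk. -/
def IsWk (G : SimpleGraph V) (a : ℕ → V) (l : ℕ) : Prop := ∀ i < l, G.Adj (a i) (a (i + 1))

/-- a walk of length at most `r` from `x` to `y` inside `D` -/
def Within (G : SimpleGraph V) (D : Set V) (r : ℕ) (x y : V) : Prop :=
  ∃ (a : ℕ → V) (l : ℕ), l ≤ r ∧ a 0 = x ∧ a l = y ∧ IsWk G a l ∧ ∀ i ≤ l, a i ∈ D

theorem Within.refl {D : Set V} {r : ℕ} {x : V} (hx : x ∈ D) : Within G D r x x :=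
  ⟨fun _ => x, 0, Nat.zero_le _, rfl, rfl, fun _ hi => absurd hi (Nat.not_lt_zero _),
    fun _ _ => hx⟩

theorem Within.symm {D : Set V} {r : ℕ} {x y : V} (h : Within G D r x y) : Within G D r y x := by
  obtain ⟨a, l, hl, h0, h1, hw, hD⟩ := h
  refine ⟨fun i => a (l - i), l, hl, by simpa using h1, by simpa using h0, ?_, ?_⟩
  · intro i hi
    have := hw (l - (i + 1)) (by omega)
    have e : l - (i + 1) + 1 = l - i := by omega
    rw [e] at this
    exact this.symm
  · intro i hi
    exact hD _ (by omega)

theorem Within.trans {D : Set V} {r s : ℕ} {x y z : V} (h : Within G D r x y)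
    (h' : Within G D s y z) : Within G D (r + s) x z := by
  obtain ⟨a, l, hl, h0, h1, hw, hD⟩ := h
  obtain ⟨b, m, hm, g0, g1, gw, gD⟩ := h'
  refine ⟨fun i => if i ≤ l then a i else b (i - l), l + m, by omega, by simpa using h0, ?_, ?_, ?_⟩
  · by_cases hm0 : m = 0
    · subst hm0
      simp only [add_zero, le_refl, if_true]
      rw [h1, ← g1, g0]
    · have : ¬ (l + m ≤ l) := by omega
      simp only [this, if_false]
      rw [← g1]
      congr 1
      omega
  · intro i hi
    by_cases h2 : i + 1 ≤ l
    · have h3 : i ≤ l := by omega
      simp only [h2, h3, if_true]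
      exact hw i (by omega)
    · by_cases h3 : i ≤ l
      · have h4 : i = l := by omega
        subst h4
        simp only [h2, h3, if_true, if_false]
        rw [h1, ← g0]
        have := gw 0 (by omega)
        have e : i + 1 - i = 0 + 1 := by omega
        rw [e]
        exact this
      · simp only [h2, h3, if_false]
        have := gw (i - l) (by omega)
        have e : i + 1 - l = i - l + 1 := by omega
        rw [e]
        exact this
  · intro i hi
    by_cases h3 : i ≤ l
    · simp only [h3, if_true]
      exact hD _ h3
    · simp only [h3, if_false]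
      exact gD _ (by omega)

theorem Within.mono {D E : Set V} {r s : ℕ} {x y : V} (h : Within G D r x y) (hDE : D ⊆ E)
    (hrs : r ≤ s) : Within G E s x y := by
  obtain ⟨a, l, hl, h0, h1, hw, hD⟩ := h
  exact ⟨a, l, hl.trans hrs, h0, h1, hw, fun i hi => hDE (hD i hi)⟩

theorem Within.single {D : Set V} {x y : V} (hx : x ∈ D) (hy : y ∈ D) (h : G.Adj x y) :
    Within G D 1 x y := by
  refine ⟨fun i => if i = 0 then x else y, 1, le_rfl, by simp, by simp, ?_, ?_⟩
  · intro i hi
    have : i = 0 := by omega
    subst this
    simpa using h
  · intro i _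
    by_cases h0 : i = 0 <;> simp [h0, hx, hy]

theorem Within.mem_left {D : Set V} {r : ℕ} {x y : V} (h : Within G D r x y) : x ∈ D := by
  obtain ⟨a, l, hl, h0, h1, hw, hD⟩ := h
  rw [← h0]
  exact hD 0 (Nat.zero_le _)

theorem Within.mem_right {D : Set V} {r : ℕ} {x y : V} (h : Within G D r x y) : y ∈ D :=
  h.symm.mem_left

/-- A shortest walk from `x` (whose later vertices lie in `S`) to a target set is an induced path,
and it meets the target only at its end. -/
theorem exists_min_walk (S : Set V) (T : V → Prop) (x : V) (r : ℕ)
    (h : ∃ (a : ℕ → V) (l : ℕ), l ≤ r ∧ a 0 = x ∧ IsWk G a l ∧ (∀ i, 1 ≤ i → i ≤ l → a i ∈ S) ∧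
      T (a l)) :
    ∃ (a : ℕ → V) (l : ℕ), l ≤ r ∧ a 0 = x ∧ IsIndPath G a l ∧ (∀ i, 1 ≤ i → i ≤ l → a i ∈ S) ∧
      T (a l) ∧ ∀ i < l, ¬ T (a i) := by
  classical
  let P : ℕ → Prop := fun l => ∃ a : ℕ → V, a 0 = x ∧ IsWk G a l ∧
    (∀ i, 1 ≤ i → i ≤ l → a i ∈ S) ∧ T (a l)
  have hex : ∃ l, P l := by
    obtain ⟨a, l, _, h⟩ := h
    exact ⟨l, a, h⟩
  have hmin := Nat.find_spec hex
  have hlt : ∀ m, m < Nat.find hex → ¬ P m := fun m hm => Nat.find_min hex hm
  have hle : Nat.find hex ≤ r := by
    obtain ⟨a, l, hl, h⟩ := h
    exact (Nat.find_min' hex ⟨a, h⟩).trans hl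
  set l := Nat.find hex with hl
  obtain ⟨a, h0, hw, hS, hT⟩ := hmin
  -- shortcut: skip from index `i` to index `j`
  have key : ∀ i j, i < j → j ≤ l → (a i = a j ∨ (i + 1 < j ∧ G.Adj (a i) (a j))) → False := by
    intro i j hij hj hor
    rcases hor with he | ⟨hij', he⟩
    · refine hlt (l - (j - i)) (by omega) ⟨fun t => if t ≤ i then a t else a (t + (j - i)), ?_, ?_, ?_, ?_⟩
      · simpa using h0
      · intro t ht
        by_cases h1 : t + 1 ≤ i
        · have h2 : t ≤ i := by omega
          simp only [h1, h2, if_true]
          exact hw t (by omega)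
        · by_cases h2 : t ≤ i
          · have h3 : t = i := by omega
            subst h3
            simp only [h1, h2, if_true, if_false]
            rw [he]
            have := hw j (by omega)
            have e : t + 1 + (j - t) = j + 1 := by omega
            rw [e]
            exact this
          · simp only [h1, h2, if_false]
            have := hw (t + (j - i)) (by omega)
            have e : t + 1 + (j - i) = t + (j - i) + 1 := by omega
            rw [e]
            exact this
      · intro t ht1 ht2
        by_cases h1 : t ≤ i
        · simp only [h1, if_true]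
          exact hS t ht1 (by omega)
        · simp only [h1, if_false]
          exact hS _ (by omega) (by omega)
      · by_cases h1 : l - (j - i) ≤ i
        · have h2 : l = j := by omega
          have h3 : l - (j - i) = i := by omega
          simp only [h3, le_refl, if_true]
          rw [he, ← h2]
          exact hT
        · simp only [h1, if_false]
          have e : l - (j - i) + (j - i) = l := by omega
          rw [e]
          exact hT
    · refine hlt (l - (j - i - 1)) (by omega)
        ⟨fun t => if t ≤ i then a t else a (t + (j - i - 1)), ?_, ?_, ?_, ?_⟩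
      · simpa using h0
      · intro t ht
        by_cases h1 : t + 1 ≤ i
        · have h2 : t ≤ i := by omega
          simp only [h1, h2, if_true]
          exact hw t (by omega)
        · by_cases h2 : t ≤ i
          · have h3 : t = i := by omega
            subst h3
            simp only [h1, h2, if_true, if_false]
            have e : t + 1 + (j - t - 1) = j := by omega
            rw [e]
            exact he
          · simp only [h1, h2, if_false]
            have := hw (t + (j - i - 1)) (by omega)
            have e : t + 1 + (j - i - 1) = t + (j - i - 1) + 1 := by omega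
            rw [e]
            exact this
      · intro t ht1 ht2
        by_cases h1 : t ≤ i
        · simp only [h1, if_true]
          exact hS t ht1 (by omega)
        · simp only [h1, if_false]
          exact hS _ (by omega) (by omega)
      · have h1 : ¬ (l - (j - i - 1) ≤ i) := by omega
        simp only [h1, if_false]
        have e : l - (j - i - 1) + (j - i - 1) = l := by omega
        rw [e]
        exact hT
  refine ⟨a, l, hle, h0, ?_, hS, hT, ?_⟩
  · intro i hi j hj
    constructor
    · intro he
      rcases lt_trichotomy i j with h1 | h1 | h1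
      · exact (key i j h1 hj (Or.inl he)).elim
      · exact h1
      · exact (key j i h1 hi (Or.inl he.symm)).elim
    · constructor
      · intro he
        rcases lt_trichotomy i j with h1 | h1 | h1
        · by_contra hne
          push Not at hne
          exact key i j h1 hj (Or.inr ⟨by omega, he⟩)
        · subst h1
          exact absurd he (G.irrefl)
        · by_contra hne
          push Not at hne
          exact key j i h1 hi (Or.inr ⟨by omega, he.symm⟩)
      · rintro (h1 | h1)
        · subst h1
          exact hw i (by omega)
        · subst h1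
          exact (hw j (by omega)).symm
  · intro i hi hTi
    exact hlt i hi ⟨a, h0, fun t ht => hw t (by omega), fun t ht1 ht2 => hS t ht1 (by omega), hTi⟩

end Pool.Agent.Lib.MP_18a3c4_co
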