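import Pool.Agent.Lib.MP_18a3c4_co.Defs

/-!
Auxiliary notions used in the proof (not in the statement).
-/

namespace Pool.Agent.Lib.MP_18a3c4_co

/-- `M` is a module of `G`: every vertex outside `M` is adjacent to all or to none of `M`. -/
def IsModule {V : Type} (G : SimpleGraph V) (M : Set V) : Prop :=
  ∀ x, x ∉ M → ∀ a ∈ M, ∀ b ∈ M, (G.Adj x a ↔ G.Adj x b)

/-- `G` is prime: a module with at least two vertices is everything. -/
def IsPrimeGraph {V : Type} (G : SimpleGraph V) : Prop :=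
  ∀ M : Set V, IsModule G M → M.Nontrivial → M = Set.univ

/-- All finite induced subgraphs of `G` are in the class `𝓐`. -/
def InCls (𝓐 : HereditaryClass) {V : Type} (G : SimpleGraph V) : Prop :=
  ∀ (m : ℕ) (H : SimpleGraph (Fin m)), Nonempty (H ↪g G) → 𝓐.mem m H

/-- Closure under substitution, stated with modules. -/
def ModuleClosed (𝓐 : HereditaryClass) : Prop :=
  ∀ (V : Type) [Finite V] (G : SimpleGraph V) (M : Set V) (v : V), v ∈ M → IsModule G M →
    InCls 𝓐 (G.induce (insert v Mᶜ)) → InCls 𝓐 (G.induce M) → InCls 𝓐 G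

/-- The members of `F` that contain no member of `S` as an induced subgraph. -/
def avoid (F : HereditaryClass) (S : Set (Σ n : ℕ, SimpleGraph (Fin n))) : HereditaryClass where
  mem n G := F.mem n G ∧ ∀ X ∈ S, ¬ Nonempty (X.2 ↪g G)
  closed m n H G := by
    rintro ⟨h1, h2⟩ ⟨e⟩
    refine ⟨F.closed m n H G h1 ⟨e⟩, fun X hX hne => h2 X hX ?_⟩
    obtain ⟨f⟩ := hne
    exact ⟨f.trans e⟩

theorem inCls_iff (𝓐 : HereditaryClass) {n : ℕ} (G : SimpleGraph (Fin n)) :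
    InCls 𝓐 G ↔ 𝓐.mem n G := by
  constructor
  · intro h
    exact h n G ⟨SimpleGraph.Embedding.refl⟩
  · intro h m H hH
    exact 𝓐.closed m n H G h hH

theorem InCls.mono {𝓐 : HereditaryClass} {V W : Type} {G : SimpleGraph V} {H : SimpleGraph W}
    (h : InCls 𝓐 G) (e : Nonempty (H ↪g G)) : InCls 𝓐 H := by
  obtain ⟨e⟩ := e
  rintro m K ⟨f⟩
  exact h m K ⟨f.trans e⟩

/-! ### Pattern graphs -/

/-- `p 0, …, p k` is an induced path of `G`. -/
def IsIndPath {V : Type} (G : SimpleGraph V) (p : ℕ → V) (k : ℕ) : Prop :=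
  ∀ i ≤ k, ∀ j ≤ k, (p i = p j → i = j) ∧ (G.Adj (p i) (p j) ↔ (j = i + 1 ∨ i = j + 1))

/-- `G` has an induced cycle of length `j`. -/
def HasHole {V : Type} (G : SimpleGraph V) (j : ℕ) : Prop :=
  ∃ c : ℕ → V, ∀ a < j, ∀ b < j, (c a = c b → a = b) ∧
    (G.Adj (c a) (c b) ↔
      (b = a + 1 ∨ a = b + 1 ∨ (a = 0 ∧ b + 1 = j) ∨ (b = 0 ∧ a + 1 = j)))

/-- `G` has an induced subgraph consisting of an induced path `p 0, …, p k` and two more vertices
`u ≁ u'`, where `u` is adjacent on the path exactly to `p 2` and, if `α`, to `p 3`, and `u'` is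
adjacent exactly to `p (k-2)` and, if `β`, to `p (k-3)`. -/
def HasT {V : Type} (G : SimpleGraph V) (k : ℕ) (α β : Bool) : Prop :=
  ∃ (p : ℕ → V) (u u' : V), IsIndPath G p k ∧ u ≠ u' ∧ ¬ G.Adj u u' ∧
    (∀ i ≤ k, p i ≠ u ∧ p i ≠ u') ∧
    (∀ i ≤ k, G.Adj u (p i) ↔ (i = 2 ∨ (α = true ∧ i = 3))) ∧
    (∀ i ≤ k, G.Adj u' (p i) ↔ (i + 2 = k ∨ (β = true ∧ i + 3 = k)))

end Pool.Agent.Lib.MP_18a3c4_co
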